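import Pool.Agent.PCU.Stmts

/-!
# Squad PCU, module BLL: balls of a Cayley graph.
-/

set_option autoImplicit false

namespace Pool.Agent.PCU

open scoped Classical Pointwise

namespace BLL_

variable {Γ : Type} [Group Γ]

lemma ball_pow (S : Finset Γ) (k : ℕ) : ball S k = (insert 1 S) ^ k := rfl

lemma inv_B {S : Finset Γ} (hS : SymGen S) : (insert 1 S : Finset Γ)⁻¹ = insert 1 S := by
  ext x
  rw [Finset.mem_inv]
  constructor
  · rintro ⟨y, hy, rfl⟩
    rcases Finset.mem_insert.1 hy with rfl | hy
    · simp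
    · exact Finset.mem_insert_of_mem (hS.1 y hy)
  · intro hx
    refine ⟨x⁻¹, ?_, inv_inv x⟩
    rcases Finset.mem_insert.1 hx with rfl | hx
    · simp
    · exact Finset.mem_insert_of_mem (hS.1 x hx)

lemma inv_ball {S : Finset Γ} (hS : SymGen S) (k : ℕ) : (ball S k)⁻¹ = ball S k := by
  rw [ball_pow, ← inv_pow, inv_B hS]

lemma one_mem (S : Finset Γ) : (1 : Γ) ∈ (insert 1 S : Finset Γ) := Finset.mem_insert_self _ _

lemma mono (S : Finset Γ) {a b : ℕ} (h : a ≤ b) : ball S a ⊆ ball S b :=
  Finset.pow_subset_pow_right (one_mem S) h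

lemma exists_mem {S : Finset Γ} (hS : SymGen S) (g : Γ) : ∃ k, g ∈ ball S k := by
  have hg : g ∈ Subgroup.closure (S : Set Γ) := by rw [hS.2]; exact Subgroup.mem_top g
  induction hg using Subgroup.closure_induction with
  | mem s hs =>
    refine ⟨1, ?_⟩
    rw [ball_pow, pow_one]
    exact Finset.mem_insert_of_mem (by simpa using hs)
  | one => exact ⟨0, by rw [ball_pow, pow_zero]; exact Finset.mem_one.2 rfl⟩
  | mul x y _ _ hx hy =>
    obtain ⟨a, ha⟩ := hx
    obtain ⟨b, hb⟩ := hy
    exact ⟨a + b, by rw [ball_pow, pow_add]; exact Finset.mul_mem_mul ha hb⟩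
  | inv x _ hx =>
    obtain ⟨a, ha⟩ := hx
    refine ⟨a, ?_⟩
    rw [← inv_ball hS a]
    exact Finset.inv_mem_inv ha

end BLL_

open BLL_ in
theorem bll_proof : Stmt_BLL := by
  intro Γ _ S hS hinf
  refine ⟨?_, ?_, ?_⟩
  · intro k hk
    refine ⟨?_, ?_⟩
    · intro s hs
      rw [← inv_ball hS k]
      exact Finset.inv_mem_inv hs
    · rw [eq_top_iff, ← hS.2]
      apply Subgroup.closure_mono
      intro s hs
      have h1 : s ∈ ball S 1 := by
        rw [ball_pow, pow_one]
        exact Finset.mem_insert_of_mem (by simpa using hs)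
      exact Finset.mem_coe.2 (mono S hk h1)
  · intro k s hk hs
    obtain ⟨m, rfl⟩ : ∃ m, k = m + 1 := ⟨k - 1, by omega⟩
    have h1 : (ball S (m + 1)).card ≤ (ball S m).card * (S.card + 1) := by
      calc (ball S (m + 1)).card = (ball S m * insert 1 S).card := by
            rw [ball_pow, ball_pow, pow_succ]
        _ ≤ (ball S m).card * (insert 1 S : Finset Γ).card := Finset.card_mul_le
        _ ≤ (ball S m).card * (S.card + 1) :=
            Nat.mul_le_mul_left _ (Finset.card_insert_le _ _)
    have h2 : ball S m ⊆ ball S (m + 1) ∩ (ball S (m + 1)).image fun t => t * s := by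
      intro x hx
      rw [Finset.mem_inter]
      refine ⟨mono S (Nat.le_succ m) hx, ?_⟩
      rw [Finset.mem_image]
      refine ⟨x * s⁻¹, ?_, by group⟩
      rw [ball_pow, pow_succ]
      exact Finset.mul_mem_mul hx (Finset.mem_insert_of_mem (hS.1 s hs))
    calc (ball S (m + 1)).card ≤ (ball S m).card * (S.card + 1) := h1
      _ = (S.card + 1) * (ball S m).card := Nat.mul_comm _ _
      _ ≤ _ := Nat.mul_le_mul_left _ (Finset.card_le_card h2)
  · intro N
    obtain ⟨F, hF⟩ := Infinite.exists_subset_card_eq Γ N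
    choose f hf using fun g : Γ => exists_mem hS g
    refine ⟨F.sup f, ?_⟩
    intro k hk
    rw [← hF]
    apply Finset.card_le_card
    intro x hx
    exact mono S ((Finset.le_sup (f := f) hx).trans hk) (hf x)

end Pool.Agent.PCU
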