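import Pool.Agent.PCU.Stmts

/-!
# Squad PCU (MP_8ee43e_pr): module BRI (bridges)
-/

set_option autoImplicit false

namespace Pool.Agent.PCU

open MeasureTheory ProbabilityTheory
open scoped Classical

namespace BRI_

variable {V : Type}

/-- exactly one endpoint of `e` is connected to `o` without `e` -/
def B (o : V) (e : Sym2 V) (ω : Finset (Sym2 V)) : Prop :=
  ∃ x y, e = s(x, y) ∧ Rc (ω.erase e) o x ∧ ¬ Rc (ω.erase e) o y

theorem B_local (o : V) (e : Sym2 V) {ω D : Finset (Sym2 V)}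
    (h : ∀ a, a ∈ D ↔ a ∈ ω ∧ a ≠ e) : B o e ω ↔ B o e D := by
  have h1 : D.erase e = ω.erase e := by
    ext a
    rw [Finset.mem_erase, Finset.mem_erase, h a]
    tauto
  unfold B
  rw [h1]

section gen

variable {α : Type}

theorem Pr_not (p : ℝ) (E : Finset α) (A : Finset α → Prop) :
    Pr p E (fun ω => ¬ A ω) = 1 - Pr p E A := by
  have h : Ex p E (fun ω => (1 : ℝ) - if A ω then 1 else 0) = 1 - Pr p E A := by
    rw [Ex_sub, Ex_const]
    rfl
  rw [← h]
  refine Ex_congr p E fun ω _ => ?_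
  by_cases hA : A ω
  · rw [if_neg (not_not.2 hA), if_pos hA, sub_self]
  · rw [if_pos hA, if_neg hA, sub_zero]

theorem Pr_single (p : ℝ) (e : α) :
    Pr p {e} (fun ω => e ∈ ω) = p ∧ Pr p {e} (fun ω => ¬ e ∈ ω) = 1 - p := by
  have h0 : Pr p {e} (fun ω => e ∈ ω) = p := by
    have h := Pr_open p (D := {e}) (E := {e}) (Finset.Subset.refl _)
    rw [Finset.card_singleton, pow_one] at h
    refine Eq.trans ?_ h
    exact Pr_congr p _ fun ω _ => by rw [Finset.singleton_subset_iff]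
  exact ⟨h0, by rw [Pr_not, h0]⟩

theorem flipG (p : ℝ) {E : Finset α} {e : α} (he : e ∈ E) (A : Finset α → Prop)
    (hA : ∀ ω D : Finset α, (∀ a, a ∈ D ↔ a ∈ ω ∧ a ≠ e) → (A ω ↔ A D)) :
    (1 - p) * Pr p E (fun ω => e ∈ ω ∧ A ω) = p * Pr p E (fun ω => ¬ e ∈ ω ∧ A ω) := by
  have hs : ({e} : Finset α) ⊆ E := Finset.singleton_subset_iff.2 he
  have hd : Disjoint ({e} : Finset α) (E.erase e) := by
    rw [Finset.disjoint_singleton_left]
    exact Finset.notMem_erase e E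
  have h1 : Pr p E (fun ω => e ∈ ω ∧ A ω) =
      Pr p {e} (fun ω => e ∈ ω) * Pr p (E.erase e) A := by
    rw [← Pr_indep p hs (Finset.erase_subset e E) hd]
    refine Pr_congr p E fun ω hω => ?_
    rw [Finset.mem_inter, Finset.mem_singleton]
    refine and_congr (by simp) (hA _ _ fun a => ?_)
    rw [Finset.mem_inter, Finset.mem_erase]
    exact ⟨fun h => ⟨h.1, h.2.1⟩, fun h => ⟨h.1, h.2, hω h.1⟩⟩
  have h2 : Pr p E (fun ω => ¬ e ∈ ω ∧ A ω) =
      Pr p {e} (fun ω => ¬ e ∈ ω) * Pr p (E.erase e) A := by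
    rw [← Pr_indep p hs (Finset.erase_subset e E) hd]
    refine Pr_congr p E fun ω hω => ?_
    rw [Finset.mem_inter, Finset.mem_singleton]
    refine and_congr (by simp) (hA _ _ fun a => ?_)
    rw [Finset.mem_inter, Finset.mem_erase]
    exact ⟨fun h => ⟨h.1, h.2.1⟩, fun h => ⟨h.1, h.2, hω h.1⟩⟩
  rw [h1, h2, (Pr_single p e).1, (Pr_single p e).2]
  ring

/-- sums of probabilities of events as expectations of cardinalities -/
theorem sumPr (p : ℝ) (E F : Finset α) (A : α → Finset α → Prop) :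
    ∃ D : Finset α → Finset α, (∀ ω e, e ∈ D ω ↔ e ∈ F ∧ A e ω) ∧
      ∑ e ∈ F, Pr p E (A e) = Ex p E (fun ω => ((D ω).card : ℝ)) := by
  refine ⟨fun ω => F.filter fun e => A e ω, fun ω e => Finset.mem_filter, ?_⟩
  unfold Pr
  rw [← Ex_sum]
  refine Ex_congr p E fun ω _ => ?_
  rw [Finset.card_filter]
  push_cast
  rfl

end gen

theorem flip (p : ℝ) {E : Finset (Sym2 V)} (o : V) {e : Sym2 V} (he : e ∈ E) :
    (1 - p) * Pr p E (fun ω => e ∈ ω ∧ B o e ω) = p * Pr p E (fun ω => ¬ e ∈ ω ∧ B o e ω) :=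
  flipG p he (B o e) fun _ _ h => B_local o e h

/-- a connection which needs `e` passes through the endpoints of `e` -/
theorem through {ω : Finset (Sym2 V)} {o a : V} {e : Sym2 V} (h : Rc ω o a)
    (h' : ¬ Rc (ω.erase e) o a) {z : V} (hz : z ∈ e) : Rc ω o z := by
  obtain ⟨W⟩ := h
  by_cases he : e ∈ W.edges
  · have hz' : z ∈ W.support := by
      induction e with
      | _ x y =>
        rw [Sym2.mem_iff] at hz
        rcases hz with rfl | rfl
        · exact W.fst_mem_support_of_mem_edges he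
        · exact W.snd_mem_support_of_mem_edges he
    exact ⟨W.takeUntil z hz'⟩
  · exfalso
    apply h'
    refine ⟨W.transfer _ ?_⟩
    intro f hf
    have h1 := W.edges_subset_edgeSet hf
    rw [SimpleGraph.edgeSet_fromEdgeSet] at h1 ⊢
    refine ⟨?_, h1.2⟩
    rw [Finset.coe_erase]
    exact ⟨h1.1, fun h2 => he (h2 ▸ hf)⟩

/-- the bridges of the cluster of `o` -/
theorem bridges (G : SimpleGraph V) (S : Finset V) (o : V) (ho : o ∈ S) {ω : Finset (Sym2 V)}
    (D : Finset (Sym2 V)) (hD : ∀ e ∈ D, e ∈ EI G S ∧ e ∈ ω ∧ B o e ω) :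
    D.card + 1 ≤ (cl S o ω).card := by
  have hocl : o ∈ cl S o ω := by
    unfold cl
    exact Finset.mem_filter.2 ⟨ho, Rc.refl ω o⟩
  rw [← Finset.card_erase_add_one hocl]
  refine Nat.add_le_add_right ?_ 1
  -- the far endpoint
  have hex : ∀ e : Sym2 V, ∃ z : V, (e ∈ ω ∧ B o e ω) →
      ∃ x, e = s(x, z) ∧ Rc (ω.erase e) o x ∧ ¬ Rc (ω.erase e) o z := by
    intro e
    by_cases he : e ∈ ω ∧ B o e ω
    · obtain ⟨x, z, h⟩ := he.2
      exact ⟨z, fun _ => ⟨x, h⟩⟩
    · exact ⟨o, fun h => absurd h he⟩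
  choose f hf using hex
  refine Finset.card_le_card_of_injOn f ?_ ?_
  · intro e he
    replace he := hD e (Finset.mem_coe.1 he)
    obtain ⟨x, h1, h2, h3⟩ := hf e he.2
    rw [Finset.mem_coe, Finset.mem_erase]
    constructor
    · intro h4
      apply h3
      rw [h4]
      exact Rc.refl _ _
    · unfold cl
      rw [Finset.mem_filter]
      have h4 : s(x, f e) ∈ EI G S := h1 ▸ he.1
      rw [mem_EI] at h4
      refine ⟨h4.2.2, (h2.mono (Finset.erase_subset _ _)).trans (Rc.edge ?_)⟩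
      exact h1 ▸ he.2.1
  · intro e he e' he' hee
    replace he := hD e (Finset.mem_coe.1 he)
    replace he' := hD e' (Finset.mem_coe.1 he')
    obtain ⟨x, h1, h2, h3⟩ := hf e he.2
    obtain ⟨x', h1', h2', h3'⟩ := hf e' he'.2
    by_contra hne
    -- `x'` is connected to `f e` without `e`
    have h4 : Rc (ω.erase e) (f e) x' := by
      refine Rc.edge ?_
      rw [Finset.mem_erase, hee]
      have h5 : s(f e', x') = e' := Sym2.eq_swap.trans h1'.symm
      rw [h5]
      exact ⟨fun h => hne h.symm, he'.2.1⟩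
    have h5 : ¬ Rc ((ω.erase e').erase e) o x' := by
      intro h6
      apply h3
      have h7 : Rc (ω.erase e) o x' :=
        h6.mono (Finset.erase_subset_erase _ (Finset.erase_subset _ _))
      exact h7.trans h4.symm
    apply h3'
    rw [← hee]
    refine through h2' h5 ?_
    exact Eq.mpr (congrArg (fun t => f e ∈ t) h1) (Sym2.mem_mk_right x (f e))

end BRI_

open BRI_

theorem bri_proof : Stmt_BRI := by
  intro V G S o p ho hp0 hp1
  set E := EI G S with hE
  -- the left side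
  have hL : Ex p E (fun ω => ∑ x ∈ cl S o ω,
        ((S.filter fun y => G.Adj x y ∧ ¬ Rc ω o y).card : ℝ)) ≤
      ∑ e ∈ E, Pr p E (fun ω => ¬ e ∈ ω ∧ B o e ω) := by
    obtain ⟨D, hD, hDs⟩ := sumPr p E E (fun e ω => ¬ e ∈ ω ∧ B o e ω)
    rw [hDs]
    refine Ex_mono hp0.le hp1.le E fun ω hω => ?_
    rw [← Nat.cast_sum, ← Finset.card_sigma]
    refine Nat.cast_le.2 (Finset.card_le_card_of_injOn
      (fun a : (_ : V) × V => s(a.1, a.2)) ?_ ?_)
    · rintro ⟨x, y⟩ hxy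
      rw [Finset.mem_coe, Finset.mem_sigma] at hxy
      obtain ⟨h2, h3⟩ := hxy
      unfold cl at h2
      rw [Finset.mem_filter] at h2 h3
      obtain ⟨h4, h5, h6⟩ := h3
      have h7 : ¬ s(x, y) ∈ ω := fun h8 => h6 (h2.2.trans (Rc.edge h8))
      rw [Finset.mem_coe, hD]
      refine ⟨mem_EI.2 ⟨h5, h2.1, h4⟩, h7, x, y, rfl, ?_⟩
      show Rc (ω.erase s(x, y)) o x ∧ ¬ Rc (ω.erase s(x, y)) o y
      rw [Finset.erase_eq_of_notMem h7]
      exact ⟨h2.2, h6⟩
    · rintro ⟨x, y⟩ hxy ⟨x', y'⟩ hxy' h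
      rw [Finset.mem_coe, Finset.mem_sigma] at hxy hxy'
      have h' : s(x, y) = s(x', y') := h
      rw [Sym2.eq_iff] at h'
      rcases h' with ⟨rfl, rfl⟩ | ⟨rfl, rfl⟩
      · rfl
      · exfalso
        have h2 := hxy.1
        unfold cl at h2
        rw [Finset.mem_filter] at h2
        have h3 := hxy'.2
        rw [Finset.mem_filter] at h3
        exact h3.2.2 h2.2
  -- the right side
  have hR : ∑ e ∈ E, Pr p E (fun ω => e ∈ ω ∧ B o e ω) ≤ ∑ x ∈ S, tau G S p o x - 1 := by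
    have h1 : ∑ x ∈ S, tau G S p o x - 1 =
        Ex p E (fun ω => ((cl S o ω).card : ℝ) - 1) := by
      rw [Ex_sub, Ex_const]
      congr 1
      unfold tau Pr
      rw [← Ex_sum]
      refine Ex_congr p E fun ω _ => ?_
      unfold cl
      rw [Finset.card_filter]
      push_cast
      rfl
    obtain ⟨D, hD, hDs⟩ := sumPr p E E (fun e ω => e ∈ ω ∧ B o e ω)
    rw [h1, hDs]
    refine Ex_mono hp0.le hp1.le E fun ω hω => ?_
    have h4 := bridges G S o ho (ω := ω) (D ω) (fun e he => (hD ω e).1 he)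
    have h5 : (((D ω).card + 1 : ℕ) : ℝ) ≤ ((cl S o ω).card : ℝ) := Nat.cast_le.2 h4
    push_cast at h5
    linarith
  have hF : (1 - p) * ∑ e ∈ E, Pr p E (fun ω => e ∈ ω ∧ B o e ω) =
      p * ∑ e ∈ E, Pr p E (fun ω => ¬ e ∈ ω ∧ B o e ω) := by
    rw [Finset.mul_sum, Finset.mul_sum]
    exact Finset.sum_congr rfl fun e he => flip p o he
  calc p * Ex p E (fun ω => ∑ x ∈ cl S o ω,
        ((S.filter fun y => G.Adj x y ∧ ¬ Rc ω o y).card : ℝ)) ≤
      p * ∑ e ∈ E, Pr p E (fun ω => ¬ e ∈ ω ∧ B o e ω) := mul_le_mul_of_nonneg_left hL hp0.le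
    _ = (1 - p) * ∑ e ∈ E, Pr p E (fun ω => e ∈ ω ∧ B o e ω) := hF.symm
    _ ≤ (1 - p) * (∑ x ∈ S, tau G S p o x - 1) :=
      mul_le_mul_of_nonneg_left hR (by linarith)

end Pool.Agent.PCU
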