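import Pool.Agent.PCU.Stmts

/-!
# Squad PCU, module CAY: Cayley graphs
-/

set_option autoImplicit false

namespace Pool.Agent.PCU

open MeasureTheory ProbabilityTheory
open scoped Classical

namespace CAY_

variable {Γ : Type} [Group Γ]

lemma adj_iff {T : Finset Γ} (hT : SymGen T) (g h : Γ) :
    (cay (T : Set Γ)).Adj g h ↔ g ≠ h ∧ g⁻¹ * h ∈ T := by
  unfold cay
  rw [SimpleGraph.fromRel_adj]
  constructor
  · rintro ⟨h1, h2 | h2⟩
    · exact ⟨h1, h2⟩
    · refine ⟨h1, ?_⟩
      have h3 := hT.1 _ h2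
      rwa [mul_inv_rev, inv_inv] at h3
  · rintro ⟨h1, h2⟩
    exact ⟨h1, Or.inl h2⟩

lemma reach {T : Finset Γ} (hT : SymGen T) (w : Γ) :
    ∀ x : Γ, (cay (T : Set Γ)).Reachable x (x * w) := by
  have hw : w ∈ Subgroup.closure (T : Set Γ) := by rw [hT.2]; exact Subgroup.mem_top w
  induction hw using Subgroup.closure_induction with
  | mem s hs =>
    intro x
    by_cases h : x = x * s
    · rw [← h]
    · refine SimpleGraph.Adj.reachable ?_
      rw [adj_iff hT]
      refine ⟨h, ?_⟩
      rw [inv_mul_cancel_left]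
      exact hs
  | one =>
    intro x
    rw [mul_one]
  | mul a b _ _ ha hb =>
    intro x
    rw [← mul_assoc]
    exact (ha x).trans (hb (x * a))
  | inv a _ ha =>
    intro x
    have h1 := ha (x * a⁻¹)
    rw [inv_mul_cancel_right] at h1
    exact h1.symm

end CAY_

open CAY_ in
theorem cay_proof : Stmt_CAY := by
  intro Γ _ T hT
  refine ⟨?_, ?_, ?_, ?_⟩
  · rw [SimpleGraph.connected_iff]
    refine ⟨?_, ⟨1⟩⟩
    intro x y
    have h := reach hT (x⁻¹ * y) x
    rwa [mul_inv_cancel_left] at h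
  · intro x y
    refine ⟨⟨Equiv.mulLeft (y * x⁻¹), ?_⟩, ?_⟩
    · intro a b
      rw [adj_iff hT, adj_iff hT, Equiv.coe_mulLeft]
      have h1 : (y * x⁻¹ * a)⁻¹ * (y * x⁻¹ * b) = a⁻¹ * b := by group
      rw [h1]
      constructor
      · rintro ⟨h2, h3⟩
        exact ⟨fun h => h2 (by rw [h]), h3⟩
      · rintro ⟨h2, h3⟩
        exact ⟨fun h => h2 (mul_left_cancel h), h3⟩
    · show y * x⁻¹ * x = y
      group
  · refine ⟨fun v => ?_⟩
    have hfin : ((cay (T : Set Γ)).neighborSet v).Finite := by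
      refine Set.Finite.subset (Finset.finite_toSet (T.image fun t => v * t)) ?_
      intro y hy
      rw [SimpleGraph.mem_neighborSet, adj_iff hT] at hy
      rw [Finset.mem_coe, Finset.mem_image]
      exact ⟨v⁻¹ * y, hy.2, by rw [mul_inv_cancel_left]⟩
    exact hfin.fintype
  · intro _ x
    ext y
    rw [SimpleGraph.mem_neighborFinset, adj_iff hT, Finset.mem_image]
    constructor
    · rintro ⟨h1, h2⟩
      refine ⟨x⁻¹ * y, ?_, by rw [mul_inv_cancel_left]⟩
      rw [Finset.mem_erase]
      refine ⟨?_, h2⟩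
      intro h3
      apply h1
      rw [inv_mul_eq_one] at h3
      exact h3
    · rintro ⟨t, ht, rfl⟩
      rw [Finset.mem_erase] at ht
      refine ⟨?_, ?_⟩
      · intro h
        apply ht.1
        rw [left_eq_mul] at h
        exact h
      · rw [inv_mul_cancel_left]
        exact ht.2

end Pool.Agent.PCU
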