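import Pool.Agent.PCU.Stmts

/-!
# Squad PCU (MP_8ee43e_pr): module CHG, Cheeger's inequality.
-/

set_option autoImplicit false

namespace Pool.Agent.PCU

open MeasureTheory ProbabilityTheory
open scoped Classical

namespace CHG_

variable {V : Type}

/-- the layer cake inequality -/
theorem layer (G : SimpleGraph V) [G.LocallyFinite] (c : ℝ)
    (hF : ∀ F : Finset V, F.Nonempty →
      c * F.card ≤ ∑ x ∈ F, ((G.neighborFinset x \ F).card : ℝ)) :
    ∀ (n : ℕ) (S : Finset V) (g : V → ℝ), S.card = n → (∀ x, 0 ≤ g x) →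
      (∀ x, x ∉ S → g x = 0) →
      c * ∑ x ∈ S, g x ≤ ∑ x ∈ S, ∑ y ∈ G.neighborFinset x, max (g x - g y) 0 := by
  intro n
  induction n with
  | zero =>
    intro S g hc _ _
    have : S = ∅ := Finset.card_eq_zero.mp hc
    subst this
    simp
  | succ n ih =>
    intro S g hc h0 hz
    have hS : S.Nonempty := Finset.card_pos.mp (by omega)
    obtain ⟨x₀, hx₀, hmin⟩ := S.exists_min_image g hS
    obtain ⟨m, hm⟩ : ∃ m, m = g x₀ := ⟨_, rfl⟩
    have hm0 : 0 ≤ m := hm ▸ h0 x₀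
    obtain ⟨g', hg'⟩ : ∃ g' : V → ℝ, g' = fun x => if x ∈ S then g x - m else 0 := ⟨_, rfl⟩
    have hgS : ∀ x ∈ S, g' x = g x - m := fun x hx => by rw [hg']; simp only [hx, if_true]
    have hgN : ∀ x, x ∉ S → g' x = 0 := fun x hx => by rw [hg']; simp only [hx, if_false]
    have hg'0 : ∀ x, 0 ≤ g' x := by
      intro x
      by_cases hx : x ∈ S
      · have := hmin x hx
        rw [hgS x hx]
        linarith
      · rw [hgN x hx]
    have hg'z : ∀ x, x ∉ S.erase x₀ → g' x = 0 := by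
      intro x hx
      by_cases hxS : x ∈ S
      · have hxx : x = x₀ := by
          by_contra hne
          exact hx (Finset.mem_erase.mpr ⟨hne, hxS⟩)
        rw [hgS x hxS, hxx, hm, sub_self]
      · exact hgN x hxS
    have hih := ih (S.erase x₀) g' (by rw [Finset.card_erase_of_mem hx₀]; omega) hg'0 hg'z
    have e1 : ∑ x ∈ S, g x = m * S.card + ∑ x ∈ S.erase x₀, g' x := by
      have a1 : ∑ x ∈ S.erase x₀, g' x = ∑ x ∈ S, g' x :=
        Finset.sum_subset (Finset.erase_subset _ _) (fun x _ hx => hg'z x hx)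
      have a2 : ∑ x ∈ S, g' x = ∑ x ∈ S, (g x - m) :=
        Finset.sum_congr rfl (fun x hx => hgS x hx)
      rw [a1, a2, Finset.sum_sub_distrib, Finset.sum_const, nsmul_eq_mul]
      ring
    have e2 : m * ∑ x ∈ S, ((G.neighborFinset x \ S).card : ℝ) +
        ∑ x ∈ S.erase x₀, ∑ y ∈ G.neighborFinset x, max (g' x - g' y) 0 ≤
        ∑ x ∈ S, ∑ y ∈ G.neighborFinset x, max (g x - g y) 0 := by
      have a1 : ∑ x ∈ S.erase x₀, ∑ y ∈ G.neighborFinset x, max (g' x - g' y) 0 =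
          ∑ x ∈ S, ∑ y ∈ G.neighborFinset x, max (g' x - g' y) 0 := by
        apply Finset.sum_subset (Finset.erase_subset _ _)
        intro x _ hx
        apply Finset.sum_eq_zero
        intro y _
        rw [hg'z x hx]
        apply max_eq_right
        have := hg'0 y
        linarith
      rw [a1, Finset.mul_sum, ← Finset.sum_add_distrib]
      apply Finset.sum_le_sum
      intro x hx
      have a2 : m * ((G.neighborFinset x \ S).card : ℝ) =
          ∑ y ∈ G.neighborFinset x, (if y ∈ S then 0 else m) := by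
        rw [Finset.sum_ite, Finset.sum_const_zero, zero_add, Finset.sum_const, nsmul_eq_mul,
          mul_comm, ← Finset.sdiff_eq_filter]
      rw [a2, ← Finset.sum_add_distrib]
      apply Finset.sum_le_sum
      intro y _
      rw [hgS x hx]
      by_cases hy : y ∈ S
      · rw [hgS y hy, if_pos hy, zero_add]
        have : g x - m - (g y - m) = g x - g y := by ring
        rw [this]
      · rw [hgN y hy, if_neg hy, hz y hy]
        have hge : m ≤ g x := hm ▸ hmin x hx
        rw [max_eq_left (by linarith), max_eq_left (by linarith)]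
        linarith
    have e3 := mul_le_mul_of_nonneg_left (hF S hS) hm0
    calc c * ∑ x ∈ S, g x = m * (c * S.card) + c * ∑ x ∈ S.erase x₀, g' x := by rw [e1]; ring
      _ ≤ m * ∑ x ∈ S, ((G.neighborFinset x \ S).card : ℝ) +
        ∑ x ∈ S.erase x₀, ∑ y ∈ G.neighborFinset x, max (g' x - g' y) 0 :=
          add_le_add e3 hih
      _ ≤ _ := e2

/-- sums over ordered adjacent pairs -/
theorem pairs (G : SimpleGraph V) [G.LocallyFinite] (S : Finset V) :
    ∃ P : Finset (V × V), (∀ h : V → V → ℝ, ∑ q ∈ P, h q.1 q.2 = ∑ q ∈ P, h q.2 q.1) ∧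
      ∀ h : V → V → ℝ, (∀ x y, x ∉ S → h x y = 0) →
        ∑ q ∈ P, h q.1 q.2 = ∑ x ∈ S, ∑ y ∈ G.neighborFinset x, h x y := by
  obtain ⟨T, hT⟩ : ∃ T : Finset V, T = S ∪ S.biUnion fun x => G.neighborFinset x := ⟨_, rfl⟩
  refine ⟨(T ×ˢ T).filter fun q => G.Adj q.1 q.2, ?_, ?_⟩
  · intro h
    apply Finset.sum_nbij' (fun q => (q.2, q.1)) (fun q => (q.2, q.1))
    · intro q hq
      simp only [Finset.mem_filter, Finset.mem_product] at hq ⊢
      exact ⟨⟨hq.1.2, hq.1.1⟩, hq.2.symm⟩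
    · intro q hq
      simp only [Finset.mem_filter, Finset.mem_product] at hq ⊢
      exact ⟨⟨hq.1.2, hq.1.1⟩, hq.2.symm⟩
    · intro q _
      rfl
    · intro q _
      rfl
    · intro q _
      rfl
  · intro h hz
    rw [Finset.sum_filter, Finset.sum_product]
    have a1 : ∀ x ∈ T, x ∉ S → (∑ y ∈ T, if G.Adj x y then h x y else 0) = 0 := by
      intro x _ hx
      apply Finset.sum_eq_zero
      intro y _
      rw [hz x y hx, ite_self]
    rw [← Finset.sum_subset (by rw [hT]; exact Finset.subset_union_left) a1]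
    apply Finset.sum_congr rfl
    intro x hx
    rw [← Finset.sum_filter]
    apply Finset.sum_congr ?_ (fun _ _ => rfl)
    ext y
    simp only [Finset.mem_filter, SimpleGraph.mem_neighborFinset]
    constructor
    · exact fun hy => hy.2
    · intro hy
      refine ⟨?_, hy⟩
      rw [hT]
      apply Finset.mem_union_right
      rw [Finset.mem_biUnion]
      exact ⟨x, hx, (G.mem_neighborFinset x y).mpr hy⟩

end CHG_

theorem chg_proof : Stmt_CHG := by
  intro V G _ d η hd hdeg hη0 hη1 hF f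
  obtain ⟨P, hsym, hP⟩ := CHG_.pairs G f.support
  obtain ⟨N, hN⟩ : ∃ N : ℝ, N = ∑ x ∈ f.support, f x ^ 2 := ⟨_, rfl⟩
  have hN0 : 0 ≤ N := by
    rw [hN]
    exact Finset.sum_nonneg fun x _ => sq_nonneg _
  have hz : ∀ x, x ∉ f.support → f x = 0 := fun x hx => Finsupp.notMem_support_iff.mp hx
  -- the sum of squares
  have h1 : ∑ q ∈ P, f q.1 ^ 2 = d * N := by
    have := hP (fun x _ => f x ^ 2) (fun x y hx => by rw [hz x hx]; ring)
    rw [this, hN, Finset.mul_sum]
    apply Finset.sum_congr rfl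
    intro x _
    rw [Finset.sum_const, nsmul_eq_mul, SimpleGraph.card_neighborFinset_eq_degree, hdeg]
  have h2 : ∑ q ∈ P, f q.2 ^ 2 = d * N := by
    rw [← h1]
    exact (hsym (fun x _ => f x ^ 2)).symm
  obtain ⟨Q, hQ⟩ : ∃ Q : ℝ, Q = ∑ q ∈ P, |f q.1| * |f q.2| := ⟨_, rfl⟩
  have hQ0 : 0 ≤ Q := by
    rw [hQ]
    exact Finset.sum_nonneg fun x _ => mul_nonneg (abs_nonneg _) (abs_nonneg _)
  have h3 : ∑ x ∈ f.support, ∑ y ∈ G.neighborFinset x, f x * f y ≤ Q := by
    rw [← hP (fun x y => f x * f y) (fun x y hx => by rw [hz x hx]; ring), hQ]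
    apply Finset.sum_le_sum
    intro q _
    rw [← abs_mul]
    exact le_abs_self _
  have h4 : ∑ q ∈ P, (|f q.1| - |f q.2|) ^ 2 = 2 * (d * N) - 2 * Q := by
    have : ∀ q ∈ P, (|f q.1| - |f q.2|) ^ 2 =
        f q.1 ^ 2 + f q.2 ^ 2 - 2 * (|f q.1| * |f q.2|) := by
      intro q _
      rw [← sq_abs (f q.1), ← sq_abs (f q.2)]
      ring
    rw [Finset.sum_congr rfl this, Finset.sum_sub_distrib, Finset.sum_add_distrib, h1, h2,
      ← Finset.mul_sum, ← hQ]
    ring
  have h5 : ∑ q ∈ P, (|f q.1| + |f q.2|) ^ 2 = 2 * (d * N) + 2 * Q := by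
    have : ∀ q ∈ P, (|f q.1| + |f q.2|) ^ 2 =
        f q.1 ^ 2 + f q.2 ^ 2 + 2 * (|f q.1| * |f q.2|) := by
      intro q _
      rw [← sq_abs (f q.1), ← sq_abs (f q.2)]
      ring
    rw [Finset.sum_congr rfl this, Finset.sum_add_distrib, Finset.sum_add_distrib, h1, h2,
      ← Finset.mul_sum, ← hQ]
    ring
  -- Cauchy-Schwarz
  have h6 : (∑ q ∈ P, |(|f q.1| - |f q.2|)| * (|f q.1| + |f q.2|)) ^ 2 ≤
      (2 * (d * N) - 2 * Q) * (2 * (d * N) + 2 * Q) := by
    have := Finset.sum_mul_sq_le_sq_mul_sq P (fun q => |(|f q.1| - |f q.2|)|)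
      (fun q => |f q.1| + |f q.2|)
    rw [← h4, ← h5]
    simpa only [sq_abs] using this
  have h7 : ∑ q ∈ P, |(|f q.1| - |f q.2|)| * (|f q.1| + |f q.2|) =
      2 * ∑ q ∈ P, max (f q.1 ^ 2 - f q.2 ^ 2) 0 := by
    have e1 : ∀ q ∈ P, |(|f q.1| - |f q.2|)| * (|f q.1| + |f q.2|) =
        max (f q.1 ^ 2 - f q.2 ^ 2) 0 + max (f q.2 ^ 2 - f q.1 ^ 2) 0 := by
      intro q _
      have e2 : |(|f q.1| - |f q.2|)| * (|f q.1| + |f q.2|) = |f q.1 ^ 2 - f q.2 ^ 2| := by
        rw [← abs_of_nonneg (add_nonneg (abs_nonneg (f q.1)) (abs_nonneg (f q.2))), ← abs_mul]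
        congr 1
        rw [← sq_abs (f q.1), ← sq_abs (f q.2)]
        ring
      rw [e2]
      rcases le_total (f q.1 ^ 2) (f q.2 ^ 2) with h | h
      · rw [max_eq_right (by linarith), max_eq_left (by linarith), abs_of_nonpos (by linarith)]
        ring
      · rw [max_eq_left (by linarith), max_eq_right (by linarith), abs_of_nonneg (by linarith)]
        ring
    rw [Finset.sum_congr rfl e1, Finset.sum_add_distrib,
      ← hsym (fun x y => max (f x ^ 2 - f y ^ 2) 0)]
    ring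
  have h8 : η * d * N ≤ ∑ q ∈ P, max (f q.1 ^ 2 - f q.2 ^ 2) 0 := by
    rw [hP (fun x y => max (f x ^ 2 - f y ^ 2) 0) ?_, hN]
    · exact CHG_.layer G (η * d) hF _ f.support (fun x => f x ^ 2) rfl (fun x => sq_nonneg _)
        (fun x hx => by simp only [hz x hx]; ring)
    · intro x y hx
      rw [hz x hx]
      apply max_eq_right
      have := sq_nonneg (f y)
      linarith
  rw [h7] at h6
  have hdN : 0 ≤ (d : ℝ) * N := mul_nonneg (Nat.cast_nonneg d) hN0
  have h9 : Q ^ 2 ≤ ((1 - η ^ 2 / 2) * (d * N)) ^ 2 := by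
    have a1 : 0 ≤ η * (d * N) := mul_nonneg hη0 hdN
    have a2 : (η * (d * N)) ^ 2 ≤ (∑ q ∈ P, max (f q.1 ^ 2 - f q.2 ^ 2) 0) ^ 2 :=
      pow_le_pow_left₀ a1 (by linarith [h8]) 2
    have a3 : 0 ≤ η ^ 4 / 4 * (d * N) ^ 2 := by positivity
    nlinarith [a2, a3, h6]
  have h10 : 0 ≤ (1 - η ^ 2 / 2) * (d * N) := by
    apply mul_nonneg _ hdN
    nlinarith
  have h11 : Q ≤ (1 - η ^ 2 / 2) * (d * N) := by
    exact (pow_le_pow_iff_left₀ hQ0 h10 two_ne_zero).mp h9
  have h12 : ∑ x ∈ f.support, (G.degree x : ℝ) * f x ^ 2 = d * N := by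
    rw [hN, Finset.mul_sum]
    apply Finset.sum_congr rfl
    intro x _
    rw [hdeg]
  rw [h12]
  exact h3.trans h11

end Pool.Agent.PCU
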