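import Pool.Agent.PCU.Stmts

/-!
# Squad PCU, module CON: exponential decay of the connection probabilities for `p ρ d < 1`.
-/

set_option autoImplicit false

namespace Pool.Agent.PCU

open MeasureTheory ProbabilityTheory
open scoped Classical

namespace CON_

/-- the probability that a given trail is open -/
theorem trail_prob (hLNK : Stmt_LNK) {V : Type} [Countable V] (G : SimpleGraph V) (p : ℝ)
    (h : p ∈ Set.Icc (0 : ℝ) 1) {x y : V} (P : G.Walk x y) (hP : P.edges.Nodup) :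
    setBernoulli G.edgeSet ⟨p, h⟩ {ω | ∀ e ∈ P.edges, e ∈ ω} = ENNReal.ofReal (p ^ P.length) := by
  have hE : ((P.edges.toFinset : Finset (Sym2 V)) : Set (Sym2 V)) ⊆ G.edgeSet := by
    intro e he
    rw [Finset.mem_coe, List.mem_toFinset] at he
    exact P.edges_subset_edgeSet he
  have h1 := hLNK V G.edgeSet P.edges.toFinset (fun F => P.edges.toFinset ⊆ F) p h hE
  rw [Pr_open p (Finset.Subset.refl _), List.toFinset_card_of_nodup hP,
    SimpleGraph.Walk.length_edges] at h1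
  rw [← h1]
  congr 1
  ext ω
  simp only [Set.mem_ofPred_eq]
  constructor
  · intro hh e he
    rw [Finset.mem_filter]
    exact ⟨he, hh e (List.mem_toFinset.1 he)⟩
  · intro hh e he
    exact (Finset.mem_filter.1 (hh (List.mem_toFinset.2 he))).2

/-- a connection inside `G` gives an open trail of `G` -/
theorem exists_trail {V : Type} (G : SimpleGraph V) {ω : Set (Sym2 V)} (hω : ω ⊆ G.edgeSet)
    {x y : V} (h : (SimpleGraph.fromEdgeSet ω).Reachable x y) :
    ∃ P : G.Walk x y, P.edges.Nodup ∧ ∀ e ∈ P.edges, e ∈ ω := by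
  obtain ⟨w⟩ := h
  have hmem : ∀ e ∈ (w.toPath : (SimpleGraph.fromEdgeSet ω).Walk x y).edges, e ∈ ω := by
    intro e he
    have h1 := SimpleGraph.Walk.edges_subset_edgeSet _ he
    rw [SimpleGraph.edgeSet_fromEdgeSet] at h1
    exact h1.1
  refine ⟨(w.toPath : (SimpleGraph.fromEdgeSet ω).Walk x y).transfer G
    (fun e he => hω (hmem e he)), ?_, ?_⟩
  · rw [SimpleGraph.Walk.edges_transfer]
    exact w.toPath.2.isTrail.edges_nodup
  · intro e he
    rw [SimpleGraph.Walk.edges_transfer] at he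
    exact hmem e he

/-- the walks of a given length -/
theorem level (hNWK : Stmt_NWK) (hWLK : Stmt_WLK) (hLNK : Stmt_LNK) {V : Type} [Countable V]
    (G : SimpleGraph V) [G.LocallyFinite] (d : ℕ) (r p : ℝ) (h : p ∈ Set.Icc (0 : ℝ) 1)
    (hr : 0 ≤ r) (hR : RayleighLE G r) (hd : ∀ x, G.degree x = d) (x y : V) (m : ℕ) :
    setBernoulli G.edgeSet ⟨p, h⟩
      {ω | ∃ P : G.Walk x y, P.length = m ∧ P.edges.Nodup ∧ ∀ e ∈ P.edges, e ∈ ω} ≤
      ENNReal.ofReal ((p * (r * d)) ^ m) := by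
  obtain ⟨W, hW, hWm⟩ := (hNWK V G).2.2.2 m x y
  have hsub : {ω : Set (Sym2 V) | ∃ P : G.Walk x y, P.length = m ∧ P.edges.Nodup ∧
      ∀ e ∈ P.edges, e ∈ ω} ⊆
      ⋃ P ∈ W.filter fun P => P.edges.Nodup, {ω | ∀ e ∈ P.edges, e ∈ ω} := by
    rintro ω ⟨P, hP1, hP2, hP3⟩
    simp only [Set.mem_iUnion]
    exact ⟨P, Finset.mem_filter.2 ⟨(hWm P).2 hP1, hP2⟩, hP3⟩
  refine (measure_mono hsub).trans ?_
  refine (measure_biUnion_finset_le _ _).trans ?_
  have h1 : ∀ P ∈ W.filter fun P => P.edges.Nodup,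
      setBernoulli G.edgeSet ⟨p, h⟩ {ω | ∀ e ∈ P.edges, e ∈ ω} = ENNReal.ofReal (p ^ m) := by
    intro P hP
    rw [Finset.mem_filter] at hP
    rw [trail_prob hLNK G p h P hP.2, (hWm P).1 hP.1]
  rw [Finset.sum_congr rfl h1, Finset.sum_const, nsmul_eq_mul]
  have h2 : (((W.filter fun P => P.edges.Nodup).card : ℕ) : ENNReal) ≤
      ENNReal.ofReal ((r * d) ^ m) := by
    have h3 : ((W.filter fun P => P.edges.Nodup).card : ℝ) ≤ (r * d) ^ m := by
      refine le_trans ?_ ((hWLK V G d r hr hR hd).2 m x y)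
      rw [← hW]
      exact_mod_cast Finset.card_filter_le _ _
    rw [← ENNReal.ofReal_natCast]
    exact ENNReal.ofReal_le_ofReal h3
  refine (mul_le_mul_left h2 _).trans ?_
  rw [← ENNReal.ofReal_mul (by positivity)]
  refine le_of_eq ?_
  congr 1
  rw [mul_pow p, mul_comm]

end CON_

open CON_ in
theorem con_proof (hNWK : Stmt_NWK) (hWLK : Stmt_WLK) (hLNK : Stmt_LNK) : Stmt_CON := by
  intro V _ G _ d r p h hr hR hd hq ε hε
  have hp : 0 ≤ p := h.1
  have hq0 : 0 ≤ p * (r * d) := by positivity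
  have hlim : Filter.Tendsto (fun n : ℕ => (p * (r * d)) ^ n * (1 - p * (r * d))⁻¹)
      Filter.atTop (nhds 0) := by
    have h1 := (tendsto_pow_atTop_nhds_zero_of_lt_one hq0 hq).mul_const
      ((1 - p * (r * d))⁻¹)
    rwa [zero_mul] at h1
  obtain ⟨n, hn⟩ := (hlim.eventually_le_const hε).exists
  refine ⟨n, fun x y hxy hdist => ?_⟩
  have hsub : {ω : Set (Sym2 V) | (SimpleGraph.fromEdgeSet ω).Reachable x y} ⊆
      {ω | ¬ ω ⊆ G.edgeSet} ∪ ⋃ k : ℕ, {ω | ∃ P : G.Walk x y, P.length = n + k ∧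
        P.edges.Nodup ∧ ∀ e ∈ P.edges, e ∈ ω} := by
    intro ω hω
    by_cases h1 : ω ⊆ G.edgeSet
    · right
      obtain ⟨P, hP1, hP2⟩ := exists_trail G h1 hω
      have h2 : n ≤ P.length := hdist.trans (SimpleGraph.dist_le P)
      rw [Set.mem_iUnion]
      exact ⟨P.length - n, P, by omega, hP1, hP2⟩
    · left
      exact h1
  have hnull : setBernoulli G.edgeSet ⟨p, h⟩ {ω | ¬ ω ⊆ G.edgeSet} = 0 :=
    ae_iff.1 (setBernoulli_ae_subset)
  refine (measure_mono hsub).trans ((measure_union_le _ _).trans ?_)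
  rw [hnull, zero_add]
  refine (measure_iUnion_le _).trans ?_
  refine (ENNReal.tsum_le_tsum fun k =>
    level hNWK hWLK hLNK G d r p h hr hR hd x y (n + k)).trans ?_
  have hsum : Summable fun k : ℕ => (p * (r * d)) ^ (n + k) := by
    have h1 := (summable_geometric_of_lt_one hq0 hq).mul_left ((p * (r * d)) ^ n)
    refine h1.congr fun k => ?_
    rw [pow_add]
  rw [← ENNReal.ofReal_tsum_of_nonneg (fun k => pow_nonneg hq0 _) hsum]
  refine ENNReal.ofReal_le_ofReal ?_
  refine le_trans (le_of_eq ?_) hn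
  rw [← tsum_geometric_of_lt_one hq0 hq, ← tsum_mul_left]
  exact tsum_congr fun k => pow_add _ _ _

end Pool.Agent.PCU
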