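import Pool.Agent.PCU.Stmts

/-!
# Module DCP of squad PCU: pivotal edges (Duminil-Copin and Tassion)
-/

set_option autoImplicit false

namespace Pool.Agent.PCU

open MeasureTheory ProbabilityTheory
open scoped Classical

namespace DCP_

theorem Pr_eq {α : Type} (p : ℝ) (E : Finset α) (A : Finset α → Prop)
    (d : ∀ ω, Decidable (A ω)) :
    Pr p E A = Ex p E (fun ω => @ite ℝ (A ω) (d ω) 1 0) := by
  unfold Pr
  refine Ex_congr p _ fun ω _ => ?_
  by_cases h : A ω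
  · rw [if_pos h, if_pos h]
  · rw [if_neg h, if_neg h]

theorem Pr_local' {α : Type} [dec : DecidableEq α] (p : ℝ) {E₁ E : Finset α} (h : E₁ ⊆ E)
    (A : Finset α → Prop) : Pr p E (fun ω => A (ω ∩ E₁)) = Pr p E₁ A := by
  obtain rfl : dec = (fun a b => Classical.propDecidable (a = b)) := Subsingleton.elim _ _
  exact Pr_local p h A

theorem Pr_indep' {α : Type} [dec : DecidableEq α] (p : ℝ) {E₁ E₂ E : Finset α} (h₁ : E₁ ⊆ E)
    (h₂ : E₂ ⊆ E) (hd : Disjoint E₁ E₂) (A B : Finset α → Prop) :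
    Pr p E (fun ω => A (ω ∩ E₁) ∧ B (ω ∩ E₂)) = Pr p E₁ A * Pr p E₂ B := by
  obtain rfl : dec = (fun a b => Classical.propDecidable (a = b)) := Subsingleton.elim _ _
  exact Pr_indep p h₁ h₂ hd A B

variable {V : Type}

theorem Rc_induct {ω : Finset (Sym2 V)} {P : V → Prop} {x y : V} (h : Rc ω x y) (hx : P x)
    (hs : ∀ a b, P a → s(a, b) ∈ ω → P b) : P y := by
  obtain ⟨w⟩ := h
  induction w with
  | nil => exact hx
  | cons hadj _ ih =>
    refine ih (hs _ _ hx ?_)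
    rw [SimpleGraph.fromEdgeSet_adj] at hadj
    exact Finset.mem_coe.1 hadj.1

/-- the set of the vertices of `Λ` which are not connected to the complement of `Λ` -/
noncomputable def Ss (Λ : Finset V) (ω : Finset (Sym2 V)) : Finset V := Λ.filter fun x => ¬ Hit Λ x ω

theorem mem_Ss {Λ : Finset V} {ω : Finset (Sym2 V)} {x : V} :
    x ∈ Ss Λ ω ↔ x ∈ Λ ∧ ¬ Hit Λ x ω := by
  unfold Ss
  rw [Finset.mem_filter]

theorem Hit_mono {Λ : Finset V} {ω ω' : Finset (Sym2 V)} {x : V} (h : ω ⊆ ω') (hh : Hit Λ x ω) :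
    Hit Λ x ω' := by
  obtain ⟨y, hy, hr⟩ := hh
  exact ⟨y, hy, hr.mono h⟩

theorem Hit_of {Λ : Finset V} {ω : Finset (Sym2 V)} {x y : V} (h : Rc ω x y)
    (hy : y ∈ Λ → Hit Λ y ω) : Hit Λ x ω := by
  by_cases hl : y ∈ Λ
  · obtain ⟨z, hz, hr⟩ := hy hl
    exact ⟨z, hz, h.trans hr⟩
  · exact ⟨y, hl, h⟩

/-- the event `S(ω) = S` does not depend on the edges inside `S` -/
theorem Ss_local (G : SimpleGraph V) [G.LocallyFinite] (Λ S : Finset V)
    (ω : Finset (Sym2 V)) (hω : ω ⊆ ET G Λ) :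
    Ss Λ ω = S ↔ Ss Λ (ω ∩ (ET G Λ \ EI G S)) = S := by
  have hmem : ∀ e, e ∈ ω ∩ (ET G Λ \ EI G S) ↔ e ∈ ω ∧ e ∉ EI G S := by
    intro e
    rw [Finset.mem_inter, Finset.mem_sdiff]
    exact ⟨fun h => ⟨h.1, h.2.2⟩, fun h => ⟨h.1, hω h.1, h.2⟩⟩
  have hsub : ω ∩ (ET G Λ \ EI G S) ⊆ ω := Finset.inter_subset_left
  constructor
  · intro h
    ext x
    rw [mem_Ss]
    constructor
    · rintro ⟨hx, hn⟩
      by_contra hxS
      apply hn
      have hxH : Hit Λ x ω := by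
        by_contra hc
        exact hxS (h ▸ mem_Ss.2 ⟨hx, hc⟩)
      obtain ⟨y, hy, hr⟩ := hxH
      refine ⟨y, hy, Rc.symm ?_⟩
      refine Rc_induct (P := fun z => Rc (ω ∩ (ET G Λ \ EI G S)) y z) hr.symm (Rc.refl _ y) ?_
      intro a b ha hab
      refine ha.trans (Rc.edge ((hmem _).2 ⟨hab, ?_⟩))
      intro hEI
      have hbS : b ∈ S := (mem_EI.1 hEI).2.2
      have hb' : b ∈ Ss Λ ω := by rw [h]; exact hbS
      exact (mem_Ss.1 hb').2 ⟨y, hy, ((ha.mono hsub).trans (Rc.edge hab)).symm⟩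
    · intro hxS
      have hx' : x ∈ Ss Λ ω := by rw [h]; exact hxS
      exact ⟨(mem_Ss.1 hx').1, fun hc => (mem_Ss.1 hx').2 (Hit_mono hsub hc)⟩
  · intro h
    ext x
    rw [mem_Ss]
    constructor
    · rintro ⟨hx, hn⟩
      rw [← h, mem_Ss]
      exact ⟨hx, fun hc => hn (Hit_mono hsub hc)⟩
    · intro hxS
      have hx' : x ∈ Ss Λ (ω ∩ (ET G Λ \ EI G S)) := by rw [h]; exact hxS
      refine ⟨(mem_Ss.1 hx').1, ?_⟩
      rintro ⟨y, hy, hr⟩
      have hyS : y ∈ S := by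
        refine Rc_induct (P := fun z => z ∈ S) hr hxS ?_
        intro a b ha hab
        by_cases hEI : s(a, b) ∈ EI G S
        · exact (mem_EI.1 hEI).2.2
        · have hab' := (hmem _).2 ⟨hab, hEI⟩
          have ha' : a ∈ Ss Λ (ω ∩ (ET G Λ \ EI G S)) := by rw [h]; exact ha
          have hb : ¬ (b ∈ Λ → Hit Λ b (ω ∩ (ET G Λ \ EI G S))) := fun hc =>
            (mem_Ss.1 ha').2 (Hit_of (Rc.edge hab') hc)
          push Not at hb
          rw [← h]
          exact mem_Ss.2 hb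
      have hy' : y ∈ Ss Λ (ω ∩ (ET G Λ \ EI G S)) := by rw [h]; exact hyS
      exact hy (mem_Ss.1 hy').1

/-- independence -/
theorem indep (G : SimpleGraph V) [G.LocallyFinite] (Λ S : Finset V) (hS : S ⊆ Λ) (o x : V)
    (p : ℝ) :
    tau G S p o x * Pr p (ET G Λ) (fun ω => Ss Λ ω = S) =
      Pr p (ET G Λ) (fun ω => Rc (ω ∩ EI G S) o x ∧ Ss Λ ω = S) := by
  have h1 := Pr_indep' p (E₁ := EI G S) (E₂ := ET G Λ \ EI G S) (E := ET G Λ)
    (EI_subset_ET hS) Finset.sdiff_subset Finset.disjoint_sdiff (fun ω => Rc ω o x)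
    (fun ω => Ss Λ ω = S)
  have h2 : Pr p (ET G Λ) (fun ω => Rc (ω ∩ EI G S) o x ∧ Ss Λ ω = S) =
      Pr p (ET G Λ) (fun ω => Rc (ω ∩ EI G S) o x ∧ Ss Λ (ω ∩ (ET G Λ \ EI G S)) = S) := by
    refine Pr_congr p _ fun ω hω => ?_
    rw [Ss_local G Λ S ω hω]
  have h3 : Pr p (ET G Λ) (fun ω => Ss Λ ω = S) =
      Pr p (ET G Λ \ EI G S) (fun ω => Ss Λ ω = S) := by
    have h4 := Pr_local' p (E₁ := ET G Λ \ EI G S) (E := ET G Λ) Finset.sdiff_subset
      (fun ω => Ss Λ ω = S)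
    refine Eq.trans ?_ h4
    refine Pr_congr p _ fun ω hω => ?_
    exact Ss_local G Λ S ω hω
  rw [h2, h3]
  exact h1.symm

/-- an event that does not depend on `e` -/
theorem closed_edge {α : Type} [DecidableEq α] (p : ℝ) (E : Finset α) (e : α) (he : e ∈ E)
    (B : Finset α → Prop) :
    Pr p E (fun ω => e ∉ ω ∧ B (ω.erase e)) = (1 - p) * Pr p E (fun ω => B (ω.erase e)) := by
  have hd : Disjoint ({e} : Finset α) (E.erase e) := by
    rw [Finset.disjoint_singleton_left]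
    exact Finset.notMem_erase e E
  have hs : ({e} : Finset α) ⊆ E := Finset.singleton_subset_iff.2 he
  have key : ∀ ω ⊆ E, ω ∩ E.erase e = ω.erase e := by
    intro ω hω
    ext a
    rw [Finset.mem_inter, Finset.mem_erase, Finset.mem_erase]
    exact ⟨fun h => ⟨h.2.1, h.1⟩, fun h => ⟨h.2, h.1, hω h.2⟩⟩
  have h1 := Pr_indep' p (E₁ := {e}) (E₂ := E.erase e) (E := E) hs (Finset.erase_subset e E) hd
    (fun ω => e ∉ ω) B
  have h2 : Pr p E (fun ω => e ∉ ω ∧ B (ω.erase e)) =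
      Pr p E (fun ω => e ∉ ω ∩ {e} ∧ B (ω ∩ E.erase e)) := by
    refine Pr_congr p _ fun ω hω => ?_
    rw [key ω hω, Finset.mem_inter, Finset.mem_singleton]
    constructor
    · rintro ⟨h, h'⟩
      exact ⟨fun hc => h hc.1, h'⟩
    · rintro ⟨h, h'⟩
      exact ⟨fun hc => h ⟨hc, rfl⟩, h'⟩
  have h3 : Pr p E (fun ω => B (ω.erase e)) = Pr p (E.erase e) B := by
    rw [← Pr_local' p (Finset.erase_subset e E) B]
    refine Pr_congr p _ fun ω hω => ?_
    rw [key ω hω]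
  have h4 : Pr p ({e} : Finset α) (fun ω => e ∉ ω) = 1 - p := by
    have h5 := Pr_open p (D := {e}) (E := {e}) (Finset.Subset.refl _)
    rw [Finset.card_singleton, pow_one] at h5
    have h6 : Pr p ({e} : Finset α) (fun ω => e ∉ ω) + Pr p ({e} : Finset α) (fun ω => {e} ⊆ ω) =
        1 := by
      unfold Pr
      rw [← Ex_add]
      refine Eq.trans ?_ (Ex_const p ({e} : Finset α) 1)
      refine Ex_congr p _ fun ω _ => ?_
      by_cases h : e ∈ ω
      · simp [h]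
      · simp [h]
    linarith
  rw [h2, h3, ← h4]
  exact h1

/-- the deterministic inequality -/
theorem count (G : SimpleGraph V) [G.LocallyFinite] (Λ : Finset V) (o : V)
    (ω : Finset (Sym2 V)) :
    (∑ S ∈ Λ.powerset.filter (fun S => o ∈ S), ∑ x ∈ S, ((G.neighborFinset x \ S).card : ℝ) *
      (if Rc (ω ∩ EI G S) o x ∧ Ss Λ ω = S then (1 : ℝ) else 0)) ≤
    ∑ e ∈ ET G Λ, if e ∉ ω ∧ (Hit Λ o (insert e (ω.erase e)) ∧ ¬ Hit Λ o (ω.erase e)) then (1 : ℝ) else 0 := by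
  have hnn : 0 ≤ ∑ e ∈ ET G Λ,
      if e ∉ ω ∧ (Hit Λ o (insert e (ω.erase e)) ∧ ¬ Hit Λ o (ω.erase e)) then (1 : ℝ) else 0 :=
    Finset.sum_nonneg fun e _ => by split_ifs <;> norm_num
  by_cases ho : o ∈ Ss Λ ω
  · have h1 : (∑ S ∈ Λ.powerset.filter (fun S => o ∈ S), ∑ x ∈ S,
        ((G.neighborFinset x \ S).card : ℝ) *
        (if Rc (ω ∩ EI G S) o x ∧ Ss Λ ω = S then (1 : ℝ) else 0)) =
        ∑ x ∈ Ss Λ ω, ((G.neighborFinset x \ Ss Λ ω).card : ℝ) *
          (if Rc (ω ∩ EI G (Ss Λ ω)) o x then (1 : ℝ) else 0) := by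
      rw [Finset.sum_eq_single (Ss Λ ω)]
      · refine Finset.sum_congr rfl fun x _ => ?_
        simp
      · intro S _ hS
        refine Finset.sum_eq_zero fun x _ => ?_
        rw [if_neg (fun h => hS h.2.symm), mul_zero]
      · intro h
        exact absurd (Finset.mem_filter.2 ⟨Finset.mem_powerset.2 (Finset.filter_subset _ _), ho⟩) h
    rw [h1]
    obtain ⟨hoL, hoH⟩ := mem_Ss.1 ho
    -- the pairs
    let T : Finset (V × V) := ((Ss Λ ω).filter fun x => Rc (ω ∩ EI G (Ss Λ ω)) o x).biUnion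
      fun x => (G.neighborFinset x \ Ss Λ ω).image fun y => (x, y)
    have hT : ∀ a b, (a, b) ∈ T ↔ (a ∈ Ss Λ ω ∧ Rc (ω ∩ EI G (Ss Λ ω)) o a) ∧
        G.Adj a b ∧ b ∉ Ss Λ ω := by
      intro a b
      simp only [T, Finset.mem_biUnion, Finset.mem_filter, Finset.mem_image, Finset.mem_sdiff,
        SimpleGraph.mem_neighborFinset, Prod.mk.injEq]
      constructor
      · rintro ⟨x, hx, y, hy, rfl, rfl⟩
        exact ⟨hx, hy⟩
      · rintro ⟨hx, hy⟩
        exact ⟨a, hx, b, hy, rfl, rfl⟩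
    have hcard : ∑ x ∈ Ss Λ ω, ((G.neighborFinset x \ Ss Λ ω).card : ℝ) *
        (if Rc (ω ∩ EI G (Ss Λ ω)) o x then (1 : ℝ) else 0) = (T.card : ℝ) := by
      have h2 : T.card = ∑ x ∈ (Ss Λ ω).filter fun x => Rc (ω ∩ EI G (Ss Λ ω)) o x,
          (G.neighborFinset x \ Ss Λ ω).card := by
        rw [Finset.card_biUnion]
        · refine Finset.sum_congr rfl fun x _ => ?_
          exact Finset.card_image_of_injective _ (fun a b h => (Prod.mk.inj h).2)
        · intro a _ b _ hab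
          rw [Function.onFun, Finset.disjoint_left]
          intro z hz hz'
          obtain ⟨u, _, hu⟩ := Finset.mem_image.1 hz
          obtain ⟨v, _, hv⟩ := Finset.mem_image.1 hz'
          rw [← hu] at hv
          exact hab (Prod.mk.inj hv).1.symm
      rw [h2, Nat.cast_sum, Finset.sum_filter]
      refine Finset.sum_congr rfl fun x _ => ?_
      split_ifs <;> simp
    rw [hcard]
    have hinj : Set.InjOn (fun z : V × V => s(z.1, z.2)) (T : Set (V × V)) := by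
      rintro ⟨a, b⟩ hab ⟨c, d⟩ hcd h
      have h3 := (hT a b).1 (Finset.mem_coe.1 hab)
      have h4 := (hT c d).1 (Finset.mem_coe.1 hcd)
      simp only [Sym2.eq_iff] at h
      rcases h with ⟨rfl, rfl⟩ | ⟨rfl, rfl⟩
      · rfl
      · exact absurd h3.1.1 h4.2.2
    rw [← Finset.card_image_of_injOn hinj]
    have hsub : T.image (fun z : V × V => s(z.1, z.2)) ⊆ (ET G Λ).filter
        (fun e => e ∉ ω ∧ (Hit Λ o (insert e (ω.erase e)) ∧ ¬ Hit Λ o (ω.erase e))) := by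
      intro e he
      obtain ⟨⟨a, b⟩, hab, rfl⟩ := Finset.mem_image.1 he
      obtain ⟨⟨ha, hra⟩, hadj, hb⟩ := (hT a b).1 hab
      obtain ⟨haL, haH⟩ := mem_Ss.1 ha
      have hra' : Rc ω o a := hra.mono Finset.inter_subset_left
      have hbH : b ∈ Λ → Hit Λ b ω := by
        intro hbL
        by_contra hc
        exact hb (mem_Ss.2 ⟨hbL, hc⟩)
      have hnot : s(a, b) ∉ ω := fun hc => haH (Hit_of (Rc.edge hc) hbH)
      rw [Finset.mem_filter]
      refine ⟨mem_ET.2 ⟨hadj, Or.inl haL⟩, hnot, ?_, ?_⟩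
      · simp only [Finset.erase_eq_of_notMem hnot]
        have hs : ω ⊆ insert s(a, b) ω := Finset.subset_insert _ _
        refine Hit_of (y := b) ((hra'.mono hs).trans (Rc.edge (Finset.mem_insert_self _ _))) ?_
        intro hbL
        exact Hit_mono hs (hbH hbL)
      · simp only [Finset.erase_eq_of_notMem hnot]
        exact hoH
    have h5 := Finset.card_le_card hsub
    rw [← Finset.sum_filter, Finset.sum_const, nsmul_eq_mul, mul_one]
    exact_mod_cast h5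
  · refine le_trans (le_of_eq ?_) hnn
    refine Finset.sum_eq_zero fun S hS => Finset.sum_eq_zero fun x _ => ?_
    rw [if_neg, mul_zero]
    rintro ⟨_, h⟩
    rw [h] at ho
    exact ho (Finset.mem_filter.1 hS).2

end DCP_

open DCP_ in
theorem dcp_proof : Stmt_DCP := by
  intro V G _ Λ o p ho hp0 hp1 hphi
  have hp0' := hp0.le
  have hp1' := hp1.le
  -- the left side
  have h1 : 1 - Pr p (ET G Λ) (Hit Λ o) =
      ∑ S ∈ Λ.powerset.filter (fun S => o ∈ S), Pr p (ET G Λ) (fun ω => Ss Λ ω = S) := by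
    unfold Pr
    rw [← Ex_sum]
    have hc : Ex p (ET G Λ) (fun _ => (1 : ℝ)) - Ex p (ET G Λ) (fun ω => if Hit Λ o ω then 1 else 0) =
        1 - Ex p (ET G Λ) (fun ω => if Hit Λ o ω then 1 else 0) := by
      rw [Ex_const]
    rw [← hc, ← Ex_sub]
    refine Ex_congr p _ fun ω _ => ?_
    by_cases hH : Hit Λ o ω
    · rw [if_pos hH, sub_self]
      symm
      refine Finset.sum_eq_zero fun S hS => ?_
      rw [if_neg]
      rintro rfl
      exact (mem_Ss.1 (Finset.mem_filter.1 hS).2).2 hH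
    · rw [if_neg hH, sub_zero, Finset.sum_eq_single (Ss Λ ω)]
      · simp
      · intro S _ hS
        rw [if_neg (fun h => hS h.symm)]
      · intro h
        exact (h (Finset.mem_filter.2 ⟨Finset.mem_powerset.2 (Finset.filter_subset _ _),
          mem_Ss.2 ⟨ho, hH⟩⟩)).elim
  -- the right side
  have h2 : ∀ e ∈ ET G Λ, (1 - p) * Pr p (ET G Λ) (fun ω => Hit Λ o (insert e ω) ∧
      ¬ Hit Λ o (ω.erase e)) = Pr p (ET G Λ) (fun ω => e ∉ ω ∧
        (Hit Λ o (insert e (ω.erase e)) ∧ ¬ Hit Λ o (ω.erase e))) := by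
    intro e he
    have h3 := closed_edge p (ET G Λ) e he (fun ω => Hit Λ o (insert e ω) ∧ ¬ Hit Λ o ω)
    refine Eq.trans ?_ h3.symm
    congr 1
    refine Pr_congr p _ fun ω _ => ?_
    have h4 : insert e (ω.erase e) = insert e ω := by
      ext a
      rw [Finset.mem_insert, Finset.mem_insert, Finset.mem_erase]
      tauto
    simp only [h4]
  have h3 : p * (1 - p) * ∑ e ∈ ET G Λ, Pr p (ET G Λ) (fun ω => Hit Λ o (insert e ω) ∧
      ¬ Hit Λ o (ω.erase e)) = p * Ex p (ET G Λ) (fun ω => ∑ e ∈ ET G Λ,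
        if e ∉ ω ∧ (Hit Λ o (insert e (ω.erase e)) ∧ ¬ Hit Λ o (ω.erase e)) then (1 : ℝ)
          else 0) := by
    rw [Ex_sum, mul_assoc, Finset.mul_sum]
    congr 1
    refine Finset.sum_congr rfl fun e he => ?_
    rw [h2 e he]
    exact Pr_eq _ _ _ _
  rw [h1, h3]
  -- the middle
  have h4 : ∀ S ∈ Λ.powerset.filter (fun S => o ∈ S), Pr p (ET G Λ) (fun ω => Ss Λ ω = S) ≤
      p * ∑ x ∈ S, ((G.neighborFinset x \ S).card : ℝ) *
        Pr p (ET G Λ) (fun ω => Rc (ω ∩ EI G S) o x ∧ Ss Λ ω = S) := by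
    intro S hS
    obtain ⟨hS1, hS2⟩ := Finset.mem_filter.1 hS
    have hS1' := Finset.mem_powerset.1 hS1
    have h5 : phi G S p o * Pr p (ET G Λ) (fun ω => Ss Λ ω = S) =
        p * ∑ x ∈ S, ((G.neighborFinset x \ S).card : ℝ) *
        Pr p (ET G Λ) (fun ω => Rc (ω ∩ EI G S) o x ∧ Ss Λ ω = S) := by
      unfold phi
      rw [mul_assoc, Finset.sum_mul]
      congr 1
      refine Finset.sum_congr rfl fun x _ => ?_
      rw [mul_assoc, indep G Λ S hS1' o x p]
    rw [← h5]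
    have h6 := Pr_nonneg hp0' hp1' (ET G Λ) (fun ω => Ss Λ ω = S)
    have h7 := mul_le_mul_of_nonneg_right (hphi S hS1' hS2) h6
    rwa [one_mul] at h7
  refine le_trans (Finset.sum_le_sum h4) ?_
  rw [← Finset.mul_sum]
  refine mul_le_mul_of_nonneg_left ?_ hp0'
  have h8 : ∑ S ∈ Λ.powerset.filter (fun S => o ∈ S), ∑ x ∈ S,
      ((G.neighborFinset x \ S).card : ℝ) *
        Pr p (ET G Λ) (fun ω => Rc (ω ∩ EI G S) o x ∧ Ss Λ ω = S) =
      Ex p (ET G Λ) (fun ω => ∑ S ∈ Λ.powerset.filter (fun S => o ∈ S), ∑ x ∈ S,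
        ((G.neighborFinset x \ S).card : ℝ) *
      (if Rc (ω ∩ EI G S) o x ∧ Ss Λ ω = S then (1 : ℝ) else 0)) := by
    rw [Ex_sum]
    refine Finset.sum_congr rfl fun S _ => ?_
    rw [Ex_sum]
    refine Finset.sum_congr rfl fun x _ => ?_
    rw [Ex_mul_left]
    congr 1
    exact Pr_eq _ _ _ _
  rw [h8]
  exact Ex_mono hp0' hp1' _ fun ω _ => count G Λ o ω

end Pool.Agent.PCU
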