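import Pool.Agent.PCU.Stmts

/-!
# Squad PCU, module DCT: the differential inequality of Duminil-Copin and Tassion.
-/

set_option autoImplicit false

namespace Pool.Agent.PCU

open MeasureTheory ProbabilityTheory
open scoped Classical

/-- the event `Hit` is increasing -/
theorem DCT_hit_mono {V : Type} (Λ : Finset V) (o : V) {ω ω' : Finset (Sym2 V)} (h : ω ⊆ ω')
    (h' : Hit Λ o ω) : Hit Λ o ω' := by
  obtain ⟨y, hy, hR⟩ := h'
  exact ⟨y, hy, hR.mono h⟩

theorem dct_proof (hRUS : Stmt_RUS) (hDCP : Stmt_DCP) : Stmt_DCT := by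
  intro V G _ Λ o p₀ p₁ ho h0 h01 h1 hphi
  set E := ET G Λ with hE
  set f : ℝ → ℝ := fun q => Pr q E (Hit Λ o) with hf
  set D : ℝ → ℝ := fun q =>
    ∑ e ∈ E, Pr q E fun ω => Hit Λ o (insert e ω) ∧ ¬ Hit Λ o (ω.erase e) with hD
  have hder : ∀ q : ℝ, HasDerivAt f (D q) q := by
    intro q
    have h2 := hRUS (Sym2 V) E (Hit Λ o) q fun ω ω' h _ h' => DCT_hit_mono Λ o h h'
    refine h2.congr_deriv ?_
    rw [hD]
    refine Finset.sum_congr rfl fun e _ => ?_
    refine Pr_congr q E fun ω _ => ?_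
    refine and_congr ?_ (not_congr ?_)
    · exact iff_of_eq (congrArg (Hit Λ o) (by ext x; simp))
    · exact iff_of_eq (congrArg (Hit Λ o) (by ext x; simp))
  have hineq : ∀ q, p₀ ≤ q → q ≤ p₁ → 1 - f q ≤ q * (1 - q) * D q := fun q hq0 hq1 =>
    hDCP V G Λ o q ho (by linarith) (by linarith) (hphi q hq0 hq1)
  -- the auxiliary function
  set g : ℝ → ℝ := fun q => (1 - f q) * (q / (1 - q)) with hg
  have hgder : ∀ q : ℝ, 0 < q → q < 1 →
      HasDerivAt g (-(D q) * (q / (1 - q)) + (1 - f q) * (1 / (1 - q) ^ 2)) q := by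
    intro q hq0 hq1
    have hne : (1 - q) ≠ 0 := by linarith
    have h2 : HasDerivAt (fun x : ℝ => 1 - f x) (-(D q)) q := (hder q).const_sub 1
    have h3 : HasDerivAt (fun x : ℝ => x / (1 - x)) (1 / (1 - q) ^ 2) q := by
      have h4 : HasDerivAt (fun x : ℝ => 1 - x) (-1) q := by
        simpa using (hasDerivAt_id q).const_sub 1
      have h5 := (hasDerivAt_id q).div h4 hne
      refine h5.congr_deriv ?_
      simp only [id]
      congr 1
      ring
    exact h2.mul h3
  have hanti : AntitoneOn g (Set.Icc p₀ p₁) := by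
    refine antitoneOn_of_deriv_nonpos (convex_Icc p₀ p₁) ?_ ?_ ?_
    · intro q hq
      exact (hgder q (by linarith [hq.1]) (by linarith [hq.2])).continuousAt.continuousWithinAt
    · intro q hq
      rw [interior_Icc] at hq
      exact (hgder q (by linarith [hq.1]) (by linarith [hq.2])).differentiableAt.differentiableWithinAt
    · intro q hq
      rw [interior_Icc] at hq
      have hq0 : 0 < q := by linarith [hq.1]
      have hq1 : q < 1 := by linarith [hq.2]
      rw [(hgder q hq0 hq1).deriv]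
      have h2 := hineq q hq.1.le hq.2.le
      have h3 : 0 < 1 - q := by linarith
      have h4 : (1 - f q) * (1 / (1 - q) ^ 2) ≤ q * (1 - q) * D q * (1 / (1 - q) ^ 2) :=
        mul_le_mul_of_nonneg_right h2 (by positivity)
      have h5 : q * (1 - q) * D q * (1 / (1 - q) ^ 2) = D q * (q / (1 - q)) := by
        field_simp
      linarith
  have hle : g p₁ ≤ g p₀ := hanti (Set.left_mem_Icc.2 h01) (Set.right_mem_Icc.2 h01) h01
  have hf0 : 0 ≤ f p₀ := Pr_nonneg h0.le (by linarith) E _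
  have ha : 0 < 1 - p₀ := by linarith
  have hb : 0 < 1 - p₁ := by linarith
  have hc : 0 < p₁ := by linarith
  have hg0 : g p₀ ≤ p₀ / (1 - p₀) := by
    have h2 : (1 - f p₀) * (p₀ / (1 - p₀)) ≤ 1 * (p₀ / (1 - p₀)) :=
      mul_le_mul_of_nonneg_right (by linarith) (by positivity)
    simpa using h2
  have h6 : (1 - f p₁) * (p₁ / (1 - p₁)) ≤ p₀ / (1 - p₀) := hle.trans hg0
  have h7 : (1 - f p₁) * p₁ * (1 - p₀) ≤ p₀ * (1 - p₁) := by
    rw [← mul_div_assoc, div_le_div_iff₀ hb ha] at h6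
    exact h6
  show (p₁ - p₀) / (p₁ * (1 - p₀)) ≤ f p₁
  rw [div_le_iff₀ (by positivity)]
  nlinarith [h7]

end Pool.Agent.PCU
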