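import Mathlib

/-!
# Squad PCU (MP_8ee43e_pr): `p_c < p_u` for transitive graphs with a large degree and a spectral gap.
Definitions: Bernoulli bond percolation, the critical values, Cayley graphs, non-amenability.
-/

set_option autoImplicit false

namespace Pool.Agent.PCU

open MeasureTheory ProbabilityTheory

noncomputable section

/-! ## Percolation -/

/-- Some cluster (connected component of the graph of the open edges) is infinite. -/
def SomeInfinite {V : Type} (ω : Set (Sym2 V)) : Prop :=
  ∃ c : (SimpleGraph.fromEdgeSet ω).ConnectedComponent, c.supp.Infinite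

/-- Exactly one cluster is infinite. -/
def OneInfinite {V : Type} (ω : Set (Sym2 V)) : Prop :=
  ∃! c : (SimpleGraph.fromEdgeSet ω).ConnectedComponent, c.supp.Infinite

/-- `p_c(G)`: the infimum of the `p ∈ [0,1]` such that almost surely some cluster is infinite, if
every edge of `G` is open with probability `p`, independently. -/
def pc {V : Type} (G : SimpleGraph V) : ℝ :=
  sInf {p : ℝ | ∃ h : p ∈ Set.Icc (0 : ℝ) 1,
    setBernoulli G.edgeSet ⟨p, h⟩ {ω | SomeInfinite ω} = 1}

/-- `p_u(G)`: the infimum of the `p ∈ [0,1]` such that almost surely exactly one cluster is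
infinite. -/
def pu {V : Type} (G : SimpleGraph V) : ℝ :=
  sInf {p : ℝ | ∃ h : p ∈ Set.Icc (0 : ℝ) 1,
    setBernoulli G.edgeSet ⟨p, h⟩ {ω | OneInfinite ω} = 1}

/-! ## Graphs -/

/-- The quadratic form of the simple random walk: `∑ f x * f y ≤ r * ∑ deg x * f x ^ 2` for all
finitely supported `f` (first sum over the ordered pairs of adjacent vertices). -/
def RayleighLE {V : Type} (G : SimpleGraph V) [G.LocallyFinite] (r : ℝ) : Prop :=
  ∀ f : V →₀ ℝ, ∑ x ∈ f.support, ∑ y ∈ G.neighborFinset x, f x * f y ≤
    r * ∑ x ∈ f.support, (G.degree x : ℝ) * f x ^ 2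

/-- The spectral radius of the simple random walk (the top of the spectrum of the transition
operator). -/
def rho {V : Type} (G : SimpleGraph V) [G.LocallyFinite] : ℝ := sInf {r : ℝ | RayleighLE G r}

/-- vertex-transitive graphs -/
def Transitive {V : Type} (G : SimpleGraph V) : Prop :=
  ∀ x y : V, ∃ φ : G ≃g G, φ x = y

/-- The Cayley graph: `g` and `g * s` are adjacent for `s ∈ S` (no loops). -/
def cay {Γ : Type} [Group Γ] (S : Set Γ) : SimpleGraph Γ :=
  SimpleGraph.fromRel fun g h => g⁻¹ * h ∈ S

open Classical in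
/-- There is no Følner sequence: for some finite `K` and `ε > 0` no finite nonempty `F` satisfies
`|F g \ F| ≤ ε |F|` for all `g ∈ K`. -/
def NonAmenable (Γ : Type) [Group Γ] : Prop :=
  ∃ (K : Finset Γ) (ε : ℝ), 0 < ε ∧ ∀ F : Finset Γ, F.Nonempty →
    ∃ g ∈ K, ε * F.card < ((F.image fun x => x * g) \ F).card

open Classical in
/-- finite symmetric generating sets -/
def SymGen {Γ : Type} [Group Γ] (S : Finset Γ) : Prop :=
  (∀ s ∈ S, s⁻¹ ∈ S) ∧ Subgroup.closure (S : Set Γ) = ⊤

open Classical Pointwise in
/-- the ball of radius `k`: the products of at most `k` elements of `S` -/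
def ball {Γ : Type} [Group Γ] (S : Finset Γ) (k : ℕ) : Finset Γ := (insert 1 S) ^ k

end

end Pool.Agent.PCU
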