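import Pool.Agent.PCU.Stmts

/-!
# Module FAR: far apart vertices
-/

set_option autoImplicit false

namespace Pool.Agent.PCU

open MeasureTheory ProbabilityTheory
open scoped Classical

namespace FAR_

theorem ball_finite {V : Type} (G : SimpleGraph V) [G.LocallyFinite] (hG : G.Connected) (o : V)
    (n : ℕ) : {y | G.dist o y ≤ n}.Finite := by
  induction n with
  | zero =>
    refine (Set.finite_singleton o).subset ?_
    intro y hy
    have h1 : G.dist o y = 0 := Nat.le_zero.1 hy
    exact ((hG.preconnected o y).dist_eq_zero_iff.1 h1).symm
  | succ n ih =>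
    have hfin : (⋃ x ∈ {y | G.dist o y ≤ n}, (insert x (G.neighborSet x) : Set V)).Finite := by
      refine Set.Finite.biUnion ih ?_
      intro x _
      exact (Set.toFinite (G.neighborSet x)).insert x
    refine hfin.subset ?_
    intro y hy
    rcases Nat.lt_or_ge n (G.dist o y) with h | h
    · have hd : G.dist y o = n + 1 := by
        rw [SimpleGraph.dist_comm]
        have : G.dist o y ≤ n + 1 := hy
        omega
      obtain ⟨p, hp⟩ := (hG.preconnected y o).exists_walk_length_eq_dist
      rw [hd] at hp
      cases p with
      | nil => simp at hp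
      | @cons _ x _ hadj q =>
        have hq : q.length = n := by simpa using hp
        have hx : G.dist o x ≤ n := by
          rw [SimpleGraph.dist_comm]
          exact le_trans (SimpleGraph.dist_le q) (le_of_eq hq)
        simp only [Set.mem_iUnion]
        exact ⟨x, hx, Set.mem_insert_of_mem _ hadj.symm⟩
    · simp only [Set.mem_iUnion]
      exact ⟨y, h, Set.mem_insert _ _⟩

end FAR_

theorem far_proof : Stmt_FAR := by
  intro V _ G _ hG
  have : Nonempty V := hG.nonempty
  constructor
  · obtain ⟨o⟩ := hG.nonempty
    have h : (Set.univ : Set V) = ⋃ n : ℕ, {y | G.dist o y ≤ n} := by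
      ext y
      simp only [Set.mem_univ, Set.mem_iUnion, Set.mem_ofPred_eq, true_iff]
      exact ⟨_, le_rfl⟩
    rw [← Set.countable_univ_iff, h]
    exact Set.countable_iUnion fun n => (FAR_.ball_finite G hG o n).countable
  · intro n N
    induction N with
    | zero => exact ⟨fun i => i.elim0, fun i => i.elim0⟩
    | succ N ih =>
      obtain ⟨x, hx⟩ := ih
      have hfin : (⋃ i : Fin N, {y | G.dist (x i) y ≤ n}).Finite :=
        Set.finite_iUnion fun i => FAR_.ball_finite G hG (x i) n
      obtain ⟨v, hv⟩ := hfin.infinite_compl.nonempty
      have hv' : ∀ i : Fin N, n ≤ G.dist (x i) v := by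
        intro i
        by_contra hlt
        apply hv
        simp only [Set.mem_iUnion, Set.mem_ofPred_eq]
        exact ⟨i, by omega⟩
      refine ⟨Fin.cons v x, ?_⟩
      intro i j hij
      refine Fin.cases ?_ (fun i' => ?_) i hij
      · intro hij'
        refine Fin.cases ?_ (fun j' => ?_) j hij'
        · intro h; exact absurd rfl h
        · intro _
          simp only [Fin.cons_zero, Fin.cons_succ]
          rw [SimpleGraph.dist_comm]
          exact hv' j'
      · intro hij'
        refine Fin.cases ?_ (fun j' => ?_) j hij'
        · intro _
          simp only [Fin.cons_zero, Fin.cons_succ]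
          exact hv' i'
        · intro h
          simp only [Fin.cons_succ]
          exact hx i' j' (fun h' => h (by rw [h']))

end Pool.Agent.PCU
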