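import Pool.Agent.PCU.Stmts

/-!
# Squad PCU, module FI1: the first theorem
-/

set_option autoImplicit false

namespace Pool.Agent.PCU

open MeasureTheory ProbabilityTheory
open scoped Classical

namespace FI1_

/-- in a connected infinite graph with all edges open there is exactly one infinite cluster -/
theorem one_full {V : Type} [Infinite V] (G : SimpleGraph V) (h : G.Connected) :
    OneInfinite G.edgeSet := by
  unfold OneInfinite
  have h1 : SimpleGraph.fromEdgeSet G.edgeSet = G := SimpleGraph.fromEdgeSet_edgeSet G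
  rw [h1]
  obtain ⟨o⟩ := h.nonempty
  refine ⟨G.connectedComponentMk o, ?_, ?_⟩
  · have h2 : (G.connectedComponentMk o).supp = Set.univ := by
      ext x
      rw [SimpleGraph.ConnectedComponent.mem_supp_iff, SimpleGraph.ConnectedComponent.eq]
      simp only [Set.mem_univ, iff_true]
      exact h.preconnected x o
    show (G.connectedComponentMk o).supp.Infinite
    rw [h2]
    exact Set.infinite_univ
  · intro c _
    induction c using SimpleGraph.ConnectedComponent.ind with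
    | _ x =>
      rw [SimpleGraph.ConnectedComponent.eq]
      exact h.preconnected x o

/-- an infinite cluster of a vertex is an infinite cluster -/
theorem some_of_infAt {V : Type} (x : V) (ω : Set (Sym2 V)) (h : InfAt x ω) : SomeInfinite ω := by
  refine ⟨(SimpleGraph.fromEdgeSet ω).connectedComponentMk x, ?_⟩
  have h2 : ((SimpleGraph.fromEdgeSet ω).connectedComponentMk x).supp =
      {y | (SimpleGraph.fromEdgeSet ω).Reachable x y} := by
    ext y
    rw [SimpleGraph.ConnectedComponent.mem_supp_iff, SimpleGraph.ConnectedComponent.eq]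
    exact ⟨fun h => h.symm, fun h => h.symm⟩
  rw [h2]
  exact h

end FI1_

theorem fi1_proof (hPHI : Stmt_PHI) (hDCT : Stmt_DCT) (hINF : Stmt_INF) (hZOL : Stmt_ZOL)
    (hPUB : Stmt_PUB) (hFAR : Stmt_FAR) (hRHO : Stmt_RHO) (hNUM : Stmt_NUM) : Main1 := by
  intro V _ G _ d hconn htr hdeg h11
  have hcount : Countable V := (hFAR V G hconn).1
  have hd : 1 ≤ d := by
    by_contra hcon
    have h0 : d = 0 := by omega
    rw [h0] at h11
    norm_num at h11
  obtain ⟨o⟩ := hconn.nonempty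
  have : Nonempty V := ⟨o⟩
  obtain ⟨hr0, hray, -⟩ := hRHO V G d hd hdeg
  obtain ⟨p₀, p₁, h0, h01, h1, hx, hineq⟩ := hNUM d (rho G) hr0 h11
  have hrd0 : 0 ≤ rho G * (d : ℝ) := mul_nonneg hr0 (Nat.cast_nonneg d)
  have hphi : ∀ p, p₀ ≤ p → p ≤ p₁ → ∀ S : Finset V, o ∈ S → 1 ≤ phi G S p o := by
    intro p hp hp' S ho
    refine hPHI V G d (rho G) p S o hr0 hray hdeg ho (by linarith) (by linarith) ?_
      (hineq p hp hp')
    exact lt_of_le_of_lt (mul_le_mul_of_nonneg_right hp' hrd0) hx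
  have hθ : 0 < (p₁ - p₀) / (p₁ * (1 - p₀)) :=
    div_pos (by linarith) (mul_pos (by linarith) (by linarith))
  have hp1 : p₁ ∈ Set.Icc (0 : ℝ) 1 := ⟨by linarith, h1.le⟩
  have hinf := hINF V G o p₁ ((p₁ - p₀) / (p₁ * (1 - p₀))) hp1 fun Λ ho =>
    hDCT V G Λ o p₀ p₁ ho h0 h01.le h1 fun p hp hp' S _ hoS => hphi p hp hp' S hoS
  have hne : setBernoulli G.edgeSet ⟨p₁, hp1⟩ {ω | SomeInfinite ω} ≠ 0 := by
    intro hz
    have h2 : setBernoulli G.edgeSet ⟨p₁, hp1⟩ {ω | InfAt o ω} ≤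
        setBernoulli G.edgeSet ⟨p₁, hp1⟩ {ω | SomeInfinite ω} :=
      measure_mono fun ω hω => FI1_.some_of_infAt o ω hω
    rw [hz] at h2
    have h3 := hinf.trans h2
    have h4 : ENNReal.ofReal ((p₁ - p₀) / (p₁ * (1 - p₀))) = 0 := le_antisymm h3 zero_le
    rw [ENNReal.ofReal_eq_zero] at h4
    linarith
  have hpc : pc G ≤ p₁ := by
    unfold pc
    refine csInf_le ⟨0, ?_⟩ ⟨hp1, hZOL V G.edgeSet p₁ hp1 hne⟩
    rintro p ⟨h, -⟩
    exact h.1
  have h1mem : (1 : ℝ) ∈ Set.Icc (0 : ℝ) 1 := ⟨zero_le_one, le_refl 1⟩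
  have hset1 : setBernoulli G.edgeSet ⟨1, h1mem⟩ {ω | OneInfinite ω} = 1 := by
    have h2 : (⟨1, h1mem⟩ : unitInterval) = 1 := rfl
    rw [h2, setBernoulli_one]
    exact Measure.dirac_apply_of_mem (FI1_.one_full G hconn)
  have hlow : ∀ p ∈ {p : ℝ | ∃ h : p ∈ Set.Icc (0 : ℝ) 1,
      setBernoulli G.edgeSet ⟨p, h⟩ {ω | OneInfinite ω} = 1}, 1 ≤ p * (rho G * d) := by
    rintro p ⟨h, hm⟩
    by_contra hlt
    push Not at hlt
    exact hPUB V G d (rho G) p h hconn htr hr0 hray hdeg hlt hm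
  have hrd : 0 < rho G * (d : ℝ) := by
    have h2 := hlow 1 ⟨h1mem, hset1⟩
    linarith
  have h2 : p₁ < 1 / (rho G * (d : ℝ)) := by
    rw [lt_div_iff₀ hrd]
    exact hx
  have h3 : 1 / (rho G * (d : ℝ)) ≤ pu G := by
    unfold pu
    refine le_csInf ⟨1, h1mem, hset1⟩ fun p hp => ?_
    rw [div_le_iff₀ hrd]
    exact hlow p hp
  linarith

end Pool.Agent.PCU
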