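import Pool.Agent.PCU.Stmts

/-!
# Squad PCU, module FI2: the second theorem
-/

set_option autoImplicit false

namespace Pool.Agent.PCU

open MeasureTheory ProbabilityTheory
open scoped Classical

namespace FI2_

/-- counting the boundary edges in two ways -/
theorem boundary {Γ : Type} [Group Γ] (T F : Finset Γ) :
    ∑ t ∈ T, ((F.image (fun x => x * t) \ F).card : ℝ) =
      ∑ x ∈ F, ((((T.erase 1).image fun t => x * t) \ F).card : ℝ) := by
  have h1 : ∑ t ∈ T.erase 1, ((F.image (fun x => x * t) \ F).card : ℝ) =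
      ∑ t ∈ T, ((F.image (fun x => x * t) \ F).card : ℝ) := by
    apply Finset.sum_erase
    simp
  rw [← h1]
  have h2 : ∀ t ∈ T.erase 1, ((F.image (fun x => x * t) \ F).card : ℝ) =
      ∑ x ∈ F, if x * t ∈ F then (0 : ℝ) else 1 := by
    intro t _
    have e1 : F.image (fun x => x * t) \ F =
        (F.filter fun x => ¬ x * t ∈ F).image fun x => x * t := by
      ext y
      simp only [Finset.mem_sdiff, Finset.mem_image, Finset.mem_filter]
      constructor
      · rintro ⟨⟨x, hx, rfl⟩, hy⟩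
        exact ⟨x, ⟨hx, hy⟩, rfl⟩
      · rintro ⟨x, ⟨hx, hy⟩, rfl⟩
        exact ⟨⟨x, hx, rfl⟩, hy⟩
    rw [e1, Finset.card_image_of_injective _ (mul_left_injective t), Finset.card_filter]
    push_cast
    refine Finset.sum_congr rfl fun x _ => ?_
    by_cases h : x * t ∈ F <;> simp [h]
  have h3 : ∀ x ∈ F, ((((T.erase 1).image fun t => x * t) \ F).card : ℝ) =
      ∑ t ∈ T.erase 1, if x * t ∈ F then (0 : ℝ) else 1 := by
    intro x _
    have e1 : ((T.erase 1).image fun t => x * t) \ F =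
        ((T.erase 1).filter fun t => ¬ x * t ∈ F).image fun t => x * t := by
      ext y
      simp only [Finset.mem_sdiff, Finset.mem_image, Finset.mem_filter]
      constructor
      · rintro ⟨⟨t, ht, rfl⟩, hy⟩
        exact ⟨t, ⟨ht, hy⟩, rfl⟩
      · rintro ⟨t, ⟨ht, hy⟩, rfl⟩
        exact ⟨⟨t, ht, rfl⟩, hy⟩
    rw [e1, Finset.card_image_of_injective _ (mul_right_injective x), Finset.card_filter]
    push_cast
    refine Finset.sum_congr rfl fun t _ => ?_
    by_cases h : x * t ∈ F <;> simp [h]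
  rw [Finset.sum_congr rfl h2, Finset.sum_congr rfl h3, Finset.sum_comm]

end FI2_

theorem fi2_proof (hM1 : Main1) (hRHO : Stmt_RHO) (hCHG : Stmt_CHG) (hISO : Stmt_ISO)
    (hCAY : Stmt_CAY) (hBLL : Stmt_BLL) (hNIF : Stmt_NIF) : Main2 := by
  intro Γ _ S hS hna
  have hinfi : Infinite Γ := hNIF Γ hna
  obtain ⟨κ, hκ0, hκ1, hκ⟩ := hISO Γ S hS hna
  have key : ∀ δ : ℝ, 0 < δ → ∃ N : ℕ, ∀ T : Finset Γ, SymGen T → N ≤ T.card →
      (∀ s ∈ S, δ * T.card ≤ ((T ∩ T.image fun t => t * s).card : ℝ)) →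
      pc (cay (T : Set Γ)) < pu (cay (T : Set Γ)) := by
    intro δ hδ
    obtain ⟨δ', hδ'0, hδ'1, hδ'⟩ : ∃ δ' : ℝ, 0 < δ' ∧ δ' ≤ 1 ∧ δ' ≤ δ :=
      ⟨min δ 1, lt_min hδ zero_lt_one, min_le_right _ _, min_le_left _ _⟩
    obtain ⟨η, hη⟩ : ∃ η : ℝ, η = κ * δ' := ⟨_, rfl⟩
    have hη0 : 0 < η := by rw [hη]; exact mul_pos hκ0 hδ'0
    have hη1 : η ≤ 1 := by rw [hη]; exact mul_le_one₀ hκ1 hδ'0.le hδ'1
    obtain ⟨N, hN⟩ := exists_nat_ge (11 * 8 / η ^ 6 + 2)
    refine ⟨N, fun T hT hcard hdisp => ?_⟩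
    obtain ⟨hconn, htr, ⟨hlf⟩, hnb⟩ := hCAY Γ T hT
    have hdeg : ∀ x, (cay (T : Set Γ)).degree x = (T.erase 1).card := by
      intro x
      rw [← SimpleGraph.card_neighborFinset_eq_degree, hnb hlf x,
        Finset.card_image_of_injective _ (mul_right_injective x)]
    have hTd : T.card ≤ (T.erase 1).card + 1 := by
      have h1 := Finset.pred_card_le_card_erase (s := T) (a := 1)
      omega
    have hdT : (T.erase 1).card ≤ T.card := Finset.card_le_card (Finset.erase_subset 1 T)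
    obtain ⟨d, hd⟩ : ∃ d : ℕ, d = (T.erase 1).card := ⟨_, rfl⟩
    rw [← hd] at hdeg hTd hdT
    have hpos : (0 : ℝ) < 11 * 8 / η ^ 6 := by positivity
    have hdR : 11 * 8 / η ^ 6 + 1 ≤ (d : ℝ) := by
      have h1 : (N : ℝ) ≤ (T.card : ℝ) := by exact_mod_cast hcard
      have h2 : (T.card : ℝ) ≤ (d : ℝ) + 1 := by exact_mod_cast hTd
      linarith
    have hd1 : 1 ≤ d := by
      have h1 : (1 : ℝ) ≤ (d : ℝ) := by linarith
      exact_mod_cast h1
    have hray : RayleighLE (cay (T : Set Γ)) (1 - η ^ 2 / 2) := by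
      refine hCHG Γ (cay (T : Set Γ)) d η hd1 hdeg hη0.le hη1 fun F hF => ?_
      have h1 := hκ T δ' hδ'0 hδ'1 (fun s hs => ?_) F hF
      · rw [FI2_.boundary] at h1
        have h2 : ∀ x ∈ F, ((((cay (T : Set Γ)).neighborFinset x) \ F).card : ℝ) =
            ((((T.erase 1).image fun t => x * t) \ F).card : ℝ) := by
          intro x _
          rw [hnb hlf x]
        rw [Finset.sum_congr rfl h2]
        refine le_trans ?_ h1
        rw [hη]
        have h3 : (d : ℝ) ≤ (T.card : ℝ) := by exact_mod_cast hdT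
        have h4 : (0 : ℝ) ≤ (F.card : ℝ) := Nat.cast_nonneg _
        have h5 : 0 ≤ κ * δ' := (mul_pos hκ0 hδ'0).le
        exact mul_le_mul_of_nonneg_right (mul_le_mul_of_nonneg_left h3 h5) h4
      · refine le_trans ?_ (hdisp s hs)
        exact mul_le_mul_of_nonneg_right hδ' (Nat.cast_nonneg _)
    have hrho : rho (cay (T : Set Γ)) ≤ 1 - η ^ 2 / 2 :=
      (hRHO Γ (cay (T : Set Γ)) d hd1 hdeg).2.2 _ hray
    refine hM1 Γ (cay (T : Set Γ)) d hconn htr hdeg ?_
    have h1 : η ^ 2 / 2 ≤ 1 - rho (cay (T : Set Γ)) := by linarith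
    have h2 : (η ^ 2 / 2) ^ 3 ≤ (1 - rho (cay (T : Set Γ))) ^ 3 :=
      pow_le_pow_left₀ (by positivity) h1 3
    have h3 : 11 ≤ (d : ℝ) * (η ^ 2 / 2) ^ 3 := by
      have h4 : 11 * 8 / η ^ 6 ≤ (d : ℝ) := by linarith
      rw [div_le_iff₀ (by positivity)] at h4
      have h5 : (d : ℝ) * (η ^ 2 / 2) ^ 3 = (d : ℝ) * η ^ 6 / 8 := by ring
      rw [h5]
      linarith
    exact h3.trans (mul_le_mul_of_nonneg_left h2 (Nat.cast_nonneg _))
  refine ⟨key, ?_⟩
  obtain ⟨hB1, hB2, hB3⟩ := hBLL Γ S hS hinfi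
  have hS1 : (0 : ℝ) < (S.card : ℝ) + 1 := by positivity
  obtain ⟨N, hN⟩ := key (1 / ((S.card : ℝ) + 1)) (by positivity)
  obtain ⟨k₀, hk₀⟩ := hB3 N
  refine ⟨max k₀ 1, fun k hk => ?_⟩
  have hk1 : 1 ≤ k := le_trans (le_max_right _ _) hk
  refine hN (ball S k) (hB1 k hk1) (hk₀ k (le_trans (le_max_left _ _) hk)) fun s hs => ?_
  have h1 := hB2 k s hk1 hs
  have h2 : ((ball S k).card : ℝ) ≤
      ((S.card : ℝ) + 1) * ((ball S k ∩ (ball S k).image fun t => t * s).card : ℝ) := by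
    exact_mod_cast h1
  rw [div_mul_eq_mul_div, one_mul, div_le_iff₀ hS1]
  linarith

end Pool.Agent.PCU
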