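import Pool.Agent.PCU.Defs

/-!
# Squad PCU: finite Bernoulli percolation (definitions and basic facts, proved)
-/

set_option autoImplicit false

namespace Pool.Agent.PCU

open Classical

noncomputable section

/-! ## Finite product weights -/

section weights

variable {α : Type}

/-- expectation of `F ω`, `ω` = the random set of the open elements of `E`, each open with
probability `p`, independently -/
def Ex (p : ℝ) (E : Finset α) (F : Finset α → ℝ) : ℝ :=
  ∑ ω ∈ E.powerset, p ^ ω.card * (1 - p) ^ (E \ ω).card * F ω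

/-- probability of the event `A` -/
def Pr (p : ℝ) (E : Finset α) (A : Finset α → Prop) : ℝ :=
  Ex p E fun ω => if A ω then 1 else 0

theorem Ex_congr (p : ℝ) (E : Finset α) {F G : Finset α → ℝ} (h : ∀ ω ⊆ E, F ω = G ω) :
    Ex p E F = Ex p E G := by
  refine Finset.sum_congr rfl fun ω hω => ?_
  rw [h ω (Finset.mem_powerset.1 hω)]

theorem Pr_congr (p : ℝ) (E : Finset α) {A B : Finset α → Prop} (h : ∀ ω ⊆ E, (A ω ↔ B ω)) :
    Pr p E A = Pr p E B := by
  refine Ex_congr p E fun ω hω => ?_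
  rw [if_congr (h ω hω) rfl rfl]

theorem Ex_mono {p : ℝ} (h0 : 0 ≤ p) (h1 : p ≤ 1) (E : Finset α) {F G : Finset α → ℝ}
    (h : ∀ ω ⊆ E, F ω ≤ G ω) : Ex p E F ≤ Ex p E G := by
  refine Finset.sum_le_sum fun ω hω => ?_
  refine mul_le_mul_of_nonneg_left (h ω (Finset.mem_powerset.1 hω)) ?_
  exact mul_nonneg (pow_nonneg h0 _) (pow_nonneg (by linarith) _)

theorem Ex_nonneg {p : ℝ} (h0 : 0 ≤ p) (h1 : p ≤ 1) (E : Finset α) {F : Finset α → ℝ}
    (h : ∀ ω ⊆ E, 0 ≤ F ω) : 0 ≤ Ex p E F := by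
  refine Finset.sum_nonneg fun ω hω => ?_
  refine mul_nonneg ?_ (h ω (Finset.mem_powerset.1 hω))
  exact mul_nonneg (pow_nonneg h0 _) (pow_nonneg (by linarith) _)

theorem Ex_add (p : ℝ) (E : Finset α) (F G : Finset α → ℝ) :
    Ex p E (fun ω => F ω + G ω) = Ex p E F + Ex p E G := by
  unfold Ex
  rw [← Finset.sum_add_distrib]
  exact Finset.sum_congr rfl fun ω _ => by ring

theorem Ex_sub (p : ℝ) (E : Finset α) (F G : Finset α → ℝ) :
    Ex p E (fun ω => F ω - G ω) = Ex p E F - Ex p E G := by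
  unfold Ex
  rw [← Finset.sum_sub_distrib]
  exact Finset.sum_congr rfl fun ω _ => by ring

theorem Ex_mul_left (p : ℝ) (E : Finset α) (c : ℝ) (F : Finset α → ℝ) :
    Ex p E (fun ω => c * F ω) = c * Ex p E F := by
  unfold Ex
  rw [Finset.mul_sum]
  exact Finset.sum_congr rfl fun ω _ => by ring

theorem Ex_sum (p : ℝ) (E : Finset α) {ι : Type} (s : Finset ι) (F : ι → Finset α → ℝ) :
    Ex p E (fun ω => ∑ i ∈ s, F i ω) = ∑ i ∈ s, Ex p E (F i) := by
  unfold Ex
  rw [Finset.sum_comm]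
  exact Finset.sum_congr rfl fun ω _ => by rw [Finset.mul_sum]

/-- independence: the product formula for a disjoint union -/
theorem Ex_mul (p : ℝ) (E₁ E₂ : Finset α) (hd : Disjoint E₁ E₂) (F G : Finset α → ℝ) :
    Ex p (E₁ ∪ E₂) (fun ω => F (ω ∩ E₁) * G (ω ∩ E₂)) = Ex p E₁ F * Ex p E₂ G := by
  unfold Ex
  rw [Finset.sum_mul_sum, ← Finset.sum_product']
  symm
  have key : ∀ a : Finset α × Finset α, a ∈ E₁.powerset ×ˢ E₂.powerset →
      (a.1 ∪ a.2) ∩ E₁ = a.1 ∧ (a.1 ∪ a.2) ∩ E₂ = a.2 := by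
    intro a ha
    rw [Finset.mem_product, Finset.mem_powerset, Finset.mem_powerset] at ha
    rw [Finset.disjoint_left] at hd
    constructor
    · ext x
      simp only [Finset.mem_inter, Finset.mem_union]
      constructor
      · rintro ⟨h | h, h'⟩
        · exact h
        · exact absurd (ha.2 h) (hd h')
      · intro h
        exact ⟨Or.inl h, ha.1 h⟩
    · ext x
      simp only [Finset.mem_inter, Finset.mem_union]
      constructor
      · rintro ⟨h | h, h'⟩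
        · exact absurd h' (hd (ha.1 h))
        · exact h
      · intro h
        exact ⟨Or.inr h, ha.2 h⟩
  refine Finset.sum_nbij' (fun a => a.1 ∪ a.2) (fun ω => (ω ∩ E₁, ω ∩ E₂)) ?_ ?_ ?_ ?_ ?_
  · intro a ha
    rw [Finset.mem_product, Finset.mem_powerset, Finset.mem_powerset] at ha
    rw [Finset.mem_powerset]
    exact Finset.union_subset_union ha.1 ha.2
  · intro ω _
    rw [Finset.mem_product, Finset.mem_powerset, Finset.mem_powerset]
    exact ⟨Finset.inter_subset_right, Finset.inter_subset_right⟩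
  · intro a ha
    obtain ⟨h1, h2⟩ := key a ha
    exact Prod.ext h1 h2
  · intro ω hω
    rw [Finset.mem_powerset] at hω
    show ω ∩ E₁ ∪ ω ∩ E₂ = ω
    rw [← Finset.inter_union_distrib_left, Finset.inter_eq_left]
    exact hω
  · intro a ha
    obtain ⟨h1, h2⟩ := key a ha
    rw [Finset.mem_product, Finset.mem_powerset, Finset.mem_powerset] at ha
    show _ = p ^ (a.1 ∪ a.2).card * (1 - p) ^ ((E₁ ∪ E₂) \ (a.1 ∪ a.2)).card *
      (F ((a.1 ∪ a.2) ∩ E₁) * G ((a.1 ∪ a.2) ∩ E₂))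
    rw [h1, h2]
    have hd2 : Disjoint a.1 a.2 := Finset.disjoint_of_subset_left ha.1
      (Finset.disjoint_of_subset_right ha.2 hd)
    have h3 : (E₁ ∪ E₂) \ (a.1 ∪ a.2) = (E₁ \ a.1) ∪ (E₂ \ a.2) := by
      rw [Finset.disjoint_left] at hd
      ext x
      simp only [Finset.mem_sdiff, Finset.mem_union, not_or]
      constructor
      · rintro ⟨h | h, h', h''⟩
        · exact Or.inl ⟨h, h'⟩
        · exact Or.inr ⟨h, h''⟩
      · rintro (⟨h, h'⟩ | ⟨h, h'⟩)
        · exact ⟨Or.inl h, h', fun h'' => hd h (ha.2 h'')⟩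
        · exact ⟨Or.inr h, fun h'' => hd (ha.1 h'') h, h'⟩
    have h4 : Disjoint (E₁ \ a.1) (E₂ \ a.2) :=
      Finset.disjoint_of_subset_left Finset.sdiff_subset
        (Finset.disjoint_of_subset_right Finset.sdiff_subset hd)
    rw [Finset.card_union_of_disjoint hd2, h3, Finset.card_union_of_disjoint h4, pow_add, pow_add]
    ring

theorem Ex_const (p : ℝ) (E : Finset α) (c : ℝ) : Ex p E (fun _ => c) = c := by
  have h1 : ∑ ω ∈ E.powerset, p ^ ω.card * (1 - p) ^ (E \ ω).card = 1 := by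
    have h2 := Finset.prod_add (fun _ : α => p) (fun _ => 1 - p) E
    simp only [add_sub_cancel, Finset.prod_const_one, Finset.prod_const] at h2
    exact h2.symm
  unfold Ex
  rw [← Finset.sum_mul, h1, one_mul]

/-- locality -/
theorem Ex_local (p : ℝ) {E₁ E : Finset α} (h : E₁ ⊆ E) (F : Finset α → ℝ) :
    Ex p E (fun ω => F (ω ∩ E₁)) = Ex p E₁ F := by
  have h1 : E = E₁ ∪ (E \ E₁) := (Finset.union_sdiff_of_subset h).symm
  have h2 := Ex_mul p E₁ (E \ E₁) Finset.disjoint_sdiff F (fun _ => 1)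
  rw [Ex_const, mul_one] at h2
  rw [← h2, ← h1]
  refine Ex_congr p E fun ω _ => ?_
  rw [mul_one]

/-- independence of two disjoint subsets -/
theorem Ex_indep (p : ℝ) {E₁ E₂ E : Finset α} (h₁ : E₁ ⊆ E) (h₂ : E₂ ⊆ E)
    (hd : Disjoint E₁ E₂) (F G : Finset α → ℝ) :
    Ex p E (fun ω => F (ω ∩ E₁) * G (ω ∩ E₂)) = Ex p E₁ F * Ex p E₂ G := by
  rw [← Ex_mul p E₁ E₂ hd F G, ← Ex_local p (Finset.union_subset h₁ h₂)]
  refine Ex_congr p E fun ω _ => ?_
  have e1 : ω ∩ (E₁ ∪ E₂) ∩ E₁ = ω ∩ E₁ := by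
    rw [Finset.inter_assoc, Finset.union_inter_cancel_left]
  have e2 : ω ∩ (E₁ ∪ E₂) ∩ E₂ = ω ∩ E₂ := by
    rw [Finset.inter_assoc, Finset.union_inter_cancel_right]
  rw [e1, e2]

theorem Pr_local (p : ℝ) {E₁ E : Finset α} (h : E₁ ⊆ E) (A : Finset α → Prop) :
    Pr p E (fun ω => A (ω ∩ E₁)) = Pr p E₁ A :=
  Ex_local p h fun ω => if A ω then 1 else 0

theorem Pr_indep (p : ℝ) {E₁ E₂ E : Finset α} (h₁ : E₁ ⊆ E) (h₂ : E₂ ⊆ E)
    (hd : Disjoint E₁ E₂) (A B : Finset α → Prop) :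
    Pr p E (fun ω => A (ω ∩ E₁) ∧ B (ω ∩ E₂)) = Pr p E₁ A * Pr p E₂ B := by
  unfold Pr
  rw [← Ex_indep p h₁ h₂ hd]
  refine Ex_congr p E fun ω _ => ?_
  by_cases hA : A (ω ∩ E₁) <;> by_cases hB : B (ω ∩ E₂) <;> simp [hA, hB]

theorem Pr_nonneg {p : ℝ} (h0 : 0 ≤ p) (h1 : p ≤ 1) (E : Finset α) (A : Finset α → Prop) :
    0 ≤ Pr p E A :=
  Ex_nonneg h0 h1 E fun ω _ => by split_ifs <;> norm_num

theorem Pr_mono {p : ℝ} (h0 : 0 ≤ p) (h1 : p ≤ 1) (E : Finset α) {A B : Finset α → Prop}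
    (h : ∀ ω ⊆ E, A ω → B ω) : Pr p E A ≤ Pr p E B := by
  refine Ex_mono h0 h1 E fun ω hω => ?_
  by_cases hA : A ω
  · simp [hA, h ω hω hA]
  · simp only [hA, if_false]
    split_ifs <;> norm_num

theorem Pr_le_one {p : ℝ} (h0 : 0 ≤ p) (h1 : p ≤ 1) (E : Finset α) (A : Finset α → Prop) :
    Pr p E A ≤ 1 := by
  rw [← Ex_const p E 1]
  exact Ex_mono h0 h1 E fun ω _ => by split_ifs <;> norm_num

/-- the probability that all elements of `D` are open -/
theorem Pr_open (p : ℝ) {D E : Finset α} (h : D ⊆ E) :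
    Pr p E (fun ω => D ⊆ ω) = p ^ D.card := by
  have h1 : Pr p E (fun ω => D ⊆ ω) = Pr p E (fun ω => D ⊆ ω ∩ D) := by
    refine Pr_congr p E fun ω _ => ?_
    exact ⟨fun h => Finset.subset_inter h (Finset.Subset.refl D),
      fun h => h.trans Finset.inter_subset_left⟩
  rw [h1, Pr_local p h (fun ω => D ⊆ ω)]
  unfold Pr Ex
  rw [Finset.sum_eq_single D]
  · simp
  · intro b hb hbD
    rw [Finset.mem_powerset] at hb
    have h2 : ¬ D ⊆ b := fun h2 => hbD (Finset.Subset.antisymm hb h2)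
    simp [h2]
  · intro h2
    exact absurd (Finset.mem_powerset_self D) h2

/-- union bound -/
theorem Pr_biUnion_le {p : ℝ} (h0 : 0 ≤ p) (h1 : p ≤ 1) (E : Finset α) {ι : Type} (s : Finset ι)
    (A : Finset α → Prop) (B : ι → Finset α → Prop) (h : ∀ ω ⊆ E, A ω → ∃ i ∈ s, B i ω) :
    Pr p E A ≤ ∑ i ∈ s, Pr p E (B i) := by
  unfold Pr
  rw [← Ex_sum]
  refine Ex_mono h0 h1 E fun ω hω => ?_
  by_cases hA : A ω
  · obtain ⟨i, hi, hB⟩ := h ω hω hA
    rw [if_pos hA]
    have h2 : (if B i ω then (1 : ℝ) else 0) ≤ ∑ i ∈ s, if B i ω then (1 : ℝ) else 0 :=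
      Finset.single_le_sum (f := fun i => if B i ω then (1 : ℝ) else 0)
        (fun j _ => by split_ifs <;> norm_num) hi
    rwa [if_pos hB] at h2
  · rw [if_neg hA]
    exact Finset.sum_nonneg fun i _ => by split_ifs <;> norm_num

end weights

/-! ## Finite percolation on a graph -/

section graph

variable {V : Type}

/-- `x` and `y` are connected by open edges -/
def Rc (ω : Finset (Sym2 V)) (x y : V) : Prop :=
  (SimpleGraph.fromEdgeSet (ω : Set (Sym2 V))).Reachable x y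

/-- the edges of `G` inside `S` -/
def EI (G : SimpleGraph V) (S : Finset V) : Finset (Sym2 V) := S.sym2.filter fun e => e ∈ G.edgeSet

/-- the edges of `G` with at least one endpoint in `S` -/
def ET (G : SimpleGraph V) [G.LocallyFinite] (S : Finset V) : Finset (Sym2 V) :=
  S.biUnion fun x => (G.neighborFinset x).image fun y => s(x, y)

/-- the cluster of `o` (its points in `S`) -/
def cl (S : Finset V) (o : V) (ω : Finset (Sym2 V)) : Finset V := S.filter fun x => Rc ω o x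

/-- the connection probability inside `S` -/
def tau (G : SimpleGraph V) (S : Finset V) (p : ℝ) (o x : V) : ℝ :=
  Pr p (EI G S) fun ω => Rc ω o x

/-- `φ_p(S)` of Duminil-Copin and Tassion -/
def phi (G : SimpleGraph V) [G.LocallyFinite] (S : Finset V) (p : ℝ) (o : V) : ℝ :=
  p * ∑ x ∈ S, ((G.neighborFinset x \ S).card : ℝ) * tau G S p o x

/-- number of walks of length `n` from `x` to `y` -/
def nw (G : SimpleGraph V) [G.LocallyFinite] : ℕ → V → V → ℝ
  | 0, x, y => if x = y then 1 else 0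
  | n + 1, x, y => ∑ z ∈ G.neighborFinset x, nw G n z y

theorem mem_EI {G : SimpleGraph V} {S : Finset V} {x y : V} :
    s(x, y) ∈ EI G S ↔ G.Adj x y ∧ x ∈ S ∧ y ∈ S := by
  unfold EI
  rw [Finset.mem_filter, Finset.mk_mem_sym2_iff, SimpleGraph.mem_edgeSet]
  tauto

theorem mem_ET {G : SimpleGraph V} [G.LocallyFinite] {S : Finset V} {x y : V} :
    s(x, y) ∈ ET G S ↔ G.Adj x y ∧ (x ∈ S ∨ y ∈ S) := by
  unfold ET
  simp only [Finset.mem_biUnion, Finset.mem_image, SimpleGraph.mem_neighborFinset]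
  constructor
  · rintro ⟨a, ha, b, hab, h⟩
    rw [Sym2.eq_iff] at h
    rcases h with ⟨rfl, rfl⟩ | ⟨rfl, rfl⟩
    · exact ⟨hab, Or.inl ha⟩
    · exact ⟨hab.symm, Or.inr ha⟩
  · rintro ⟨h, hx | hy⟩
    · exact ⟨x, hx, y, h, rfl⟩
    · exact ⟨y, hy, x, h.symm, Sym2.eq_swap⟩

theorem EI_mono {G : SimpleGraph V} {S T : Finset V} (h : S ⊆ T) : EI G S ⊆ EI G T := by
  intro e
  induction e with
  | _ x y =>
    rw [mem_EI, mem_EI]
    exact fun ⟨h1, h2, h3⟩ => ⟨h1, h h2, h h3⟩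

theorem EI_subset_ET {G : SimpleGraph V} [G.LocallyFinite] {S T : Finset V} (h : S ⊆ T) :
    EI G S ⊆ ET G T := by
  intro e
  induction e with
  | _ x y =>
    rw [mem_EI, mem_ET]
    exact fun ⟨h1, h2, _⟩ => ⟨h1, Or.inl (h h2)⟩

theorem Rc.refl (ω : Finset (Sym2 V)) (x : V) : Rc ω x x := SimpleGraph.Reachable.refl x

theorem Rc.symm {ω : Finset (Sym2 V)} {x y : V} (h : Rc ω x y) : Rc ω y x :=
  SimpleGraph.Reachable.symm h

theorem Rc.trans {ω : Finset (Sym2 V)} {x y z : V} (h : Rc ω x y) (h' : Rc ω y z) : Rc ω x z :=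
  SimpleGraph.Reachable.trans h h'

theorem Rc.mono {ω ω' : Finset (Sym2 V)} {x y : V} (h : ω ⊆ ω') (h' : Rc ω x y) : Rc ω' x y :=
  SimpleGraph.Reachable.mono
    (SimpleGraph.fromEdgeSet_mono (Finset.coe_subset.2 h)) h'

theorem Rc.edge {ω : Finset (Sym2 V)} {x y : V} (h : s(x, y) ∈ ω) : Rc ω x y := by
  by_cases hxy : x = y
  · subst hxy
    exact Rc.refl ω x
  · refine SimpleGraph.Adj.reachable ?_
    rw [SimpleGraph.fromEdgeSet_adj]
    exact ⟨h, hxy⟩

end graph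

end

end Pool.Agent.PCU
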