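import Pool.Agent.PCU.Stmts

/-!
# Squad PCU, module INF: from finite boxes to the infinite graph
-/

set_option autoImplicit false

namespace Pool.Agent.PCU

open MeasureTheory ProbabilityTheory
open scoped Classical

theorem inf_proof (hL : Stmt_LNK) (hM : Stmt_MSB) : Stmt_INF := by
  intro V _ _ G _ o p θ h hθ
  obtain ⟨f, hf⟩ := exists_surjective_nat V
  let L : ℕ → Finset V := fun n => insert o ((Finset.range n).image f)
  have hLo : ∀ n, o ∈ L n := fun n => Finset.mem_insert_self _ _
  have hLmono : Monotone L := by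
    intro m n hmn
    exact Finset.insert_subset_insert _ (Finset.image_subset_image
      (Finset.range_subset_range.2 hmn))
  have hLex : ∀ y : V, ∃ n, y ∈ L n := by
    intro y
    obtain ⟨i, hi⟩ := hf y
    exact ⟨i + 1, Finset.mem_insert_of_mem (Finset.mem_image.2
      ⟨i, Finset.mem_range.2 (Nat.lt_succ_self i), hi⟩)⟩
  let C : ℕ → Set (Set (Sym2 V)) := fun n =>
    {ω | ∃ y, y ∉ L n ∧ (SimpleGraph.fromEdgeSet ω).Reachable o y}
  have hCm : ∀ n, MeasurableSet (C n) := by
    intro n
    have e : C n = ⋃ y : V, ⋃ _ : y ∉ L n,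
        {ω : Set (Sym2 V) | (SimpleGraph.fromEdgeSet ω).Reachable o y} := by
      ext ω
      simp [C]
    rw [e]
    exact MeasurableSet.iUnion fun y => MeasurableSet.iUnion fun _ => (hM V).1 o y
  have hCanti : Antitone C := by
    rintro m n hmn ω ⟨y, hy, hr⟩
    exact ⟨y, fun h' => hy (hLmono hmn h'), hr⟩
  have hsub : (⋂ n, C n) ⊆ {ω : Set (Sym2 V) | InfAt o ω} := by
    intro ω hω
    rw [Set.mem_iInter] at hω
    show InfAt o ω
    intro hfin
    have hex : ∃ n, ∀ y, (SimpleGraph.fromEdgeSet ω).Reachable o y → y ∈ L n := by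
      choose g hg using hLex
      refine ⟨hfin.toFinset.sup g, fun y hy => ?_⟩
      have h1 : y ∈ hfin.toFinset := hfin.mem_toFinset.2 hy
      exact hLmono (Finset.le_sup h1) (hg y)
    obtain ⟨n, hn⟩ := hex
    obtain ⟨y, hy, hr⟩ := hω n
    exact hy (hn y hr)
  have hle : ∀ n, ENNReal.ofReal θ ≤ setBernoulli G.edgeSet ⟨p, h⟩ (C n) := by
    intro n
    have hsubE : ((ET G (L n) : Finset (Sym2 V)) : Set (Sym2 V)) ⊆ G.edgeSet := by
      intro e
      induction e with
      | _ x y =>
        intro he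
        rw [Finset.mem_coe, mem_ET] at he
        exact (SimpleGraph.mem_edgeSet G).2 he.1
    have h1 := hL V G.edgeSet (ET G (L n)) (Hit (L n) o) p h hsubE
    have h2 : ENNReal.ofReal θ ≤ ENNReal.ofReal (Pr p (ET G (L n)) (Hit (L n) o)) :=
      ENNReal.ofReal_le_ofReal (hθ (L n) (hLo n))
    rw [← h1] at h2
    refine le_trans h2 (measure_mono ?_)
    rintro ω ⟨y, hy, hr⟩
    refine ⟨y, hy, SimpleGraph.Reachable.mono (SimpleGraph.fromEdgeSet_mono ?_) hr⟩
    intro e he
    exact (Finset.mem_filter.1 (Finset.mem_coe.1 he)).2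
  have hI := hCanti.measure_iInter (μ := setBernoulli G.edgeSet ⟨p, h⟩)
    (fun n => (hCm n).nullMeasurableSet) ⟨0, measure_ne_top _ _⟩
  refine le_trans ?_ (measure_mono hsub)
  rw [hI]
  exact le_iInf hle

end Pool.Agent.PCU
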