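import Pool.Agent.PCU.Stmts

/-!
# Squad PCU, module ISO: displacements in non-amenable groups
-/

set_option autoImplicit false

namespace Pool.Agent.PCU

open MeasureTheory ProbabilityTheory
open scoped Classical

namespace ISO_

variable {Γ : Type} [Group Γ]

/-- the displacement -/
noncomputable def ph (F : Finset Γ) (b : Γ) : ℕ := (F.image (fun x => x * b) \ F).card

theorem image_mul_card (F : Finset Γ) (b : Γ) : (F.image (fun x => x * b)).card = F.card :=
  Finset.card_image_of_injective _ (mul_left_injective b)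

theorem image_sdiff (A B : Finset Γ) (b : Γ) :
    (A \ B).image (fun x => x * b) = A.image (fun x => x * b) \ B.image (fun x => x * b) :=
  Finset.image_sdiff _ _ (mul_left_injective b)

theorem image_image (F : Finset Γ) (a b : Γ) :
    (F.image (fun x => x * a)).image (fun x => x * b) = F.image (fun x => x * (a * b)) := by
  rw [Finset.image_image]
  congr 1
  funext x
  simp [mul_assoc]

theorem ph_mul (F : Finset Γ) (a b : Γ) : ph F (a * b) ≤ ph F a + ph F b := by
  unfold ph
  have h1 : F.image (fun x => x * (a * b)) \ F ⊆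
      ((F.image (fun x => x * a) \ F).image (fun x => x * b)) ∪ (F.image (fun x => x * b) \ F) := by
    rw [image_sdiff, image_image]
    intro x hx
    rw [Finset.mem_sdiff] at hx
    rw [Finset.mem_union, Finset.mem_sdiff, Finset.mem_sdiff]
    by_cases h : x ∈ F.image (fun x => x * b)
    · exact Or.inr ⟨h, hx.2⟩
    · exact Or.inl ⟨hx.1, h⟩
  refine (Finset.card_le_card h1).trans ((Finset.card_union_le _ _).trans ?_)
  rw [image_mul_card]

theorem ph_inv (F : Finset Γ) (b : Γ) : ph F b⁻¹ = ph F b := by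
  unfold ph
  have h1 : ((F.image (fun x => x * b⁻¹) \ F).image (fun x => x * b)) =
      F \ F.image (fun x => x * b) := by
    rw [image_sdiff, image_image]
    simp
  have h2 : (F.image (fun x => x * b⁻¹) \ F).card = (F \ F.image (fun x => x * b)).card := by
    rw [← h1, image_mul_card]
  rw [h2]
  have h3 := Finset.card_sdiff_add_card F (F.image (fun x => x * b))
  have h4 := Finset.card_sdiff_add_card (F.image (fun x => x * b)) F
  rw [Finset.union_comm] at h4
  rw [image_mul_card] at h3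
  omega

theorem ph_one (F : Finset Γ) : ph F 1 = 0 := by
  unfold ph
  simp

theorem words (S : Finset Γ) (g : Γ) (hg : g ∈ Subgroup.closure (S : Set Γ)) :
    ∃ l : ℕ, ∀ (F : Finset Γ) (m : ℝ), 0 ≤ m → (∀ s ∈ S, (ph F s : ℝ) ≤ m) →
      (ph F g : ℝ) ≤ l * m := by
  induction hg using Subgroup.closure_induction with
  | mem x hx => exact ⟨1, fun F m _ h => by simpa using h x hx⟩
  | one => exact ⟨0, fun F m _ h => by simp [ph_one]⟩
  | mul x y _ _ hx hy =>
      obtain ⟨l, hl⟩ := hx
      obtain ⟨l', hl'⟩ := hy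
      refine ⟨l + l', fun F m hm h => ?_⟩
      have h1 := hl F m hm h
      have h2 := hl' F m hm h
      have h3 : (ph F (x * y) : ℝ) ≤ ph F x + ph F y := by exact_mod_cast ph_mul F x y
      push_cast
      linarith
  | inv x _ hx =>
      obtain ⟨l, hl⟩ := hx
      exact ⟨l, fun F m hm h => by rw [ph_inv]; exact hl F m hm h⟩

theorem wordsK (S : Finset Γ) (hS : Subgroup.closure (S : Set Γ) = ⊤) (K : Finset Γ) :
    ∃ l : ℕ, ∀ g ∈ K, ∀ (F : Finset Γ) (m : ℝ), 0 ≤ m → (∀ s ∈ S, (ph F s : ℝ) ≤ m) →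
      (ph F g : ℝ) ≤ l * m := by
  induction K using Finset.induction_on with
  | empty => exact ⟨0, fun g hg => by simp at hg⟩
  | insert a K _ ih =>
      obtain ⟨l, hl⟩ := ih
      obtain ⟨l', hl'⟩ := words S a (by rw [hS]; trivial)
      refine ⟨l + l', fun g hg F m hm h => ?_⟩
      push_cast
      rcases Finset.mem_insert.1 hg with rfl | hg
      · have := hl' F m hm h
        have : (0 : ℝ) ≤ l * m := by positivity
        linarith
      · have := hl g hg F m hm h
        have : (0 : ℝ) ≤ l' * m := by positivity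
        linarith

theorem sum_bound (T F : Finset Γ) (s : Γ) :
    ((T ∩ T.image fun t => t * s).card : ℝ) * ph F s ≤ 2 * ∑ t ∈ T, (ph F t : ℝ) := by
  have h1 : ∀ t' ∈ (T ∩ T.image fun t => t * s), (ph F s : ℝ) ≤ ph F (t' * s⁻¹) + ph F t' := by
    intro t' _
    have h2 : s = (t' * s⁻¹)⁻¹ * t' := by group
    have h3 := ph_mul F (t' * s⁻¹)⁻¹ t'
    rw [← h2, ph_inv] at h3
    exact_mod_cast h3
  have h2 : ((T ∩ T.image fun t => t * s).card : ℝ) * ph F s ≤
      ∑ t' ∈ (T ∩ T.image fun t => t * s), ((ph F (t' * s⁻¹) : ℝ) + ph F t') := by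
    rw [← nsmul_eq_mul]
    exact Finset.card_nsmul_le_sum _ _ _ h1
  rw [Finset.sum_add_distrib] at h2
  have h3 : ∑ t' ∈ (T ∩ T.image fun t => t * s), (ph F t' : ℝ) ≤ ∑ t ∈ T, (ph F t : ℝ) :=
    Finset.sum_le_sum_of_subset_of_nonneg Finset.inter_subset_left fun _ _ _ => Nat.cast_nonneg _
  have h4 : ∑ t' ∈ (T ∩ T.image fun t => t * s), (ph F (t' * s⁻¹) : ℝ) ≤
      ∑ t ∈ T, (ph F t : ℝ) := by
    have h5 : ∑ t' ∈ (T ∩ T.image fun t => t * s), (ph F (t' * s⁻¹) : ℝ) =
        ∑ t ∈ (T ∩ T.image fun t => t * s).image (fun x => x * s⁻¹), (ph F t : ℝ) := by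
      rw [Finset.sum_image]
      intro x _ y _ h
      exact mul_left_injective s⁻¹ h
    rw [h5]
    refine Finset.sum_le_sum_of_subset_of_nonneg ?_ fun _ _ _ => Nat.cast_nonneg _
    intro x hx
    rw [Finset.mem_image] at hx
    obtain ⟨y, hy, rfl⟩ := hx
    have hy2 := (Finset.mem_inter.1 hy).2
    rw [Finset.mem_image] at hy2
    obtain ⟨z, hz, rfl⟩ := hy2
    simpa using hz
  linarith

end ISO_

open ISO_ in
theorem iso_proof : Stmt_ISO := by
  intro Γ _ S hS hN
  obtain ⟨K, ε, hε, hK⟩ := hN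
  obtain ⟨L, hL⟩ := wordsK S hS.2 K
  set τ : ℝ := ε / (2 * (L + 1)) with hτ
  have hLp : (0 : ℝ) < L + 1 := by positivity
  have hτ0 : 0 < τ := by positivity
  have hτL : 2 * τ * (L + 1) = ε := by
    rw [hτ]
    field_simp
  refine ⟨min τ 1, lt_min hτ0 one_pos, min_le_right _ _, ?_⟩
  intro T δ hδ hδ1 hT F hF
  have hFc : (0 : ℝ) < F.card := by exact_mod_cast hF.card_pos
  have key : ∃ s ∈ S, 2 * τ * F.card < ph F s := by
    by_contra hcon
    push Not at hcon
    obtain ⟨g, hg, hgF⟩ := hK F hF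
    have h1 := hL g hg F (2 * τ * F.card) (by positivity) hcon
    have h2 : ε * F.card < (ph F g : ℝ) := hgF
    have h3 : (L : ℝ) * (2 * τ * F.card) ≤ ε * F.card := by
      rw [← hτL]
      nlinarith [mul_pos hτ0 hFc]
    linarith
  obtain ⟨s, hs, hsF⟩ := key
  have h1 := sum_bound T F s
  have h2 := hT s hs
  have h3 : (∑ t ∈ T, ((F.image (fun x => x * t) \ F).card : ℝ)) = ∑ t ∈ T, (ph F t : ℝ) := rfl
  rw [h3]
  have h4 : δ * T.card * (2 * τ * F.card) ≤
      ((T ∩ T.image fun t => t * s).card : ℝ) * ph F s := by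
    apply mul_le_mul h2 hsF.le (by positivity) (by positivity)
  have h5 : min τ 1 * δ * T.card * F.card ≤ τ * δ * T.card * F.card := by
    have : (0 : ℝ) ≤ T.card := Nat.cast_nonneg _
    have h6 : min τ 1 ≤ τ := min_le_left _ _
    gcongr
  nlinarith

end Pool.Agent.PCU
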