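import Pool.Agent.PCU.Stmts

/-!
# Squad PCU: events which depend on finitely many edges
-/

set_option autoImplicit false

namespace Pool.Agent.PCU

open MeasureTheory ProbabilityTheory
open scoped Classical ENNReal

namespace LNK_

variable {α : Type}

/-- a cylinder -/
def cyl (E ω₀ : Finset α) : Set (Set α) := {ω | ∀ e ∈ E, (e ∈ ω ↔ e ∈ ω₀)}

theorem meas_mem (e : α) : MeasurableSet {ω : Set α | e ∈ ω} :=
  measurableSet_setOfPred.mpr (measurable_set_mem e)

theorem meas_cyl (E ω₀ : Finset α) : MeasurableSet (cyl E ω₀) := by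
  have h : cyl E ω₀ = ⋂ e ∈ E, {ω : Set α | e ∈ ω ↔ e ∈ ω₀} := by
    ext ω
    simp [cyl]
  rw [h]
  refine Finset.measurableSet_biInter E fun e _ => ?_
  by_cases he : e ∈ ω₀
  · simpa only [he, iff_true] using meas_mem e
  · have h2 : {ω : Set α | e ∈ ω ↔ e ∈ ω₀} = {ω : Set α | e ∈ ω}ᶜ := by
      ext ω
      simp [he]
    rw [h2]
    exact (meas_mem e).compl

theorem coe_nn (p : ℝ) (h : p ∈ Set.Icc (0 : ℝ) 1) :
    ((unitInterval.toNNReal ⟨p, h⟩ : NNReal) : ℝ≥0∞) = ENNReal.ofReal p := by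
  rw [ENNReal.ofReal, ENNReal.coe_inj]
  ext
  rw [Real.coe_toNNReal p h.1]
  rfl

theorem coe_symm (p : ℝ) (h : p ∈ Set.Icc (0 : ℝ) 1) :
    ((unitInterval.toNNReal (unitInterval.symm ⟨p, h⟩) : NNReal) : ℝ≥0∞) =
      ENNReal.ofReal (1 - p) :=
  coe_nn (1 - p) ⟨by linarith [h.2], by linarith [h.1]⟩

theorem prob_cyl (u : Set α) (E ω₀ : Finset α) (p : ℝ) (h : p ∈ Set.Icc (0 : ℝ) 1)
    (hE : (E : Set α) ⊆ u) (hω : ω₀ ⊆ E) :
    setBernoulli u ⟨p, h⟩ (cyl E ω₀) =
      ENNReal.ofReal (p ^ ω₀.card * (1 - p) ^ (E \ ω₀).card) := by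
  rw [setBernoulli_apply']
  have h1 : (fun q : α → Prop => {i | q i}) ⁻¹' (cyl E ω₀) =
      Set.pi (E : Set α) (fun e => {P : Prop | P ↔ e ∈ ω₀}) := by
    ext q
    simp [cyl]
  rw [h1, Measure.infinitePi_pi _ (fun i _ => MeasurableSet.of_discrete)]
  have h2 : ∀ e ∈ E, ((unitInterval.toNNReal ⟨p, h⟩ • Measure.dirac (e ∈ u) +
      unitInterval.toNNReal (unitInterval.symm ⟨p, h⟩) • Measure.dirac False : Measure Prop)
        {P : Prop | P ↔ e ∈ ω₀}) =
      if e ∈ ω₀ then ENNReal.ofReal p else ENNReal.ofReal (1 - p) := by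
    intro e he
    have hu : (e ∈ u) = True := by
      rw [eq_iff_iff, iff_true]
      exact hE he
    rw [hu, Measure.add_apply, Measure.smul_apply, Measure.smul_apply,
      Measure.dirac_apply' _ MeasurableSet.of_discrete,
      Measure.dirac_apply' _ MeasurableSet.of_discrete, ENNReal.smul_def, ENNReal.smul_def,
      coe_nn, coe_symm]
    by_cases hm : e ∈ ω₀
    · simp [hm, Set.indicator]
    · simp [hm, Set.indicator]
  rw [Finset.prod_congr rfl h2, Finset.prod_ite, Finset.prod_const, Finset.prod_const,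
    Finset.filter_mem_eq_inter, Finset.inter_eq_right.mpr hω, Finset.filter_notMem_eq_sdiff,
    ENNReal.ofReal_mul (pow_nonneg h.1 _), ENNReal.ofReal_pow h.1,
    ENNReal.ofReal_pow (by linarith [h.2])]

theorem gen (u : Set α) (E : Finset α) (A : Finset α → Prop) (p : ℝ)
    (h : p ∈ Set.Icc (0 : ℝ) 1) (hE : (E : Set α) ⊆ u) :
    setBernoulli u ⟨p, h⟩ {ω | A (E.filter fun e => e ∈ ω)} = ENNReal.ofReal (Pr p E A) := by
  have h1 : {ω : Set (α) | A (E.filter fun e => e ∈ ω)} =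
      ⋃ ω₀ ∈ E.powerset.filter A, cyl E ω₀ := by
    ext ω
    simp only [Set.mem_iUnion, Finset.mem_filter, Finset.mem_powerset]
    constructor
    · intro hA
      refine ⟨E.filter fun e => e ∈ ω, ⟨Finset.filter_subset _ _, hA⟩, fun e he => ?_⟩
      simp [he]
    · rintro ⟨ω₀, ⟨hs, hA⟩, hc⟩
      have h2 : (E.filter fun e => e ∈ ω) = ω₀ := by
        ext e
        rw [Finset.mem_filter]
        constructor
        · rintro ⟨he, h3⟩
          exact (hc e he).mp h3
        · intro he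
          exact ⟨hs he, (hc e (hs he)).mpr he⟩
      show A (E.filter fun e => e ∈ ω)
      rw [h2]
      exact hA
  have hd : (↑(E.powerset.filter A) : Set (Finset (α))).PairwiseDisjoint (cyl E) := by
    intro a ha b hb hab
    rw [Finset.mem_coe, Finset.mem_filter, Finset.mem_powerset] at ha hb
    refine Set.disjoint_left.mpr fun ω h1 h2 => hab ?_
    ext e
    constructor
    · intro h3
      exact (h2 e (ha.1 h3)).mp ((h1 e (ha.1 h3)).mpr h3)
    · intro h3
      exact (h1 e (hb.1 h3)).mp ((h2 e (hb.1 h3)).mpr h3)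
  rw [h1, measure_biUnion_finset hd (fun b _ => meas_cyl E b)]
  have h3 : ∀ ω₀ ∈ E.powerset.filter A, setBernoulli u ⟨p, h⟩ (cyl E ω₀) =
      ENNReal.ofReal (p ^ ω₀.card * (1 - p) ^ (E \ ω₀).card) := by
    intro ω₀ hω
    rw [Finset.mem_filter, Finset.mem_powerset] at hω
    exact prob_cyl u E ω₀ p h hE hω.1
  rw [Finset.sum_congr rfl h3, ← ENNReal.ofReal_sum_of_nonneg]
  · congr 1
    unfold Pr Ex
    rw [Finset.sum_filter]
    refine Finset.sum_congr rfl fun ω₀ _ => ?_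
    show _ = p ^ ω₀.card * (1 - p) ^ (E \ ω₀).card * (if A ω₀ then 1 else 0)
    by_cases hA : A ω₀
    · rw [if_pos hA, if_pos hA, mul_one]
    · rw [if_neg hA, if_neg hA, mul_zero]
  · intro ω₀ _
    exact mul_nonneg (pow_nonneg h.1 _) (pow_nonneg (by linarith [h.2]) _)

end LNK_

theorem lnk_proof : Stmt_LNK := by
  intro V _ u E A p h hE
  exact LNK_.gen u E A p h hE

end Pool.Agent.PCU
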