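import Pool.Agent.PCU.Stmts

/-!
# Squad PCU (MP_8ee43e_pr), module MSB: measurability
-/

set_option autoImplicit false

namespace Pool.Agent.PCU

open MeasureTheory ProbabilityTheory
open scoped Classical

namespace MSB_

/-- one step of the graph of the open edges -/
def step {V : Type} (ω : Set (Sym2 V)) (x y : V) : Prop := s(x, y) ∈ ω ∧ x ≠ y

/-- reachable in `n` steps -/
def Rn {V : Type} (ω : Set (Sym2 V)) (x : V) : ℕ → V → Prop
  | 0, y => x = y
  | n + 1, y => ∃ z, Rn ω x n z ∧ step ω z y

lemma step_iff {V : Type} (ω : Set (Sym2 V)) (x y : V) :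
    step ω x y ↔ (SimpleGraph.fromEdgeSet ω).Adj x y := by
  unfold step
  rw [SimpleGraph.fromEdgeSet_adj]

lemma Rn_reach {V : Type} (ω : Set (Sym2 V)) (x : V) (n : ℕ) :
    ∀ y, Rn ω x n y → (SimpleGraph.fromEdgeSet ω).Reachable x y := by
  induction n with
  | zero =>
      intro y h
      have h' : x = y := h
      subst h'
      exact SimpleGraph.Reachable.refl _
  | succ n ih =>
      intro y h
      obtain ⟨z, hz, hs⟩ := h
      exact (ih z hz).trans ((step_iff ω z y).1 hs).reachable

lemma Rn_head {V : Type} (ω : Set (Sym2 V)) (n : ℕ) :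
    ∀ x z y, step ω x z → Rn ω z n y → Rn ω x (n + 1) y := by
  induction n with
  | zero =>
      intro x z y hs h
      have h' : z = y := h
      subst h'
      exact ⟨x, rfl, hs⟩
  | succ n ih =>
      intro x z y hs h
      obtain ⟨w, hw, hwy⟩ := h
      exact ⟨w, ih x z w hs hw, hwy⟩

lemma reach_Rn {V : Type} (ω : Set (Sym2 V)) {x y : V}
    (p : (SimpleGraph.fromEdgeSet ω).Walk x y) : ∃ n, Rn ω x n y := by
  induction p with
  | nil => exact ⟨0, rfl⟩
  | cons h q ih =>
      obtain ⟨n, hn⟩ := ih
      exact ⟨n + 1, Rn_head ω n _ _ _ ((step_iff ω _ _).2 h) hn⟩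

lemma reach_iff {V : Type} (ω : Set (Sym2 V)) (x y : V) :
    (SimpleGraph.fromEdgeSet ω).Reachable x y ↔ ∃ n, Rn ω x n y := by
  constructor
  · rintro ⟨p⟩
    exact reach_Rn ω p
  · rintro ⟨n, hn⟩
    exact Rn_reach ω x n y hn

lemma meas_Rn {V : Type} [Countable V] (x : V) (n : ℕ) :
    ∀ y, Measurable fun ω : Set (Sym2 V) => Rn ω x n y := by
  induction n with
  | zero =>
      intro y
      exact measurable_const
  | succ n ih =>
      intro y
      refine Measurable.exists fun z => Measurable.and (ih z) ?_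
      refine Measurable.and (measurable_set_mem _) measurable_const

lemma meas_reach {V : Type} [Countable V] (x y : V) :
    Measurable fun ω : Set (Sym2 V) => (SimpleGraph.fromEdgeSet ω).Reachable x y := by
  have h : (fun ω : Set (Sym2 V) => (SimpleGraph.fromEdgeSet ω).Reachable x y) =
      fun ω => ∃ n, Rn ω x n y := by
    funext ω
    exact propext (reach_iff ω x y)
  rw [h]
  exact Measurable.exists fun n => meas_Rn x n y

lemma meas_inf {V : Type} [Countable V] (x : V) :
    MeasurableSet {ω : Set (Sym2 V) | InfAt x ω} := by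
  have h : Measurable fun ω : Set (Sym2 V) =>
      {y | (SimpleGraph.fromEdgeSet ω).Reachable x y} :=
    measurable_set_iff.2 fun y => meas_reach x y
  exact h MeasurableSet.setOfPred_infinite

lemma supp_eq {V : Type} (ω : Set (Sym2 V)) (x : V) :
    ((SimpleGraph.fromEdgeSet ω).connectedComponentMk x).supp =
      {y | (SimpleGraph.fromEdgeSet ω).Reachable x y} := by
  ext y
  rw [SimpleGraph.ConnectedComponent.mem_supp_iff, SimpleGraph.ConnectedComponent.eq]
  exact ⟨fun h => h.symm, fun h => h.symm⟩

lemma some_iff {V : Type} (ω : Set (Sym2 V)) : SomeInfinite ω ↔ ∃ x, InfAt x ω := by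
  constructor
  · rintro ⟨c, hc⟩
    induction c using SimpleGraph.ConnectedComponent.ind with
    | _ x =>
      refine ⟨x, ?_⟩
      rw [supp_eq] at hc
      exact hc
  · rintro ⟨x, hx⟩
    refine ⟨(SimpleGraph.fromEdgeSet ω).connectedComponentMk x, ?_⟩
    rw [supp_eq]
    exact hx

lemma one_iff {V : Type} (ω : Set (Sym2 V)) : OneInfinite ω ↔
    (∃ x, InfAt x ω) ∧ ∀ x y, InfAt x ω → InfAt y ω →
      (SimpleGraph.fromEdgeSet ω).Reachable x y := by
  constructor
  · rintro ⟨c, hc, hu⟩
    refine ⟨(some_iff ω).1 ⟨c, hc⟩, ?_⟩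
    intro x y hx hy
    have h1 := hu ((SimpleGraph.fromEdgeSet ω).connectedComponentMk x)
      (by show Set.Infinite _; rw [supp_eq]; exact hx)
    have h2 := hu ((SimpleGraph.fromEdgeSet ω).connectedComponentMk y)
      (by show Set.Infinite _; rw [supp_eq]; exact hy)
    exact SimpleGraph.ConnectedComponent.exact (h1.trans h2.symm)
  · rintro ⟨⟨x, hx⟩, h⟩
    refine ⟨(SimpleGraph.fromEdgeSet ω).connectedComponentMk x, ?_, ?_⟩
    · show Set.Infinite _
      rw [supp_eq]
      exact hx
    · intro c hc
      induction c using SimpleGraph.ConnectedComponent.ind with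
      | _ y =>
        have hc' : Set.Infinite ((SimpleGraph.fromEdgeSet ω).connectedComponentMk y).supp := hc
        rw [supp_eq] at hc'
        exact SimpleGraph.ConnectedComponent.sound (h y x hc' hx)

end MSB_

open MSB_ in
theorem msb_proof : Stmt_MSB := by
  intro V _
  refine ⟨fun x y => measurableSet_setOfPred.2 (meas_reach x y), fun x => meas_inf x, ?_, ?_⟩
  · have h : {ω : Set (Sym2 V) | SomeInfinite ω} = {ω | ∃ x, InfAt x ω} := by
      ext ω
      exact some_iff ω
    rw [h]
    exact measurableSet_setOfPred.2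
      (Measurable.exists fun x => measurableSet_setOfPred.1 (meas_inf x))
  · have h : {ω : Set (Sym2 V) | OneInfinite ω} = {ω | (∃ x, InfAt x ω) ∧
        ∀ x y, InfAt x ω → InfAt y ω → (SimpleGraph.fromEdgeSet ω).Reachable x y} := by
      ext ω
      exact one_iff ω
    rw [h]
    refine measurableSet_setOfPred.2 (Measurable.and
      (Measurable.exists fun x => measurableSet_setOfPred.1 (meas_inf x)) ?_)
    refine Measurable.forall fun x => Measurable.forall fun y => ?_
    exact Measurable.imp (measurableSet_setOfPred.1 (meas_inf x))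
      (Measurable.imp (measurableSet_setOfPred.1 (meas_inf y)) (meas_reach x y))

end Pool.Agent.PCU
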