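import Pool.Agent.PCU.Stmts

/-!
# Squad PCU, module NUM: the numerical condition of the first theorem
-/

set_option autoImplicit false

namespace Pool.Agent.PCU

open MeasureTheory ProbabilityTheory
open scoped Classical

namespace NUM_

/-- the defect -/
noncomputable def F (d r p : ℝ) : ℝ :=
  p * d - 1 - p * (p * d * (2 - p * (r * d)) / (1 - p * (r * d)) ^ 2)

theorem poly (e : ℝ) (h0 : 0 < e) (h1 : e ≤ 1) :
    (1 + e / 3) ^ 2 * (1 + 2 * e / 3 + e ^ 2 / 3) < 11 * (4 / 27) * (1 + e / 2) ^ 2 := by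
  have e1 : e ^ 2 ≤ e := by nlinarith
  have e2 : e ^ 3 ≤ e ^ 2 := by nlinarith [sq_nonneg e]
  have e3 : e ^ 4 ≤ e ^ 3 := by nlinarith [pow_pos h0 3]
  nlinarith

theorem pos (d r : ℝ) (hd : 0 < d) (hr : 0 ≤ r) (hr1 : r < 1) (h : 11 ≤ d * (1 - r) ^ 3) :
    0 < F d r ((1 + (1 - r) / 3) / d) ∧ (1 + (1 - r) / 3) / d * (r * d) < 1 := by
  obtain ⟨e, he⟩ : ∃ e, e = 1 - r := ⟨_, rfl⟩
  have hre : r = 1 - e := by linarith
  subst hre
  have h0 : 0 < e := by linarith
  have h1 : e ≤ 1 := by linarith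
  have e0 : 1 - (1 - e) = e := by ring
  rw [e0] at h ⊢
  have ex : (1 + e / 3) / d * ((1 - e) * d) = 1 - 2 * e / 3 * (1 + e / 2) := by
    field_simp
    ring
  have hx : 0 < 2 * e / 3 * (1 + e / 2) := by positivity
  constructor
  · unfold F
    rw [ex]
    have e1 : (1 + e / 3) / d * d = 1 + e / 3 := by field_simp
    rw [e1]
    have e2 : (1 + e / 3 - 1 - (1 + e / 3) / d * ((1 + e / 3) * (2 - (1 - 2 * e / 3 * (1 + e / 2)))
        / (1 - (1 - 2 * e / 3 * (1 + e / 2))) ^ 2)) =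
        (d * e ^ 3 * ((4 / 27) * (1 + e / 2) ^ 2) -
          (1 + e / 3) ^ 2 * (1 + 2 * e / 3 + e ^ 2 / 3)) /
          (d * (2 * e / 3 * (1 + e / 2)) ^ 2) := by
      have : (1 - (1 - 2 * e / 3 * (1 + e / 2))) = 2 * e / 3 * (1 + e / 2) := by ring
      rw [this]
      field_simp
      ring
    rw [e2]
    apply div_pos _ (by positivity)
    have h2 := poly e h0 h1
    have h3 : 11 * ((4 / 27) * (1 + e / 2) ^ 2) ≤ d * e ^ 3 * ((4 / 27) * (1 + e / 2) ^ 2) :=
      mul_le_mul_of_nonneg_right h (by positivity)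
    linarith
  · rw [ex]
    linarith

end NUM_

open NUM_ in
theorem num_proof : Stmt_NUM := by
  intro d r hr h
  have hd0 : (0 : ℝ) ≤ d := Nat.cast_nonneg d
  have hr1 : r < 1 := by
    by_contra hcon
    have h1 : (1 - r) ^ 3 ≤ 0 := by
      have : 1 - r ≤ 0 := by linarith
      have h2 : 0 ≤ (1 - r) ^ 2 := sq_nonneg _
      nlinarith
    nlinarith
  have hd11 : (11 : ℝ) ≤ d := by
    have h1 : (1 - r) ^ 3 ≤ 1 := by
      apply pow_le_one₀ <;> linarith
    nlinarith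
  have hd : (0 : ℝ) < d := by linarith
  obtain ⟨hF, hx⟩ := pos (d : ℝ) r hd hr hr1 h
  set p₀ : ℝ := (1 + (1 - r) / 3) / d with hp₀
  have hp0 : 0 < p₀ := by
    rw [hp₀]
    apply div_pos _ hd
    linarith
  have hp01 : p₀ < 1 := by
    rw [hp₀, div_lt_one hd]
    linarith
  have hc : ContinuousAt (fun p => F (d : ℝ) r p) p₀ := by
    unfold F
    have : (1 - p₀ * (r * d)) ^ 2 ≠ 0 := by
      apply pow_ne_zero
      linarith
    fun_prop (disch := exact this)
  have ev1 : ∀ᶠ p in nhds p₀, 0 < F (d : ℝ) r p := hc.eventually (lt_mem_nhds hF)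
  have ev2 : ∀ᶠ p in nhds p₀, p < 1 := gt_mem_nhds hp01
  have ev3 : ∀ᶠ p in nhds p₀, p * (r * d) < 1 := by
    have : ContinuousAt (fun p : ℝ => p * (r * d)) p₀ := by fun_prop
    exact this.eventually (gt_mem_nhds hx)
  obtain ⟨ε, hε, hall⟩ := Metric.eventually_nhds_iff.1 (ev1.and (ev2.and ev3))
  have hdist : ∀ p, p₀ ≤ p → p ≤ p₀ + ε / 2 → dist p p₀ < ε := by
    intro p h1 h2
    rw [Real.dist_eq, abs_of_nonneg (by linarith)]
    linarith
  refine ⟨p₀, p₀ + ε / 2, hp0, by linarith, ?_, ?_, ?_⟩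
  · exact (hall (hdist _ (by linarith) le_rfl)).2.1
  · exact (hall (hdist _ (by linarith) le_rfl)).2.2
  · intro p h1 h2
    have := (hall (hdist p h1 h2)).1
    unfold F at this
    linarith

end Pool.Agent.PCU
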