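import Pool.Agent.PCU.Stmts

/-!
# Squad PCU: numbers of walks
-/

set_option autoImplicit false

namespace Pool.Agent.PCU

open MeasureTheory ProbabilityTheory
open scoped Classical

namespace NWK_

variable {V : Type}

lemma nw_zero (G : SimpleGraph V) [G.LocallyFinite] (x y : V) :
    nw G 0 x y = if x = y then 1 else 0 := rfl

lemma nw_succ (G : SimpleGraph V) [G.LocallyFinite] (n : ℕ) (x y : V) :
    nw G (n + 1) x y = ∑ z ∈ G.neighborFinset x, nw G n z y := rfl

lemma nonneg (G : SimpleGraph V) [G.LocallyFinite] :
    ∀ (n : ℕ) (x y : V), 0 ≤ nw G n x y := by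
  intro n
  induction n with
  | zero =>
    intro x y
    rw [nw_zero]
    split_ifs <;> norm_num
  | succ n ih =>
    intro x y
    rw [nw_succ]
    exact Finset.sum_nonneg fun z _ => ih z y

/-- walks, counted from the end -/
lemma nw_succ' (G : SimpleGraph V) [G.LocallyFinite] :
    ∀ (n : ℕ) (x y : V), nw G (n + 1) x y = ∑ z ∈ G.neighborFinset y, nw G n x z := by
  intro n
  induction n with
  | zero =>
    intro x y
    rw [nw_succ]
    simp only [nw_zero]
    rw [Finset.sum_ite_eq' (G.neighborFinset x) y (fun _ => (1 : ℝ)),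
      Finset.sum_ite_eq (G.neighborFinset y) x (fun _ => (1 : ℝ))]
    simp only [SimpleGraph.mem_neighborFinset]
    by_cases h : G.Adj x y
    · rw [if_pos h, if_pos h.symm]
    · rw [if_neg h, if_neg (fun h' => h h'.symm)]
  | succ n ih =>
    intro x y
    rw [nw_succ]
    have h1 : ∀ z, nw G (n + 1) z y = ∑ w ∈ G.neighborFinset y, nw G n z w := fun z => ih z y
    simp_rw [h1]
    rw [Finset.sum_comm]
    refine Finset.sum_congr rfl fun w _ => ?_
    rw [nw_succ]

lemma symm (G : SimpleGraph V) [G.LocallyFinite] :
    ∀ (n : ℕ) (x y : V), nw G n x y = nw G n y x := by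
  intro n
  induction n with
  | zero =>
    intro x y
    rw [nw_zero, nw_zero]
    by_cases h : x = y
    · rw [if_pos h, if_pos h.symm]
    · rw [if_neg h, if_neg (fun h' => h h'.symm)]
  | succ n ih =>
    intro x y
    rw [nw_succ, nw_succ']
    exact Finset.sum_congr rfl fun z _ => ih z y

lemma comp (G : SimpleGraph V) [G.LocallyFinite] :
    ∀ (m n : ℕ) (x y : V) (T : Finset V),
      ∑ z ∈ T, nw G m x z * nw G n z y ≤ nw G (m + n) x y := by
  intro m
  induction m with
  | zero =>
    intro n x y T
    rw [Nat.zero_add]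
    by_cases hx : x ∈ T
    · rw [Finset.sum_eq_single_of_mem x hx]
      · rw [nw_zero, if_pos rfl, one_mul]
      · intro z _ hz
        rw [nw_zero, if_neg (Ne.symm hz), zero_mul]
    · rw [Finset.sum_eq_zero]
      · exact nonneg G n x y
      · intro z hz
        have hxz : x ≠ z := by
          rintro rfl
          exact hx hz
        rw [nw_zero, if_neg hxz, zero_mul]
  | succ m ih =>
    intro n x y T
    have h2 : nw G (m + 1 + n) x y = ∑ z' ∈ G.neighborFinset x, nw G (m + n) z' y := by
      rw [show m + 1 + n = (m + n) + 1 by ring]; rfl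
    rw [h2]
    simp_rw [nw_succ G m x, Finset.sum_mul]
    rw [Finset.sum_comm]
    exact Finset.sum_le_sum fun z' _ => ih n z' y T

lemma walks (G : SimpleGraph V) [G.LocallyFinite] :
    ∀ (n : ℕ) (x y : V), ∃ W : Finset (G.Walk x y), (W.card : ℝ) = nw G n x y ∧
      ∀ P : G.Walk x y, P ∈ W ↔ P.length = n := by
  intro n
  induction n with
  | zero =>
    intro x y
    rw [nw_zero]
    by_cases h : x = y
    · subst h
      refine ⟨{SimpleGraph.Walk.nil}, by simp, fun P => ?_⟩
      rw [Finset.mem_singleton]
      constructor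
      · rintro rfl; rfl
      · intro h
        cases P with
        | nil => rfl
        | cons h' Q => exact absurd h (by simp)
    · refine ⟨∅, by simp [h], fun P => ?_⟩
      constructor
      · intro h'
        exact absurd h' (Finset.notMem_empty _)
      · intro h'
        exact absurd (SimpleGraph.Walk.eq_of_length_eq_zero h') h
  | succ n ih =>
    intro x y
    choose W hW1 hW2 using fun z => ih z y
    let c : (z : {z // z ∈ G.neighborFinset x}) → G.Walk z.1 y ↪ G.Walk x y := fun z =>
      ⟨fun P => SimpleGraph.Walk.cons ((G.mem_neighborFinset x z.1).1 z.2) P, fun P Q h => by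
        simpa using h⟩
    refine ⟨(G.neighborFinset x).attach.biUnion fun z => (W z.1).map (c z), ?_, ?_⟩
    · rw [Finset.card_biUnion]
      · rw [nw_succ, ← Finset.sum_attach (G.neighborFinset x) (fun z => nw G n z y), Nat.cast_sum]
        refine Finset.sum_congr rfl fun z _ => ?_
        rw [Finset.card_map, hW1]
      · intro z _ z' _ hz
        rw [Function.onFun, Finset.disjoint_left]
        intro P hP hP'
        rw [Finset.mem_map] at hP hP'
        obtain ⟨Q, _, hQ⟩ := hP
        obtain ⟨Q', _, hQ'⟩ := hP'
        rw [← hQ'] at hQ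
        apply hz
        apply Subtype.ext
        have h3 : (SimpleGraph.Walk.cons ((G.mem_neighborFinset x z.1).1 z.2) Q).getVert 1 =
            (SimpleGraph.Walk.cons ((G.mem_neighborFinset x z'.1).1 z'.2) Q').getVert 1 :=
          congrArg (fun R : G.Walk x y => R.getVert 1) hQ
        simpa using h3
    · intro P
      rw [Finset.mem_biUnion]
      constructor
      · rintro ⟨z, _, hP⟩
        rw [Finset.mem_map] at hP
        obtain ⟨Q, hQ, rfl⟩ := hP
        have h4 := (hW2 z.1 Q).1 hQ
        show (SimpleGraph.Walk.cons _ Q).length = n + 1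
        rw [SimpleGraph.Walk.length_cons, h4]
      · intro hP
        cases P with
        | nil => exact absurd hP (by simp)
        | @cons _ z _ h Q =>
          refine ⟨⟨z, (G.mem_neighborFinset x z).2 h⟩, Finset.mem_attach _ _, ?_⟩
          rw [Finset.mem_map]
          refine ⟨Q, (hW2 z Q).2 ?_, rfl⟩
          rw [SimpleGraph.Walk.length_cons] at hP
          omega

end NWK_

theorem nwk_proof : Stmt_NWK := by
  intro V G _
  exact ⟨NWK_.nonneg G, NWK_.symm G, NWK_.comp G, NWK_.walks G⟩

end Pool.Agent.PCU
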