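import Pool.Agent.PCU.Stmts

/-!
# Squad PCU: module PHI (the main inequality)
-/

set_option autoImplicit false

namespace Pool.Agent.PCU

open MeasureTheory ProbabilityTheory
open scoped Classical

namespace PHI_

variable {V : Type}

theorem tau_nonneg {G : SimpleGraph V} {S : Finset V} {p : ℝ} (h0 : 0 ≤ p) (h1 : p ≤ 1)
    (o x : V) : 0 ≤ tau G S p o x := Pr_nonneg h0 h1 _ _

theorem tau_self (G : SimpleGraph V) (S : Finset V) (p : ℝ) (o : V) : tau G S p o o = 1 := by
  refine (Ex_congr p _ fun ω _ => ?_).trans (Ex_const p (EI G S) 1)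
  exact if_pos (Rc.refl ω o)

/-- expectation of a sum over the cluster -/
theorem Ex_cl (G : SimpleGraph V) (S : Finset V) (p : ℝ) (o : V) (g : V → ℝ) :
    Ex p (EI G S) (fun ω => ∑ x ∈ cl S o ω, g x) = ∑ x ∈ S, g x * tau G S p o x := by
  have h1 : ∀ ω : Finset (Sym2 V), ∑ x ∈ cl S o ω, g x =
      ∑ x ∈ S, g x * (if Rc ω o x then 1 else 0) := by
    intro ω
    unfold cl
    rw [Finset.sum_filter]
    refine Finset.sum_congr rfl fun x _ => ?_
    split_ifs <;> ring
  simp_rw [h1]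
  rw [Ex_sum]
  refine Finset.sum_congr rfl fun x _ => ?_
  rw [Ex_mul_left]
  rfl

theorem card_split (G : SimpleGraph V) [G.LocallyFinite] (S : Finset V) (o x : V)
    (ω : Finset (Sym2 V)) :
    G.degree x = (G.neighborFinset x \ S).card + ((cl S o ω).filter fun y => G.Adj x y).card +
      (S.filter fun y => G.Adj x y ∧ ¬ Rc ω o y).card := by
  rw [← SimpleGraph.card_neighborFinset_eq_degree,
    ← Finset.card_sdiff_add_card_inter (G.neighborFinset x) S, add_assoc]
  congr 1
  rw [← Finset.card_filter_add_card_filter_not (s := G.neighborFinset x ∩ S)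
    (fun y => Rc ω o y)]
  congr 1
  · congr 1
    ext y
    simp only [cl, Finset.mem_filter, Finset.mem_inter, SimpleGraph.mem_neighborFinset]
    tauto
  · congr 1
    ext y
    simp only [Finset.mem_filter, Finset.mem_inter, SimpleGraph.mem_neighborFinset]
    tauto

end PHI_

theorem phi_proof (hBRI : Stmt_BRI) (hTRI : Stmt_TRI) (hWLK : Stmt_WLK) (hSRS : Stmt_SRS) :
    Stmt_PHI := by
  intro V G _ d r p S o hr hR hd ho hp0 hp1 hprd hM
  set M : ℝ := p * d * (2 - p * (r * d)) / (1 - p * (r * d)) ^ 2 with hMdef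
  set χ : ℝ := ∑ x ∈ S, tau G S p o x with hχ
  have hp0' : 0 ≤ p := hp0.le
  have hp1' : p ≤ 1 := hp1.le
  have h1χ : 1 ≤ χ := by
    rw [hχ, ← PHI_.tau_self G S p o]
    exact Finset.single_le_sum (f := fun x => tau G S p o x)
      (fun x _ => PHI_.tau_nonneg hp0' hp1' o x) ho
  have hT : Ex p (EI G S) (fun ω => ∑ x ∈ cl S o ω,
        (((cl S o ω).filter fun y => G.Adj x y).card : ℝ)) ≤ M * χ := by
    refine hTRI V G S o p M ho hp0' hp1' ?_
    intro w _
    refine le_trans (Finset.sum_le_sum fun n hn => ?_)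
      (hSRS d p r S.card hp0' hr (Nat.cast_nonneg d) hprd)
    rw [Finset.mem_Icc] at hn
    refine mul_le_mul_of_nonneg_left ((hWLK V G d r hr hR hd).1 n w hn.1) ?_
    positivity
  have hB := hBRI V G S o p ho hp0 hp1
  rw [← hχ] at hB
  have hS : Ex p (EI G S) (fun ω => ∑ x ∈ cl S o ω,
        ((S.filter fun y => G.Adj x y ∧ ¬ Rc ω o y).card : ℝ)) =
      (∑ x ∈ S, ((d : ℝ) - ((G.neighborFinset x \ S).card : ℝ)) * tau G S p o x) -
        Ex p (EI G S) (fun ω => ∑ x ∈ cl S o ω,
          (((cl S o ω).filter fun y => G.Adj x y).card : ℝ)) := by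
    rw [← PHI_.Ex_cl, ← Ex_sub]
    refine Ex_congr p _ fun ω _ => ?_
    rw [← Finset.sum_sub_distrib]
    refine Finset.sum_congr rfl fun x _ => ?_
    have h2 := PHI_.card_split G S o x ω
    rw [hd x] at h2
    have h3 : (d : ℝ) = ((G.neighborFinset x \ S).card : ℝ) +
        (((cl S o ω).filter fun y => G.Adj x y).card : ℝ) +
        ((S.filter fun y => G.Adj x y ∧ ¬ Rc ω o y).card : ℝ) := by
      exact_mod_cast h2
    linarith
  have hphi : phi G S p o =
      p * ∑ x ∈ S, ((G.neighborFinset x \ S).card : ℝ) * tau G S p o x := rfl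
  have hsum : ∑ x ∈ S, ((d : ℝ) - ((G.neighborFinset x \ S).card : ℝ)) * tau G S p o x =
      d * χ - ∑ x ∈ S, ((G.neighborFinset x \ S).card : ℝ) * tau G S p o x := by
    rw [hχ, Finset.mul_sum, ← Finset.sum_sub_distrib]
    exact Finset.sum_congr rfl fun x _ => by ring
  rw [hS, hsum] at hB
  rw [hphi]
  set Q : ℝ := ∑ x ∈ S, ((G.neighborFinset x \ S).card : ℝ) * tau G S p o x with hQ
  set W : ℝ := Ex p (EI G S) (fun ω => ∑ x ∈ cl S o ω,
          (((cl S o ω).filter fun y => G.Adj x y).card : ℝ)) with hW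
  have h4 : p * W ≤ p * (M * χ) := mul_le_mul_of_nonneg_left hT hp0'
  have h5 : 0 ≤ (p * d - 1 - p * M) * χ :=
    mul_nonneg (by linarith) (by linarith)
  have h6 : 0 ≤ p * (χ - 1) := mul_nonneg hp0' (by linarith)
  nlinarith [h4, h5, h6, hB]

end Pool.Agent.PCU
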