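import Pool.Agent.PCU.Stmts

/-!
# Squad PCU, module RHO (helper53)
-/

set_option autoImplicit false

namespace Pool.Agent.PCU

open MeasureTheory ProbabilityTheory
open scoped Classical

namespace RHO_

variable {V : Type} (G : SimpleGraph V) [G.LocallyFinite]

theorem sum_nbr (f : V →₀ ℝ) (x : V) (c : ℝ → ℝ) (hc : c 0 = 0) :
    ∑ y ∈ G.neighborFinset x, c (f y) = ∑ y ∈ f.support.filter (fun y => G.Adj x y), c (f y) := by
  have h1 : f.support.filter (fun y => G.Adj x y) ⊆ G.neighborFinset x := by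
    intro y hy
    rw [SimpleGraph.mem_neighborFinset]
    exact (Finset.mem_filter.mp hy).2
  rw [← Finset.sum_subset h1]
  intro y hy hy'
  have h2 : f y = 0 := by
    by_contra h
    apply hy'
    rw [Finset.mem_filter, Finsupp.mem_support_iff]
    exact ⟨h, (SimpleGraph.mem_neighborFinset _ _ _).mp hy⟩
  rw [h2, hc]

theorem one (d : ℕ) (hd : ∀ x, G.degree x = d) : RayleighLE G 1 := by
  intro f
  have h1 : ∑ x ∈ f.support, ∑ y ∈ G.neighborFinset x, f x * f y ≤
      ∑ x ∈ f.support, ∑ y ∈ f.support.filter (fun y => G.Adj x y), (f x ^ 2 / 2 + f y ^ 2 / 2) := by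
    apply Finset.sum_le_sum
    intro x _
    rw [sum_nbr G f x (fun t => f x * t) (mul_zero _)]
    apply Finset.sum_le_sum
    intro y _
    nlinarith [sq_nonneg (f x - f y)]
  have h2 : ∑ x ∈ f.support, ∑ y ∈ f.support.filter (fun y => G.Adj x y), f y ^ 2 / 2 =
      ∑ x ∈ f.support, ∑ y ∈ f.support.filter (fun y => G.Adj x y), f x ^ 2 / 2 := by
    simp_rw [Finset.sum_filter]
    rw [Finset.sum_comm]
    apply Finset.sum_congr rfl
    intro x _
    apply Finset.sum_congr rfl
    intro y _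
    simp only [G.adj_comm]
  have h3 : ∀ x ∈ f.support, ∑ _y ∈ f.support.filter (fun y => G.Adj x y), f x ^ 2 / 2 ≤
      (d : ℝ) * (f x ^ 2 / 2) := by
    intro x _
    rw [Finset.sum_const, nsmul_eq_mul]
    apply mul_le_mul_of_nonneg_right _ (by positivity)
    have h4 : f.support.filter (fun y => G.Adj x y) ⊆ G.neighborFinset x := by
      intro y hy
      rw [SimpleGraph.mem_neighborFinset]
      exact (Finset.mem_filter.mp hy).2
    have h5 := Finset.card_le_card h4
    rw [SimpleGraph.card_neighborFinset_eq_degree, hd] at h5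
    exact_mod_cast h5
  calc ∑ x ∈ f.support, ∑ y ∈ G.neighborFinset x, f x * f y
      ≤ ∑ x ∈ f.support, ∑ y ∈ f.support.filter (fun y => G.Adj x y),
          (f x ^ 2 / 2 + f y ^ 2 / 2) := h1
    _ = ∑ x ∈ f.support, ∑ y ∈ f.support.filter (fun y => G.Adj x y), f x ^ 2 / 2 +
          ∑ x ∈ f.support, ∑ y ∈ f.support.filter (fun y => G.Adj x y), f y ^ 2 / 2 := by
        rw [← Finset.sum_add_distrib]
        apply Finset.sum_congr rfl
        intro x _
        rw [Finset.sum_add_distrib]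
    _ = ∑ x ∈ f.support, (∑ y ∈ f.support.filter (fun y => G.Adj x y), f x ^ 2 / 2 +
          ∑ y ∈ f.support.filter (fun y => G.Adj x y), f x ^ 2 / 2) := by
        rw [h2, ← Finset.sum_add_distrib]
    _ ≤ ∑ x ∈ f.support, ((d : ℝ) * (f x ^ 2 / 2) + (d : ℝ) * (f x ^ 2 / 2)) :=
        Finset.sum_le_sum fun x hx => add_le_add (h3 x hx) (h3 x hx)
    _ = 1 * ∑ x ∈ f.support, (G.degree x : ℝ) * f x ^ 2 := by
        rw [one_mul]
        apply Finset.sum_congr rfl
        intro x _
        rw [hd]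
        ring

theorem nonneg [Nonempty V] (d : ℕ) (h1 : 1 ≤ d) (hd : ∀ x, G.degree x = d) (r : ℝ)
    (hr : RayleighLE G r) : 0 ≤ r := by
  obtain ⟨x⟩ := (inferInstance : Nonempty V)
  have h2 := hr (Finsupp.single x 1)
  have h3 : (Finsupp.single x (1 : ℝ)).support = {x} := Finsupp.support_single_ne_zero x one_ne_zero
  rw [h3, Finset.sum_singleton, Finset.sum_singleton, hd, Finsupp.single_eq_same] at h2
  have h4 : ∑ y ∈ G.neighborFinset x, (1 : ℝ) * (Finsupp.single x (1 : ℝ)) y = 0 := by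
    apply Finset.sum_eq_zero
    intro y hy
    have h5 : y ≠ x := (G.ne_of_adj ((SimpleGraph.mem_neighborFinset _ _ _).mp hy)).symm
    rw [Finsupp.single_eq_of_ne h5, mul_zero]
  rw [h4] at h2
  have h6 : (1 : ℝ) ≤ d := by exact_mod_cast h1
  by_contra h
  push Not at h
  nlinarith

end RHO_

theorem rho_proof : Stmt_RHO := by
  intro V _ G _ d h1 hd
  have hne : {r : ℝ | RayleighLE G r}.Nonempty := ⟨1, RHO_.one G d hd⟩
  have hbd : BddBelow {r : ℝ | RayleighLE G r} := ⟨0, fun r hr => RHO_.nonneg G d h1 hd r hr⟩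
  refine ⟨le_csInf hne fun r hr => RHO_.nonneg G d h1 hd r hr, ?_, fun r hr => csInf_le hbd hr⟩
  intro f
  have hb : 0 ≤ ∑ x ∈ f.support, (G.degree x : ℝ) * f x ^ 2 :=
    Finset.sum_nonneg fun x _ => by positivity
  rcases hb.eq_or_lt with hb | hb
  · have h2 := RHO_.one G d hd f
    rw [← hb, mul_zero] at h2 ⊢
    exact h2
  · rw [← div_le_iff₀ hb]
    apply le_csInf hne
    intro r hr
    rw [div_le_iff₀ hb]
    exact hr f

end Pool.Agent.PCU
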