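import Pool.Agent.PCU.Stmts

/-!
# Squad PCU, module SRS (helper53)
-/

set_option autoImplicit false

namespace Pool.Agent.PCU

open MeasureTheory ProbabilityTheory
open scoped Classical

namespace SRS_

theorem geom (x : ℝ) (N : ℕ) :
    (1 - x) ^ 2 * ∑ m ∈ Finset.range N, ((m : ℝ) + 2) * x ^ m =
      2 - x - ((N : ℝ) + 2) * x ^ N + ((N : ℝ) + 1) * x ^ (N + 1) := by
  induction N with
  | zero => simp
  | succ N ih =>
    rw [Finset.sum_range_succ, mul_add, ih]
    push_cast
    ring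

theorem shift (d p r : ℝ) (N : ℕ) :
    ∑ n ∈ Finset.Icc 1 N, ((n : ℝ) + 1) * p ^ n * ((r * d) ^ (n - 1) * d) =
      p * d * ∑ m ∈ Finset.range N, ((m : ℝ) + 2) * (p * (r * d)) ^ m := by
  induction N with
  | zero => simp
  | succ N ih =>
    rw [Finset.sum_Icc_succ_top (by omega), ih, Finset.sum_range_succ, mul_add]
    congr 1
    rw [Nat.add_sub_cancel, mul_pow p]
    push_cast
    ring

end SRS_

theorem srs_proof : Stmt_SRS := by
  intro d p r N hp hr hd hx
  rw [SRS_.shift]
  have hx0 : 0 ≤ p * (r * d) := by positivity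
  set x := p * (r * d) with hxdef
  have h1 : 0 < (1 - x) ^ 2 := by
    have : 0 < 1 - x := by linarith
    positivity
  have h2 := SRS_.geom x N
  have h3 : x ^ (N + 1) ≤ x ^ N := by
    rw [pow_succ]
    exact mul_le_of_le_one_right (by positivity) hx.le
  have h4 : (1 - x) ^ 2 * ∑ m ∈ Finset.range N, ((m : ℝ) + 2) * x ^ m ≤ 2 - x := by
    rw [h2]
    have h5 : 0 ≤ x ^ N := by positivity
    have h6 : ((N : ℝ) + 1) * x ^ (N + 1) ≤ ((N : ℝ) + 1) * x ^ N :=
      mul_le_mul_of_nonneg_left h3 (by positivity)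
    nlinarith
  rw [mul_div_assoc]
  apply mul_le_mul_of_nonneg_left _ (by positivity)
  rw [le_div_iff₀ h1, mul_comm]
  exact h4

end Pool.Agent.PCU
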