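import Pool.Agent.PCU.Stmts

/-!
# Squad PCU, module TRD: two arms (deterministic)
-/

set_option autoImplicit false

namespace Pool.Agent.PCU

open MeasureTheory ProbabilityTheory
open scoped Classical

namespace TRD_

/-- everything reachable from a point of `S` by edges inside `S` is in `S` -/
theorem mem_of_walk {V : Type} {G : SimpleGraph V} {S : Finset V} {ω : Finset (Sym2 V)}
    (hω : ω ⊆ EI G S) {a b : V}
    (p : (SimpleGraph.fromEdgeSet (ω : Set (Sym2 V))).Walk a b) : a ∈ S → b ∈ S := by
  induction p with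
  | nil => exact id
  | cons h p ih =>
    intro _
    rw [SimpleGraph.fromEdgeSet_adj] at h
    have h1 : _ ∈ EI G S := hω (Finset.mem_coe.1 h.1)
    rw [mem_EI] at h1
    exact ih h1.2.2

/-- first hitting of a path -/
theorem first_hit {V : Type} {ω : Finset (Sym2 V)} {u y : V}
    (p : (SimpleGraph.fromEdgeSet (ω : Set (Sym2 V))).Walk u y) {a b : V}
    (q : (SimpleGraph.fromEdgeSet (ω : Set (Sym2 V))).Walk a b) :
    b ∈ p.support → ∃ w ∈ p.support, Rc (ω \ p.edges.toFinset) a w := by
  induction q with
  | nil => exact fun h => ⟨_, h, Rc.refl _ _⟩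
  | @cons a a' b h q ih =>
    intro hb
    by_cases ha : a ∈ p.support
    · exact ⟨a, ha, Rc.refl _ _⟩
    · obtain ⟨w, hw, hr⟩ := ih hb
      refine ⟨w, hw, Rc.trans (Rc.edge ?_) hr⟩
      rw [SimpleGraph.fromEdgeSet_adj] at h
      rw [Finset.mem_sdiff, List.mem_toFinset]
      exact ⟨Finset.mem_coe.1 h.1, fun h2 => ha (p.fst_mem_support_of_mem_edges h2)⟩

end TRD_

theorem trd_proof : Stmt_TRD := by
  intro V G S o u y ω hω ho huy hu hy
  obtain ⟨p, hp⟩ := (Rc.trans (Rc.symm hu) hy : Rc ω u y).exists_isPath
  obtain ⟨q⟩ := hu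
  obtain ⟨w, hw, hr⟩ := TRD_.first_hit p q p.start_mem_support
  have huS : u ∈ S := TRD_.mem_of_walk hω q ho
  have hsup : ∀ x ∈ p.support, x ∈ S := fun x hx =>
    TRD_.mem_of_walk hω (p.takeUntil x hx) huS
  have hedge : ∀ e ∈ p.edges, e ∈ ω := by
    intro e he
    have h1 := p.edges_subset_edgeSet he
    rw [SimpleGraph.edgeSet_fromEdgeSet] at h1
    exact Finset.mem_coe.1 h1.1
  have hG : ∀ e ∈ ω, e ∈ G.edgeSet := by
    intro e he
    have h1 := hω he
    unfold EI at h1
    exact (Finset.mem_filter.1 h1).2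
  have hspec : (p.takeUntil w hw).edges ++ (p.dropUntil w hw).edges = p.edges := by
    rw [← SimpleGraph.Walk.edges_append, SimpleGraph.Walk.take_spec]
  have hlen : (p.takeUntil w hw).length + (p.dropUntil w hw).length = p.length := by
    rw [← SimpleGraph.Walk.length_append, SimpleGraph.Walk.take_spec]
  have hA : ∀ e ∈ (p.takeUntil w hw).reverse.edges, e ∈ G.edgeSet := by
    intro e he
    rw [SimpleGraph.Walk.edges_reverse, List.mem_reverse] at he
    refine hG e (hedge e ?_)
    rw [← hspec]
    exact List.mem_append_left _ he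
  have hB : ∀ e ∈ (p.dropUntil w hw).edges, e ∈ G.edgeSet := by
    intro e he
    refine hG e (hedge e ?_)
    rw [← hspec]
    exact List.mem_append_right _ he
  have hE : ((p.takeUntil w hw).reverse.transfer G hA).edges ++
      ((p.dropUntil w hw).transfer G hB).edges =
      (p.takeUntil w hw).edges.reverse ++ (p.dropUntil w hw).edges := by
    rw [SimpleGraph.Walk.edges_transfer, SimpleGraph.Walk.edges_transfer,
      SimpleGraph.Walk.edges_reverse]
  have hperm : ((p.takeUntil w hw).edges.reverse ++ (p.dropUntil w hw).edges).Perm p.edges := by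
    rw [← hspec]
    exact (List.reverse_perm _).append_right _
  have hL : ((p.takeUntil w hw).reverse.transfer G hA).length +
      ((p.dropUntil w hw).transfer G hB).length = p.length := by
    rw [SimpleGraph.Walk.length_transfer, SimpleGraph.Walk.length_transfer,
      SimpleGraph.Walk.length_reverse, hlen]
  refine ⟨w, (p.takeUntil w hw).reverse.transfer G hA, (p.dropUntil w hw).transfer G hB,
    hsup w hw, ?_, ?_, ?_, ?_, ?_⟩
  · rw [hE]
    exact hperm.nodup_iff.2 hp.isTrail.edges_nodup
  · intro e he
    rw [hE] at he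
    exact hedge e (hperm.mem_iff.1 he)
  · rw [hL]
    rcases Nat.eq_zero_or_pos p.length with h0 | h0
    · exact absurd (SimpleGraph.Walk.eq_of_length_eq_zero h0) huy
    · exact h0
  · rw [hL]
    have h1 : p.support.toFinset ⊆ S := fun x hx => hsup x (List.mem_toFinset.1 hx)
    have h2 := Finset.card_le_card h1
    rw [List.toFinset_card_of_nodup hp.support_nodup, SimpleGraph.Walk.length_support] at h2
    omega
  · rw [hE]
    have h1 : ((p.takeUntil w hw).edges.reverse ++ (p.dropUntil w hw).edges).toFinset =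
        p.edges.toFinset := List.toFinset_eq_of_perm _ _ hperm
    rw [h1]
    exact hr

end Pool.Agent.PCU
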