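import Pool.Agent.PCU.Stmts

set_option autoImplicit false

namespace Pool.Agent.PCU

open MeasureTheory ProbabilityTheory
open scoped Classical

namespace TRI_

variable {V : Type}

/-- the event for a pair of walks -/
def Ev (D : List (Sym2 V)) (o w : V) (ω : Finset (Sym2 V)) : Prop :=
  D.Nodup ∧ (∀ e ∈ D, e ∈ ω) ∧ Rc (ω \ D.toFinset) o w

lemma gen {α : Type} (p : ℝ) (h0 : 0 ≤ p) (h1 : p ≤ 1) (E D : Finset α) (hD : D ⊆ E)
    (A : Finset α → Prop) (hA : ∀ ω ω' : Finset α, ω ⊆ ω' → A ω → A ω')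
    (F : Finset α → Finset α) (hF : ∀ ω e, e ∈ F ω ↔ e ∈ ω ∧ e ∉ D) :
    Pr p E (fun ω => D ⊆ ω ∧ A (F ω)) ≤ p ^ D.card * Pr p E A := by
  have e1 : Pr p E (fun ω => D ⊆ ω ∧ A (F ω)) =
      Pr p E (fun ω => (D ⊆ ω ∩ D) ∧ A (ω ∩ (E \ D))) := by
    refine Pr_congr p _ fun ω hω => ?_
    have e2 : ω ∩ (E \ D) = F ω := by
      ext e
      rw [hF, Finset.mem_inter, Finset.mem_sdiff]
      constructor
      · rintro ⟨a, _, b⟩; exact ⟨a, b⟩
      · rintro ⟨a, b⟩; exact ⟨a, hω a, b⟩
    rw [e2]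
    constructor
    · rintro ⟨a, b⟩
      exact ⟨Finset.subset_inter a (Finset.Subset.refl D), b⟩
    · rintro ⟨a, b⟩
      exact ⟨a.trans Finset.inter_subset_left, b⟩
  rw [e1, Pr_indep p hD Finset.sdiff_subset Finset.disjoint_sdiff (fun ω => D ⊆ ω) A,
    Pr_open p (Finset.Subset.refl _)]
  refine mul_le_mul_of_nonneg_left ?_ (pow_nonneg h0 _)
  rw [← Pr_local p (Finset.sdiff_subset : E \ D ⊆ E) A]
  exact Pr_mono h0 h1 _ fun ω _ h => hA _ _ Finset.inter_subset_left h

lemma pr_false {α : Type} (p : ℝ) (E : Finset α) : Pr p E (fun _ => False) = 0 := by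
  unfold Pr Ex
  simp

lemma pr_ev (G : SimpleGraph V) (S : Finset V) (o w : V) (p : ℝ) (h0 : 0 ≤ p) (h1 : p ≤ 1)
    (D : List (Sym2 V)) :
    Pr p (EI G S) (Ev D o w) ≤ p ^ D.length * tau G S p o w := by
  have ht : 0 ≤ tau G S p o w := Pr_nonneg h0 h1 _ _
  by_cases hn : D.Nodup
  · by_cases hE : D.toFinset ⊆ EI G S
    · have hcard : D.toFinset.card = D.length := List.toFinset_card_of_nodup hn
      rw [← hcard]
      refine le_trans ?_ (gen p h0 h1 (EI G S) D.toFinset hE (fun ω => Rc ω o w)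
        (fun ω ω' h h' => h'.mono h) (fun ω => ω \ D.toFinset) (fun ω e => Finset.mem_sdiff))
      refine Pr_mono h0 h1 _ fun ω _ h => ?_
      refine ⟨fun e he => h.2.1 e (List.mem_toFinset.1 he), h.2.2⟩
    · have e1 : Pr p (EI G S) (Ev D o w) ≤ Pr p (EI G S) (fun _ => False) := by
        refine Pr_mono h0 h1 _ fun ω hω h => ?_
        apply hE
        intro e he
        exact hω (h.2.1 e (List.mem_toFinset.1 he))
      rw [pr_false] at e1
      exact e1.trans (mul_nonneg (pow_nonneg h0 _) ht)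
  · have e1 : Pr p (EI G S) (Ev D o w) ≤ Pr p (EI G S) (fun _ => False) := by
      refine Pr_mono h0 h1 _ fun ω _ h => hn h.1
    rw [pr_false] at e1
    exact e1.trans (mul_nonneg (pow_nonneg h0 _) ht)

/-- the bound for a pair of points -/
lemma pr_pair (hTRD : Stmt_TRD) (hNWK : Stmt_NWK) (G : SimpleGraph V) [G.LocallyFinite]
    (S : Finset V) (o : V) (p : ℝ) (ho : o ∈ S) (h0 : 0 ≤ p) (h1 : p ≤ 1) (u y : V)
    (huy : u ≠ y) :
    Pr p (EI G S) (fun ω => Rc ω o u ∧ Rc ω o y) ≤
      ∑ w ∈ S, ∑ n ∈ Finset.Icc 1 S.card, ∑ i ∈ Finset.range (n + 1),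
        nw G i w u * nw G (n - i) w y * (p ^ n * tau G S p o w) := by
  obtain ⟨-, -, -, hW⟩ := hNWK V G
  choose W hWc hWm using hW
  refine (Pr_biUnion_le h0 h1 _ S _ (fun w ω => ∃ n ∈ Finset.Icc 1 S.card,
    ∃ i ∈ Finset.range (n + 1), ∃ P ∈ W i w u, ∃ Q ∈ W (n - i) w y,
      Ev (P.edges ++ Q.edges) o w ω) ?_).trans ?_
  · rintro ω hω ⟨ha, hb⟩
    obtain ⟨w, P, Q, hw, hnd, hmem, hl1, hl2, hr⟩ := hTRD V G S o u y ω hω ho huy ha hb
    refine ⟨w, hw, P.length + Q.length, Finset.mem_Icc.2 ⟨hl1, hl2⟩, P.length, ?_, P, ?_, Q, ?_, ?_⟩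
    · rw [Finset.mem_range]; omega
    · rw [hWm]
    · rw [hWm]; omega
    · exact ⟨hnd, hmem, hr⟩
  · refine Finset.sum_le_sum fun w hw => ?_
    refine (Pr_biUnion_le h0 h1 _ (Finset.Icc 1 S.card) _ (fun n ω =>
      ∃ i ∈ Finset.range (n + 1), ∃ P ∈ W i w u, ∃ Q ∈ W (n - i) w y,
      Ev (P.edges ++ Q.edges) o w ω) ?_).trans ?_
    · rintro ω _ ⟨n, hn, h⟩
      exact ⟨n, hn, h⟩
    · refine Finset.sum_le_sum fun n hn => ?_
      refine (Pr_biUnion_le h0 h1 _ (Finset.range (n + 1)) _ (fun i ω =>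
        ∃ P ∈ W i w u, ∃ Q ∈ W (n - i) w y, Ev (P.edges ++ Q.edges) o w ω) ?_).trans ?_
      · rintro ω _ ⟨i, hi, h⟩
        exact ⟨i, hi, h⟩
      · refine Finset.sum_le_sum fun i hi => ?_
        rw [Finset.mem_range] at hi
        refine (Pr_biUnion_le h0 h1 _ (W i w u) _ (fun P ω =>
          ∃ Q ∈ W (n - i) w y, Ev (P.edges ++ Q.edges) o w ω) ?_).trans ?_
        · rintro ω _ ⟨P, hP, h⟩
          exact ⟨P, hP, h⟩
        · rw [← hWc i w u, ← hWc (n - i) w y, mul_assoc, ← nsmul_eq_mul, ← Finset.sum_const]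
          refine Finset.sum_le_sum fun P hP => ?_
          refine (Pr_biUnion_le h0 h1 _ (W (n - i) w y) _ (fun Q ω =>
            Ev (P.edges ++ Q.edges) o w ω) ?_).trans ?_
          · rintro ω _ ⟨Q, hQ, h⟩
            exact ⟨Q, hQ, h⟩
          · rw [← nsmul_eq_mul, ← Finset.sum_const]
            refine Finset.sum_le_sum fun Q hQ => ?_
            refine (pr_ev G S o w p h0 h1 _).trans ?_
            rw [hWm] at hP hQ
            have e : (P.edges ++ Q.edges).length = n := by
              rw [List.length_append, SimpleGraph.Walk.length_edges,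
                SimpleGraph.Walk.length_edges, hP, hQ]
              omega
            rw [e]

end TRI_

open TRI_ in
theorem tri_proof (hTRD : Stmt_TRD) (hNWK : Stmt_NWK) : Stmt_TRI := by
  intro V G _ S o p M ho h0 h1 hM
  obtain ⟨hnn, hsymm, hcomp, -⟩ := hNWK V G
  have hstep : ∀ ω : Finset (Sym2 V), (∑ x ∈ cl S o ω,
        (((cl S o ω).filter fun y => G.Adj x y).card : ℝ)) =
      ∑ x ∈ S, ∑ y ∈ S.filter (fun y => G.Adj x y), if Rc ω o x ∧ Rc ω o y then (1 : ℝ) else 0 := by
    intro ω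
    unfold cl
    rw [Finset.sum_filter]
    refine Finset.sum_congr rfl fun x hx => ?_
    by_cases hxo : Rc ω o x
    · rw [if_pos hxo, Finset.filter_filter, Finset.card_eq_sum_ones, Nat.cast_sum, Finset.sum_filter,
        Finset.sum_filter]
      refine Finset.sum_congr rfl fun y _ => ?_
      by_cases ha : G.Adj x y <;> by_cases hb : Rc ω o y <;> simp [ha, hb, hxo]
    · rw [if_neg hxo]
      symm
      refine Finset.sum_eq_zero fun y _ => ?_
      rw [if_neg]
      exact fun h => hxo h.1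
  have e1 : Ex p (EI G S) (fun ω => ∑ x ∈ cl S o ω,
        (((cl S o ω).filter fun y => G.Adj x y).card : ℝ)) =
      ∑ x ∈ S, ∑ y ∈ S.filter (fun y => G.Adj x y),
        Pr p (EI G S) (fun ω => Rc ω o x ∧ Rc ω o y) := by
    rw [Ex_congr p (EI G S) (fun ω _ => hstep ω), Ex_sum]
    refine Finset.sum_congr rfl fun x _ => ?_
    rw [Ex_sum]
    refine Finset.sum_congr rfl fun y _ => ?_
    unfold Pr
    refine Ex_congr _ _ fun ω _ => ?_
    by_cases h : Rc ω o x ∧ Rc ω o y
    · simp [h]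
    · simp [h]
  rw [e1]
  have ht : ∀ w, 0 ≤ tau G S p o w := fun w => Pr_nonneg h0 h1 _ _
  calc ∑ x ∈ S, ∑ y ∈ S.filter (fun y => G.Adj x y),
        Pr p (EI G S) (fun ω => Rc ω o x ∧ Rc ω o y)
      ≤ ∑ x ∈ S, ∑ y ∈ S.filter (fun y => G.Adj x y),
        ∑ w ∈ S, ∑ n ∈ Finset.Icc 1 S.card, ∑ i ∈ Finset.range (n + 1),
          nw G i w x * nw G (n - i) w y * (p ^ n * tau G S p o w) := by
        refine Finset.sum_le_sum fun x _ => Finset.sum_le_sum fun y hy => ?_
        have hxy : x ≠ y := (Finset.mem_filter.1 hy).2.ne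
        exact pr_pair hTRD hNWK G S o p ho h0 h1 x y hxy
    _ = ∑ w ∈ S, ∑ n ∈ Finset.Icc 1 S.card, ∑ i ∈ Finset.range (n + 1),
        (∑ x ∈ S, ∑ y ∈ S.filter (fun y => G.Adj x y), nw G i w x * nw G (n - i) w y) *
          (p ^ n * tau G S p o w) := by
        have s1 : ∀ x ∈ S, ∑ y ∈ S.filter (fun y => G.Adj x y),
            ∑ w ∈ S, ∑ n ∈ Finset.Icc 1 S.card, ∑ i ∈ Finset.range (n + 1),
              nw G i w x * nw G (n - i) w y * (p ^ n * tau G S p o w) =
            ∑ w ∈ S, ∑ n ∈ Finset.Icc 1 S.card, ∑ i ∈ Finset.range (n + 1),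
              (∑ y ∈ S.filter (fun y => G.Adj x y), nw G i w x * nw G (n - i) w y) *
                (p ^ n * tau G S p o w) := by
          intro x _
          rw [Finset.sum_comm]
          refine Finset.sum_congr rfl fun w _ => ?_
          rw [Finset.sum_comm]
          refine Finset.sum_congr rfl fun n _ => ?_
          rw [Finset.sum_comm]
          refine Finset.sum_congr rfl fun i _ => ?_
          rw [Finset.sum_mul]
        rw [Finset.sum_congr rfl s1, Finset.sum_comm]
        refine Finset.sum_congr rfl fun w _ => ?_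
        rw [Finset.sum_comm]
        refine Finset.sum_congr rfl fun n _ => ?_
        rw [Finset.sum_comm]
        refine Finset.sum_congr rfl fun i _ => ?_
        rw [Finset.sum_mul]
    _ ≤ ∑ w ∈ S, ∑ n ∈ Finset.Icc 1 S.card, ∑ i ∈ Finset.range (n + 1),
        nw G (n + 1) w w * (p ^ n * tau G S p o w) := by
        refine Finset.sum_le_sum fun w _ => Finset.sum_le_sum fun n _ =>
          Finset.sum_le_sum fun i hi => ?_
        rw [Finset.mem_range] at hi
        refine mul_le_mul_of_nonneg_right ?_ (mul_nonneg (pow_nonneg h0 _) (ht w))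
        calc ∑ x ∈ S, ∑ y ∈ S.filter (fun y => G.Adj x y), nw G i w x * nw G (n - i) w y
            ≤ ∑ x ∈ S, nw G i w x * nw G (n - i + 1) x w := by
              refine Finset.sum_le_sum fun x _ => ?_
              rw [← Finset.mul_sum]
              refine mul_le_mul_of_nonneg_left ?_ (hnn _ _ _)
              calc ∑ y ∈ S.filter (fun y => G.Adj x y), nw G (n - i) w y
                  = ∑ y ∈ S.filter (fun y => G.Adj x y), nw G (n - i) y w :=
                    Finset.sum_congr rfl fun y _ => hsymm _ _ _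
                _ ≤ ∑ y ∈ G.neighborFinset x, nw G (n - i) y w := by
                    refine Finset.sum_le_sum_of_subset_of_nonneg ?_ fun y _ _ => hnn _ _ _
                    intro y hy
                    rw [SimpleGraph.mem_neighborFinset]
                    exact (Finset.mem_filter.1 hy).2
                _ = nw G (n - i + 1) x w := rfl
          _ ≤ nw G (i + (n - i + 1)) w w := hcomp i (n - i + 1) w w S
          _ = nw G (n + 1) w w := by
              have : i + (n - i + 1) = n + 1 := by omega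
              rw [this]
    _ = ∑ w ∈ S, (∑ n ∈ Finset.Icc 1 S.card, ((n : ℝ) + 1) * p ^ n * nw G (n + 1) w w) *
          tau G S p o w := by
        refine Finset.sum_congr rfl fun w _ => ?_
        rw [Finset.sum_mul]
        refine Finset.sum_congr rfl fun n _ => ?_
        rw [Finset.sum_const, Finset.card_range, nsmul_eq_mul]
        push_cast
        ring
    _ ≤ ∑ w ∈ S, M * tau G S p o w := by
        refine Finset.sum_le_sum fun w hw => ?_
        exact mul_le_mul_of_nonneg_right (hM w hw) (ht w)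
    _ = M * ∑ x ∈ S, tau G S p o x := by rw [Finset.mul_sum]

end Pool.Agent.PCU
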