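import Pool.Agent.PCU.Stmts

/-!
# Squad PCU (MP_8ee43e_pr): module TRP, invariance under automorphisms.
-/

set_option autoImplicit false

namespace Pool.Agent.PCU

open MeasureTheory ProbabilityTheory
open scoped Classical

namespace TRP_

variable {V : Type}

/-- the bijection of the pairs induced by a bijection of the vertices -/
def pairEquiv (φ : V ≃ V) : Sym2 V ≃ Sym2 V where
  toFun := Sym2.map φ
  invFun := Sym2.map φ.symm
  left_inv := by
    intro e
    rw [Sym2.map_map, Equiv.symm_comp_self, Sym2.map_id, id]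
  right_inv := by
    intro e
    rw [Sym2.map_map, Equiv.self_comp_symm, Sym2.map_id, id]

theorem inf_iff (φ : V ≃ V) (ω ω' : Set (Sym2 V)) (h : ∀ e, Sym2.map φ e ∈ ω' ↔ e ∈ ω) (x : V) :
    InfAt (φ x) ω' ↔ InfAt x ω := by
  let ψ : SimpleGraph.fromEdgeSet ω ≃g SimpleGraph.fromEdgeSet ω' :=
    { toEquiv := φ
      map_rel_iff' := by
        intro a b
        have h2 := h s(a, b)
        rw [Sym2.map_mk] at h2
        rw [SimpleGraph.fromEdgeSet_adj, SimpleGraph.fromEdgeSet_adj, h2, φ.injective.ne_iff] }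
  have e1 : {y | (SimpleGraph.fromEdgeSet ω').Reachable (φ x) y} =
      φ '' {y | (SimpleGraph.fromEdgeSet ω).Reachable x y} := by
    ext y
    rw [Set.mem_image]
    constructor
    · intro hy
      refine ⟨φ.symm y, ?_, φ.apply_symm_apply y⟩
      have h3 : (SimpleGraph.fromEdgeSet ω').Reachable (ψ x) (ψ (φ.symm y)) := by
        show (SimpleGraph.fromEdgeSet ω').Reachable (φ x) (φ (φ.symm y))
        rw [φ.apply_symm_apply]
        exact hy
      exact ψ.reachable_iff.mp h3
    · rintro ⟨z, hz, rfl⟩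
      exact ψ.reachable_iff.mpr hz
  unfold InfAt
  rw [e1]
  exact Set.infinite_image_iff φ.injective.injOn

end TRP_

theorem trp_proof : Stmt_TRP := by
  intro V _ G φ x p h
  obtain ⟨e, he⟩ : ∃ e : Sym2 V ≃ Sym2 V, e = TRP_.pairEquiv φ.toEquiv := ⟨_, rfl⟩
  have hea : ∀ a, e a = Sym2.map φ a := fun a => by rw [he]; rfl
  have hu : ∀ i, (e i ∈ G.edgeSet) = (i ∈ G.edgeSet) := by
    intro i
    rw [hea, eq_iff_iff]
    exact φ.map_mem_edgeSet_iff
  rw [setBernoulli_apply', setBernoulli_apply']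
  obtain ⟨μ, hμ⟩ : ∃ μ : Sym2 V → Measure Prop, μ = fun i =>
      unitInterval.toNNReal ⟨p, h⟩ • Measure.dirac (i ∈ G.edgeSet) +
        unitInterval.toNNReal (unitInterval.symm ⟨p, h⟩) • Measure.dirac False := ⟨_, rfl⟩
  have hpr : ∀ i, IsProbabilityMeasure (μ i) := by
    intro i
    rw [hμ]
    infer_instance
  have hμe : (fun i => μ (e i)) = μ := by
    funext i
    rw [hμ]
    simp only [hu]
  have key : (Measure.infinitePi fun i => μ (e i)).map
      (MeasurableEquiv.piCongrLeft (fun _ => Prop) e) = Measure.infinitePi μ :=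
    Measure.infinitePi_map_piCongrLeft (X := fun _ => Prop) μ e
  rw [hμe] at key
  rw [← hμ]
  conv_lhs => rw [← key]
  rw [MeasurableEquiv.map_apply]
  apply congrArg
  ext f
  rw [Set.mem_preimage, Set.mem_preimage, Set.mem_preimage, Set.mem_ofPred_eq, Set.mem_ofPred_eq]
  apply TRP_.inf_iff φ.toEquiv
  intro a
  rw [Set.mem_ofPred_eq, Set.mem_ofPred_eq, MeasurableEquiv.coe_piCongrLeft]
  have h2 : (Equiv.piCongrLeft (fun _ => Prop) e) f (e a) = f a :=
    Equiv.piCongrLeft_apply_apply (fun _ => Prop) e f a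
  rw [← h2, hea]
  rfl

end Pool.Agent.PCU
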