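import Pool.Agent.PCU.Stmts

/-!
# Squad PCU: closed walks and the spectral radius
-/

set_option autoImplicit false

namespace Pool.Agent.PCU

open MeasureTheory ProbabilityTheory
open scoped Classical

namespace WLK_

variable {V : Type}

/-- the points which can be reached in `m` steps -/
noncomputable def B (G : SimpleGraph V) [G.LocallyFinite] : ℕ → V → Finset V
  | 0, x => {x}
  | m + 1, x => (G.neighborFinset x).biUnion (B G m)

/-- the composition of walks -/
lemma comp (G : SimpleGraph V) [G.LocallyFinite] (n : ℕ) (y : V) :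
    ∀ (m : ℕ) (x : V) (T : Finset V), B G m x ⊆ T →
      ∑ z ∈ T, nw G m x z * nw G n z y = nw G (m + n) x y := by
  intro m
  induction m with
  | zero =>
    intro x T hT
    have hx : x ∈ T := hT (by simp [B])
    rw [Finset.sum_eq_single x]
    · simp [nw]
    · intro z _ hz
      simp [nw, Ne.symm hz]
    · intro h; exact absurd hx h
  | succ m ih =>
    intro x T hT
    have h1 : ∀ z, nw G (m + 1) x z = ∑ z' ∈ G.neighborFinset x, nw G m z' z := fun z => rfl
    have h2 : nw G (m + 1 + n) x y = ∑ z' ∈ G.neighborFinset x, nw G (m + n) z' y := by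
      rw [show m + 1 + n = (m + n) + 1 by ring]; rfl
    rw [h2]
    simp_rw [h1, Finset.sum_mul]
    rw [Finset.sum_comm]
    refine Finset.sum_congr rfl fun z' hz' => ?_
    refine ih z' T (fun a ha => hT ?_)
    rw [B, Finset.mem_biUnion]
    exact ⟨z', hz', ha⟩

/-- walks stay in `B` -/
lemma supp (G : SimpleGraph V) [G.LocallyFinite] :
    ∀ (m : ℕ) (x z : V), z ∉ B G m x → nw G m x z = 0 := by
  intro m
  induction m with
  | zero =>
    intro x z hz
    have : x ≠ z := by
      rintro rfl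
      exact hz (by simp [B])
    simp [nw, this]
  | succ m ih =>
    intro x z hz
    change ∑ z' ∈ G.neighborFinset x, nw G m z' z = 0
    refine Finset.sum_eq_zero fun z' hz' => ih z' z fun h => hz ?_
    rw [B, Finset.mem_biUnion]
    exact ⟨z', hz', h⟩

/-- the quadratic form on a finite set -/
lemma ray {G : SimpleGraph V} [G.LocallyFinite] {d : ℕ} {r : ℝ} (hr : RayleighLE G r)
    (hd : ∀ x, G.degree x = d) (T : Finset V) (f : V → ℝ) (hf : ∀ x, x ∉ T → f x = 0) :
    ∑ x ∈ T, f x * ∑ y ∈ G.neighborFinset x, f y ≤ (r * d) * ∑ x ∈ T, f x ^ 2 := by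
  have h := hr (Finsupp.onFinset T f (fun x hx => by
    by_contra hc
    exact hx (hf x hc)))
  have hs : (Finsupp.onFinset T f (fun x hx => by
    by_contra hc
    exact hx (hf x hc))).support ⊆ T := Finsupp.support_onFinset_subset
  simp only [Finsupp.onFinset_apply] at h
  rw [Finset.sum_subset hs, Finset.sum_subset hs] at h
  · simp_rw [hd] at h
    rw [← Finset.mul_sum, ← mul_assoc] at h
    refine le_trans (le_of_eq ?_) h
    refine Finset.sum_congr rfl fun x _ => ?_
    rw [Finset.mul_sum]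
  · intro x _ hx
    rw [Finsupp.notMem_support_iff, Finsupp.onFinset_apply] at hx
    rw [hx]; ring
  · intro x _ hx
    rw [Finsupp.notMem_support_iff, Finsupp.onFinset_apply] at hx
    refine Finset.sum_eq_zero fun y _ => ?_
    rw [hx]; ring

/-- the lower bound -/
lemma ray' {G : SimpleGraph V} [G.LocallyFinite] {d : ℕ} {r : ℝ} (hr : RayleighLE G r)
    (hd : ∀ x, G.degree x = d) (T : Finset V) (f : V → ℝ) (hf : ∀ x, x ∉ T → f x = 0) :
    -(∑ x ∈ T, f x * ∑ y ∈ G.neighborFinset x, f y) ≤ (r * d) * ∑ x ∈ T, f x ^ 2 := by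
  have h := ray hr hd T (fun x => |f x|) (fun x hx => by rw [hf x hx, abs_zero])
  simp only [sq_abs] at h
  refine le_trans ?_ h
  rw [← Finset.sum_neg_distrib]
  refine Finset.sum_le_sum fun x _ => ?_
  rw [Finset.mul_sum, Finset.mul_sum, ← Finset.sum_neg_distrib]
  refine Finset.sum_le_sum fun y _ => ?_
  rw [← abs_mul]
  exact neg_le_abs _

/-- one step for even lengths, and odd lengths -/
lemma stp {G : SimpleGraph V} [G.LocallyFinite] {d : ℕ} {r : ℝ} (h0 : 0 ≤ r)
    (hr : RayleighLE G r) (hd : ∀ x, G.degree x = d)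
    (hsym : ∀ (n : ℕ) (x y : V), nw G n x y = nw G n y x) (w : V) (m : ℕ) :
    nw G (2 * m + 1) w w ≤ (r * d) * nw G (2 * m) w w ∧
      nw G (2 * (m + 1)) w w ≤ (r * d) ^ 2 * nw G (2 * m) w w := by
  set c : ℝ := r * d with hc
  have hc0 : 0 ≤ c := mul_nonneg h0 (Nat.cast_nonneg _)
  set T : Finset V := B G m w ∪ B G (m + 1) w with hT
  have hT1 : B G m w ⊆ T := Finset.subset_union_left
  have hT2 : B G (m + 1) w ⊆ T := Finset.subset_union_right
  have z1 : ∀ x, x ∉ T → nw G m x w = 0 := fun x hx => by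
    rw [hsym]; exact supp G m w x fun h => hx (hT1 h)
  have z2 : ∀ x, x ∉ T → nw G (m + 1) x w = 0 := fun x hx => by
    rw [hsym]; exact supp G (m + 1) w x fun h => hx (hT2 h)
  have i1 : ∀ n, ∑ x ∈ T, nw G m x w * nw G n x w = nw G (m + n) w w := fun n => by
    rw [← comp G n w m w T hT1]
    exact Finset.sum_congr rfl fun x _ => by rw [hsym m x w]
  have i2 : ∀ n, ∑ x ∈ T, nw G (m + 1) x w * nw G n x w = nw G (m + 1 + n) w w := fun n => by
    rw [← comp G n w (m + 1) w T hT2]
    exact Finset.sum_congr rfl fun x _ => by rw [hsym (m + 1) x w]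
  have e11 := i1 m
  have e12 := i1 (m + 1)
  have e13 := i1 (m + 2)
  have e22 := i2 (m + 1)
  have e23 := i2 (m + 2)
  rw [show m + m = 2 * m by ring] at e11
  rw [show m + (m + 1) = 2 * m + 1 by ring] at e12
  rw [show m + (m + 2) = 2 * (m + 1) by ring] at e13
  rw [show m + 1 + (m + 1) = 2 * (m + 1) by ring] at e22
  rw [show m + 1 + (m + 2) = 2 * m + 3 by ring] at e23
  set s0 := nw G (2 * m) w w
  set k1 := nw G (2 * m + 1) w w
  set s1 := nw G (2 * (m + 1)) w w
  set k3 := nw G (2 * m + 3) w w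
  have nb1 : ∀ x, ∑ y ∈ G.neighborFinset x, nw G m y w = nw G (m + 1) x w := fun x => rfl
  have nb2 : ∀ x, ∑ y ∈ G.neighborFinset x, nw G (m + 1) y w = nw G (m + 2) x w := fun x => rfl
  have q : ∀ t s : ℝ,
      ∑ x ∈ T, (t * nw G m x w + s * nw G (m + 1) x w) *
        ∑ y ∈ G.neighborFinset x, (t * nw G m y w + s * nw G (m + 1) y w) =
      t ^ 2 * k1 + 2 * t * s * s1 + s ^ 2 * k3 := by
    intro t s
    have : ∀ x, ∑ y ∈ G.neighborFinset x, (t * nw G m y w + s * nw G (m + 1) y w) =
        t * nw G (m + 1) x w + s * nw G (m + 2) x w := by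
      intro x
      rw [Finset.sum_add_distrib, ← Finset.mul_sum, ← Finset.mul_sum, nb1, nb2]
    simp_rw [this]
    rw [← e12, ← e23]
    have h2 : 2 * t * s * s1 = t * s * s1 + t * s * s1 := by ring
    rw [h2]
    nth_rewrite 1 [← e13]
    rw [← e22]
    simp_rw [Finset.mul_sum]
    rw [← Finset.sum_add_distrib, ← Finset.sum_add_distrib, ← Finset.sum_add_distrib]
    refine Finset.sum_congr rfl fun x _ => ?_
    ring
  have nrm : ∀ t s : ℝ,
      ∑ x ∈ T, (t * nw G m x w + s * nw G (m + 1) x w) ^ 2 =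
      t ^ 2 * s0 + 2 * t * s * k1 + s ^ 2 * s1 := by
    intro t s
    rw [← e11, ← e12, ← e22]
    simp_rw [Finset.mul_sum]
    rw [← Finset.sum_add_distrib, ← Finset.sum_add_distrib]
    refine Finset.sum_congr rfl fun x _ => ?_
    ring
  have zz : ∀ t s : ℝ, ∀ x, x ∉ T → t * nw G m x w + s * nw G (m + 1) x w = 0 := by
    intro t s x hx
    rw [z1 x hx, z2 x hx]; ring
  constructor
  · have h := ray hr hd T (fun x => 1 * nw G m x w + 0 * nw G (m + 1) x w) (zz 1 0)
    rw [q, nrm] at h
    linarith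
  · have key : ∀ t : ℝ, 4 * t * s1 ≤ 2 * c * (t ^ 2 * s0 + s1) := by
      intro t
      have h1 := ray hr hd T (fun x => t * nw G m x w + 1 * nw G (m + 1) x w) (zz t 1)
      have h2 := ray' hr hd T (fun x => t * nw G m x w + (-1) * nw G (m + 1) x w) (zz t (-1))
      rw [q, nrm] at h1 h2
      nlinarith
    rcases hc0.eq_or_lt with h | h
    · have := key 1
      rw [← h] at this ⊢
      nlinarith
    · have := key c
      have h3 : 2 * c * s1 ≤ 2 * c * (c ^ 2 * s0) := by nlinarith
      exact le_of_mul_le_mul_left h3 (by linarith)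

/-- two steps -/
lemma two {G : SimpleGraph V} [G.LocallyFinite] {d : ℕ} (hd : ∀ x, G.degree x = d) (w : V) :
    nw G (2 * 1) w w = d := by
  change ∑ z ∈ G.neighborFinset w, ∑ z' ∈ G.neighborFinset z, (if z' = w then (1 : ℝ) else 0) = d
  have : ∀ z ∈ G.neighborFinset w,
      ∑ z' ∈ G.neighborFinset z, (if z' = w then (1 : ℝ) else 0) = 1 := by
    intro z hz
    rw [Finset.sum_ite_eq' (G.neighborFinset z) w, if_pos]
    rw [SimpleGraph.mem_neighborFinset] at hz ⊢
    exact hz.symm
  rw [Finset.sum_congr rfl this, Finset.sum_const, nsmul_eq_mul, mul_one,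
    SimpleGraph.card_neighborFinset_eq_degree, hd]

end WLK_

theorem wlk_proof (hNWK : Stmt_NWK) : Stmt_WLK := by
  intro V G _ d r h0 hr hd
  obtain ⟨hnn, hsym, hle, -⟩ := hNWK V G
  have hc0 : 0 ≤ r * d := mul_nonneg h0 (Nat.cast_nonneg _)
  have even0 : ∀ (w : V) (m : ℕ), nw G (2 * m) w w ≤ (r * d) ^ (2 * m) := by
    intro w m
    induction m with
    | zero => simp [nw]
    | succ m ih =>
      refine (WLK_.stp h0 hr hd hsym w m).2.trans ?_
      rw [show 2 * (m + 1) = 2 + 2 * m by ring, pow_add]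
      exact mul_le_mul_of_nonneg_left ih (by positivity)
  have even1 : ∀ (w : V) (m : ℕ), nw G (2 * (m + 1)) w w ≤ (r * d) ^ (2 * m) * d := by
    intro w m
    induction m with
    | zero =>
      rw [zero_add, WLK_.two hd w]
      simp
    | succ m ih =>
      refine (WLK_.stp h0 hr hd hsym w (m + 1)).2.trans ?_
      rw [show 2 * (m + 1) = 2 + 2 * m by ring, pow_add, mul_assoc]
      rw [show 2 + 2 * m = 2 * (m + 1) by ring]
      exact mul_le_mul_of_nonneg_left ih (by positivity)
  constructor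
  · intro n w hn
    rcases Nat.even_or_odd' n with ⟨m, hm | hm⟩
    · -- n = 2 m
      obtain ⟨k, rfl⟩ : ∃ k, m = k + 1 := ⟨m - 1, by omega⟩
      subst hm
      refine (WLK_.stp h0 hr hd hsym w (k + 1)).1.trans ?_
      rw [show 2 * (k + 1) - 1 = 1 + 2 * k by omega, pow_add, pow_one]
      have h5 := mul_le_mul_of_nonneg_left (even1 w k) hc0
      linarith
    · subst hm
      rw [show 2 * m + 1 + 1 = 2 * (m + 1) by ring, show 2 * m + 1 - 1 = 2 * m by omega]
      exact even1 w m
  · intro n x y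
    have h1 := hle n n y y {x}
    rw [Finset.sum_singleton, hsym n y x] at h1
    have h2 := even0 y n
    rw [show n + n = 2 * n by ring] at h1
    have h3 : nw G n x y ^ 2 ≤ ((r * d) ^ n) ^ 2 := by
      calc nw G n x y ^ 2 = nw G n x y * nw G n x y := by ring
        _ ≤ nw G (2 * n) y y := h1
        _ ≤ (r * d) ^ (2 * n) := h2
        _ = ((r * d) ^ n) ^ 2 := by rw [← pow_mul, mul_comm n 2]
    exact le_of_sq_le_sq h3 (by positivity)

end Pool.Agent.PCU
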