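import Pool.Agent.PCU.Stmts

set_option autoImplicit false

namespace Pool.Agent.PCU

open MeasureTheory ProbabilityTheory
open scoped Classical

namespace ZIN_

variable {V : Type}

theorem iff (ω : Set (Sym2 V)) :
    SomeInfinite ω ↔ ∃ x, {y | (SimpleGraph.fromEdgeSet ω).Reachable x y}.Infinite := by
  have key : ∀ x : V, ((SimpleGraph.fromEdgeSet ω).connectedComponentMk x).supp =
      {y | (SimpleGraph.fromEdgeSet ω).Reachable x y} := by
    intro x
    ext y
    rw [SimpleGraph.ConnectedComponent.mem_supp_iff, SimpleGraph.ConnectedComponent.eq]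
    exact ⟨fun h => h.symm, fun h => SimpleGraph.Reachable.symm h⟩
  constructor
  · rintro ⟨c, hc⟩
    induction c using SimpleGraph.ConnectedComponent.ind with
    | _ x =>
      refine ⟨x, ?_⟩
      rw [← key x]
      exact hc
  · rintro ⟨x, hx⟩
    refine ⟨(SimpleGraph.fromEdgeSet ω).connectedComponentMk x, ?_⟩
    rw [key x]
    exact hx

theorem step (ω : Set (Sym2 V)) (a b x y : V)
    (h : (SimpleGraph.fromEdgeSet (insert s(a, b) ω)).Reachable x y) :
    (SimpleGraph.fromEdgeSet (ω \ {s(a, b)})).Reachable x y ∨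
    (SimpleGraph.fromEdgeSet (ω \ {s(a, b)})).Reachable a y ∨
    (SimpleGraph.fromEdgeSet (ω \ {s(a, b)})).Reachable b y := by
  rw [SimpleGraph.reachable_iff_reflTransGen] at h
  induction h with
  | refl => exact Or.inl (SimpleGraph.Reachable.refl x)
  | @tail y z _ hyz ih =>
    rw [SimpleGraph.fromEdgeSet_adj] at hyz
    obtain ⟨h1, h2⟩ := hyz
    by_cases h3 : s(y, z) = s(a, b)
    · rw [Sym2.eq_iff] at h3
      rcases h3 with ⟨_, h4⟩ | ⟨_, h4⟩
      · subst h4
        exact Or.inr (Or.inr (SimpleGraph.Reachable.refl _))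
      · subst h4
        exact Or.inr (Or.inl (SimpleGraph.Reachable.refl _))
    · have h4 : s(y, z) ∈ ω := by
        rcases h1 with h1 | h1
        · exact absurd h1 h3
        · exact h1
      have h5 : (SimpleGraph.fromEdgeSet (ω \ {s(a, b)})).Reachable y z := by
        refine SimpleGraph.Adj.reachable ?_
        rw [SimpleGraph.fromEdgeSet_adj]
        exact ⟨⟨h4, h3⟩, h2⟩
      rcases ih with h | h | h
      · exact Or.inl (h.trans h5)
      · exact Or.inr (Or.inl (h.trans h5))
      · exact Or.inr (Or.inr (h.trans h5))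

end ZIN_

theorem zin_proof : Stmt_ZIN := by
  intro V ω e
  rw [ZIN_.iff, ZIN_.iff]
  induction e with
  | _ a b =>
    constructor
    · rintro ⟨x, hx⟩
      by_contra hcon
      push Not at hcon
      have h1 := hcon
      refine hx ((((h1 x).union (h1 a)).union (h1 b)).subset ?_)
      intro y hy
      rcases ZIN_.step ω a b x y hy with h | h | h
      · exact Or.inl (Or.inl h)
      · exact Or.inl (Or.inr h)
      · exact Or.inr h
    · rintro ⟨x, hx⟩
      refine ⟨x, hx.mono ?_⟩
      intro y hy
      refine SimpleGraph.Reachable.mono (SimpleGraph.fromEdgeSet_mono ?_) hy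
      exact Set.sdiff_subset.trans (Set.subset_insert _ _)

end Pool.Agent.PCU
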