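import Pool.Agent.PCU.Stmts

/-!
# Squad PCU, module ZOL: the zero-one law for the existence of an infinite cluster
-/

set_option autoImplicit false

namespace Pool.Agent.PCU

open MeasureTheory ProbabilityTheory
open scoped Classical

namespace ZOL_

/-- invariance under finitely many changes -/
theorem fin_inv (hZIN : Stmt_ZIN) {V : Type} (F : Finset (Sym2 V)) (ω : Set (Sym2 V)) :
    SomeInfinite ω ↔ SomeInfinite (ω \ (F : Set (Sym2 V))) := by
  induction F using Finset.induction_on with
  | empty => simp
  | insert e F he ih =>
    rw [ih]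
    have h1 := hZIN V (ω \ (F : Set (Sym2 V))) e
    have h2 : ω \ ((insert e F : Finset (Sym2 V)) : Set (Sym2 V)) =
        (ω \ (F : Set (Sym2 V))) \ {e} := by
      ext x
      simp only [Set.mem_sdiff, Finset.coe_insert, Set.mem_insert_iff, Set.mem_singleton_iff]
      tauto
    rw [h2, ← h1]
    by_cases h3 : e ∈ ω \ (F : Set (Sym2 V))
    · rw [Set.insert_eq_of_mem h3]
    · have h4 : (ω \ (F : Set (Sym2 V))) \ {e} = ω \ (F : Set (Sym2 V)) := by
        ext x
        simp only [Set.mem_sdiff, Set.mem_singleton_iff]
        constructor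
        · exact fun h => h.1
        · intro h
          refine ⟨h, ?_⟩
          rintro rfl
          exact h3 h
      rw [h1, h4]

end ZOL_

theorem zol_proof (hZIN : Stmt_ZIN) (hMSB : Stmt_MSB) : Stmt_ZOL := by
  intro V _ u p h hne
  rw [setBernoulli_apply'] at hne ⊢
  set μ : Measure (Sym2 V → Prop) := Measure.infinitePi fun i : Sym2 V ↦
    unitInterval.toNNReal ⟨p, h⟩ • Measure.dirac (i ∈ u) +
      unitInterval.toNNReal (unitInterval.symm ⟨p, h⟩) • Measure.dirac False with hμ
  set T : Set (Sym2 V → Prop) := (fun p ↦ {i | p i}) ⁻¹' {ω | SomeInfinite ω} with hT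
  have hTm : MeasurableSet T := by
    have h1 := (hMSB V).2.2.1
    exact measurableSet_preimage MeasurableEquiv.setOfPred.measurable h1
  let s : Sym2 V → MeasurableSpace (Sym2 V → Prop) := fun i =>
    MeasurableSpace.comap (fun P : Sym2 V → Prop => P i) inferInstance
  have hs : ∀ i, s i ≤ MeasurableSpace.pi := fun i => (measurable_pi_apply i).comap_le
  have hind : iIndep s μ := by
    have h1 : iIndepFun (fun (i : Sym2 V) (P : Sym2 V → Prop) => (P i)) μ :=
      iIndepFun_infinitePi (X := fun _ x => x) (fun _ => measurable_id)
    exact h1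
  have h01 : μ T = 0 ∨ μ T = 1 := by
    refine measure_zero_or_one_of_measurableSet_limsup (s := s) (f := Filter.cofinite)
      (p := fun t => t.Finite) (ns := fun F : Finset (Sym2 V) => (F : Set (Sym2 V))) hs hind
      ?_ ?_ ?_ ?_ ?_
    · intro t ht
      rw [Filter.mem_cofinite, compl_compl]
      exact ht
    · intro F F'
      exact ⟨F ∪ F', by simp, by simp⟩
    · intro F
      exact F.finite_toSet
    · intro i
      exact ⟨{i}, by simp⟩
    · rw [Filter.limsup_eq_iInf_iSup]
      rw [MeasurableSpace.measurableSet_iInf]
      intro t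
      rw [MeasurableSpace.measurableSet_iInf]
      intro ht
      rw [Filter.mem_cofinite] at ht
      -- the set `T` is the preimage of itself under the restriction to `t`
      have h1 : T = (fun P : Sym2 V → Prop => fun i => P i ∧ i ∈ t) ⁻¹' T := by
        ext P
        rw [hT, Set.mem_preimage, Set.mem_preimage, Set.mem_preimage]
        have h2 := ZOL_.fin_inv hZIN ht.toFinset {i | P i}
        have h3 : {i | P i} \ ((ht.toFinset : Finset (Sym2 V)) : Set (Sym2 V)) =
            {i | P i ∧ i ∈ t} := by
          ext x
          simp
        rw [h3] at h2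
        exact h2
      rw [h1]
      have h4 : Measurable[⨆ a ∈ t, s a] (fun P : Sym2 V → Prop => fun i => P i ∧ i ∈ t) := by
        refine @measurable_pi_lambda _ _ _ (⨆ a ∈ t, s a) _ _ ?_
        intro i
        by_cases hi : i ∈ t
        · have h5 : (fun P : Sym2 V → Prop => P i ∧ i ∈ t) = fun P => P i := by
            funext P
            simp [hi]
          rw [h5]
          refine Measurable.mono (comap_measurable (fun P : Sym2 V → Prop => P i)) ?_ le_rfl
          exact le_iSup₂_of_le i hi le_rfl
        · have h5 : (fun P : Sym2 V → Prop => P i ∧ i ∈ t) = fun _ => False := by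
            funext P
            simp [hi]
          rw [h5]
          exact measurable_const
      exact h4 hTm
  rcases h01 with h0 | h1
  · exact absurd h0 hne
  · exact h1

end Pool.Agent.PCU
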