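import Pool.Agent.PCU.RUS
import Pool.Agent.PCU.BRI
import Pool.Agent.PCU.TRD
import Pool.Agent.PCU.NWK
import Pool.Agent.PCU.TRI
import Pool.Agent.PCU.WLK
import Pool.Agent.PCU.SRS
import Pool.Agent.PCU.PHI
import Pool.Agent.PCU.DCP
import Pool.Agent.PCU.DCT
import Pool.Agent.PCU.LNK
import Pool.Agent.PCU.MSB
import Pool.Agent.PCU.INF
import Pool.Agent.PCU.ZIN
import Pool.Agent.PCU.ZOL
import Pool.Agent.PCU.TRP
import Pool.Agent.PCU.CONN
import Pool.Agent.PCU.FAR
import Pool.Agent.PCU.PUB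
import Pool.Agent.PCU.RHO
import Pool.Agent.PCU.NUM
import Pool.Agent.PCU.FI1

/-!
# Squad PCU: the first theorem
-/

set_option autoImplicit false

namespace Pool.Agent.PCU

theorem main1 : Main1 :=
  have hWLK : Stmt_WLK := wlk_proof nwk_proof
  have hTRI : Stmt_TRI := tri_proof trd_proof nwk_proof
  have hPHI : Stmt_PHI := phi_proof bri_proof hTRI hWLK srs_proof
  have hDCT : Stmt_DCT := dct_proof rus_proof dcp_proof
  have hINF : Stmt_INF := inf_proof lnk_proof msb_proof
  have hZOL : Stmt_ZOL := zol_proof zin_proof msb_proof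
  have hCON : Stmt_CON := con_proof nwk_proof hWLK lnk_proof
  have hPUB : Stmt_PUB := pub_proof msb_proof trp_proof hCON far_proof
  fi1_proof hPHI hDCT hINF hZOL hPUB far_proof rho_proof num_proof

end Pool.Agent.PCU
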