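import Pool.Agent.PCU.Stmts

/-!
# Squad PCU (MP_8ee43e_pr), module NIF: non-amenable groups are infinite
-/

set_option autoImplicit false

namespace Pool.Agent.PCU

open MeasureTheory ProbabilityTheory
open scoped Classical

theorem nif_proof : Stmt_NIF := by
  intro Γ _ h
  obtain ⟨K, ε, hε, h⟩ := h
  by_contra hinf
  have hfin : Finite Γ := not_infinite_iff_finite.mp hinf
  have := Fintype.ofFinite Γ
  obtain ⟨g, _, hg⟩ := h Finset.univ ⟨1, Finset.mem_univ _⟩
  have he : ((Finset.univ : Finset Γ).image fun x => x * g) \ Finset.univ = ∅ :=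
    Finset.sdiff_eq_empty_iff_subset.mpr (Finset.subset_univ _)
  rw [he, Finset.card_empty, Nat.cast_zero] at hg
  have : (0 : ℝ) ≤ ε * ((Finset.univ : Finset Γ).card : ℝ) := by positivity
  linarith

end Pool.Agent.PCU
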