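import Pool.Agent.PCU.Main
import Pool.Agent.PCU.CHG
import Pool.Agent.PCU.ISO
import Pool.Agent.PCU.CAY
import Pool.Agent.PCU.BLL
import Pool.Agent.PCU.NIF
import Pool.Agent.PCU.FI2

/-!
# Squad PCU: the second theorem
-/

set_option autoImplicit false

namespace Pool.Agent.PCU

theorem main2 : Main2 :=
  fi2_proof main1 rho_proof chg_proof iso_proof cay_proof bll_proof nif_proof

open scoped Classical Pointwise in
/-- The second theorem as one statement. -/
theorem main2' (Γ : Type) [Group Γ] (S : Finset Γ) (hS : SymGen S) (hna : NonAmenable Γ)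
    (δ : ℝ) (hδ : 0 < δ) :
    ∃ N : ℕ, ∀ T : Finset Γ, SymGen T → N ≤ T.card →
      ((∃ k : ℕ, T = ball S k) ∨
        ∀ s ∈ S, δ * T.card ≤ ((T ∩ T.image fun t => t * s).card : ℝ)) →
      pc (cay (T : Set Γ)) < pu (cay (T : Set Γ)) := by
  obtain ⟨h1, -⟩ := main2 Γ S hS hna
  have hinfi : Infinite Γ := nif_proof Γ hna
  obtain ⟨-, hB2, -⟩ := bll_proof Γ S hS hinfi
  have hS1 : (0 : ℝ) < (S.card : ℝ) + 1 := by positivity
  obtain ⟨N₁, hN₁⟩ := h1 δ hδ
  obtain ⟨N₂, hN₂⟩ := h1 (1 / ((S.card : ℝ) + 1)) (by positivity)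
  refine ⟨max (max N₁ N₂) 2, fun T hT hc hor => ?_⟩
  rcases hor with ⟨k, rfl⟩ | hor
  · have hk1 : 1 ≤ k := by
      by_contra hk
      have hk0 : k = 0 := by omega
      subst hk0
      have h2 : (ball S 0).card = 1 := by
        show ((insert 1 S) ^ 0 : Finset Γ).card = 1
        rw [pow_zero]
        rfl
      have h3 : 2 ≤ (ball S 0).card := le_trans (le_max_right _ _) hc
      omega
    refine hN₂ (ball S k) hT ?_ fun s hs => ?_
    · exact le_trans (le_max_right _ _) (le_trans (le_max_left _ _) hc)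
    · have h2 : ((ball S k).card : ℝ) ≤
          ((S.card : ℝ) + 1) * ((ball S k ∩ (ball S k).image fun t => t * s).card : ℝ) := by
        exact_mod_cast hB2 k s hk1 hs
      rw [div_mul_eq_mul_div, one_mul, div_le_iff₀ hS1]
      linarith
  · exact hN₁ T hT (le_trans (le_max_left _ _) (le_trans (le_max_left _ _) hc)) hor

end Pool.Agent.PCU
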