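import Pool.Agent.PCU.Stmts

/-!
# Squad PCU (MP_8ee43e_pr): no uniqueness
-/

set_option autoImplicit false

namespace Pool.Agent.PCU

open MeasureTheory ProbabilityTheory
open scoped Classical

namespace PUB_

theorem bonf {Ω ι : Type} [MeasurableSpace Ω] (μ : Measure Ω) [IsProbabilityMeasure μ] (s : Finset ι)
    (A : ι → Set Ω) (hA : ∀ i, MeasurableSet (A i)) (θ ε : ℝ) (hθ : ∀ i, θ ≤ μ.real (A i))
    (hε : ∀ i j, i ≠ j → μ.real (A i ∩ A j) ≤ ε) (hε0 : 0 ≤ ε) :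
    s.card * θ - (s.card : ℝ) ^ 2 * ε ≤ μ.real (⋃ i ∈ s, A i) := by
  induction s using Finset.induction_on with
  | empty => simp
  | insert a s ha ih =>
    have h1 : (⋃ i ∈ insert a s, A i) = (⋃ i ∈ s, A i) ∪ A a := by
      rw [Finset.set_biUnion_insert, Set.union_comm]
    have h2 := measureReal_union_add_inter (μ := μ) (s := ⋃ i ∈ s, A i) (hA a)
      (measure_ne_top μ _) (measure_ne_top μ _)
    have h3 : (⋃ i ∈ s, A i) ∩ A a = ⋃ i ∈ s, (A i ∩ A a) := by
      rw [Set.iUnion₂_inter]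
    have h4 : μ.real (⋃ i ∈ s, (A i ∩ A a)) ≤ ∑ i ∈ s, μ.real (A i ∩ A a) :=
      measureReal_biUnion_finset_le s _
    have h5 : ∑ i ∈ s, μ.real (A i ∩ A a) ≤ ∑ _i ∈ s, ε := by
      apply Finset.sum_le_sum
      intro i hi
      exact hε i a (fun h => ha (h ▸ hi))
    rw [Finset.sum_const, nsmul_eq_mul] at h5
    rw [h3] at h2
    rw [h1, Finset.card_insert_of_notMem ha]
    push_cast
    have h6 := hθ a
    nlinarith [h2, h4, h5, h6, ih, hε0, (Nat.cast_nonneg s.card : (0 : ℝ) ≤ s.card)]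

theorem infAt_iff {V : Type} (x : V) (ω : Set (Sym2 V)) :
    InfAt x ω ↔ ((SimpleGraph.fromEdgeSet ω).connectedComponentMk x).supp.Infinite := by
  unfold InfAt
  have h : {y | (SimpleGraph.fromEdgeSet ω).Reachable x y} =
      ((SimpleGraph.fromEdgeSet ω).connectedComponentMk x).supp := by
    ext y
    rw [Set.mem_ofPred_eq, SimpleGraph.ConnectedComponent.mem_supp_iff, SimpleGraph.ConnectedComponent.eq]
    exact SimpleGraph.reachable_comm
  rw [h]

theorem one_exists {V : Type} {ω : Set (Sym2 V)} (h : OneInfinite ω) : ∃ x, InfAt x ω := by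
  obtain ⟨c, hc, -⟩ := h
  induction c using SimpleGraph.ConnectedComponent.ind with
  | _ x => exact ⟨x, (infAt_iff x ω).mpr hc⟩

theorem one_reach {V : Type} {ω : Set (Sym2 V)} (h : OneInfinite ω) {x y : V} (hx : InfAt x ω)
    (hy : InfAt y ω) : (SimpleGraph.fromEdgeSet ω).Reachable x y := by
  obtain ⟨c, hc, hu⟩ := h
  rw [infAt_iff] at hx hy
  have h1 := hu _ hx
  have h2 := hu _ hy
  rw [← SimpleGraph.ConnectedComponent.eq]
  exact h1.trans h2.symm

end PUB_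

open PUB_ in
theorem pub_proof (hMSB : Stmt_MSB) (hTRP : Stmt_TRP) (hCON : Stmt_CON) (hFAR : Stmt_FAR) : Stmt_PUB := by
  intro V _ G _ d r p h hconn htrans hr hray hdeg hprd hone
  obtain ⟨hcount, hfar⟩ := hFAR V G hconn
  have := hcount
  obtain ⟨mR, mI, mS, mO⟩ := hMSB V
  have hpos : ∃ x, setBernoulli G.edgeSet ⟨p, h⟩ {ω | InfAt x ω} ≠ 0 := by
    by_contra hc
    push Not at hc
    have h1 : setBernoulli G.edgeSet ⟨p, h⟩ (⋃ x, {ω | InfAt x ω}) = 0 := measure_iUnion_null hc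
    have h2 : {ω | OneInfinite ω} ⊆ ⋃ x : V, {ω | InfAt x ω} := by
      intro ω hω
      obtain ⟨x, hx⟩ := one_exists hω
      exact Set.mem_iUnion.mpr ⟨x, hx⟩
    have h3 := measure_mono_null h2 h1
    rw [hone] at h3
    exact one_ne_zero h3
  obtain ⟨x0, hx0⟩ := hpos
  obtain ⟨θ, hθdef⟩ : ∃ θ, θ = (setBernoulli G.edgeSet ⟨p, h⟩).real {ω | InfAt x0 ω} := ⟨_, rfl⟩
  have hθpos : 0 < θ := by
    rw [hθdef]
    exact ENNReal.toReal_pos hx0 (measure_ne_top _ _)
  have hθ : ∀ x, (setBernoulli G.edgeSet ⟨p, h⟩).real {ω | InfAt x ω} = θ := by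
    intro x
    obtain ⟨φ, hφ⟩ := htrans x0 x
    have h1 := hTRP V G φ x0 p h
    rw [hφ] at h1
    rw [hθdef, measureReal_def, measureReal_def, h1]
  -- choose N and ε
  obtain ⟨N, hN⟩ := exists_nat_gt (2 / θ)
  have hNpos : 0 < (N : ℝ) := lt_trans (by positivity) hN
  have hNθ : 2 < N * θ := by
    rw [div_lt_iff₀ hθpos] at hN
    linarith
  obtain ⟨n, hn⟩ := hCON V G d r p h hr hray hdeg hprd (1 / (N : ℝ) ^ 2) (by positivity)
  obtain ⟨x, hx⟩ := hfar n N
  have hε : ∀ i j, i ≠ j → (setBernoulli G.edgeSet ⟨p, h⟩).real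
      ({ω | InfAt (x i) ω} ∩ {ω | InfAt (x j) ω}) ≤ 1 / (N : ℝ) ^ 2 := by
    intro i j hij
    have h1 := hn (x i) (x j) (hconn.preconnected _ _) (hx i j hij)
    have h2 : (setBernoulli G.edgeSet ⟨p, h⟩) ({ω | InfAt (x i) ω} ∩ {ω | InfAt (x j) ω}) ≤
        setBernoulli G.edgeSet ⟨p, h⟩ {ω | (SimpleGraph.fromEdgeSet ω).Reachable (x i) (x j)} := by
      have hae : ∀ᵐ ω ∂(setBernoulli G.edgeSet ⟨p, h⟩), OneInfinite ω := by
        rw [← prob_compl_eq_zero_iff mO] at hone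
        exact hone
      apply measure_mono_ae
      filter_upwards [hae] with ω hω hω2
      exact one_reach hω hω2.1 hω2.2
    rw [measureReal_def]
    exact ENNReal.toReal_le_of_le_ofReal (by positivity) (h2.trans h1)
  have hb := bonf (setBernoulli G.edgeSet ⟨p, h⟩) (Finset.univ : Finset (Fin N))
    (fun i => {ω | InfAt (x i) ω}) (fun i => mI (x i)) θ (1 / (N : ℝ) ^ 2) (fun i => (hθ (x i)).ge) hε
    (by positivity)
  have hb2 : (setBernoulli G.edgeSet ⟨p, h⟩).real (⋃ i ∈ (Finset.univ : Finset (Fin N)),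
      {ω | InfAt (x i) ω}) ≤ 1 := measureReal_le_one
  rw [Finset.card_univ, Fintype.card_fin] at hb
  have h3 : (N : ℝ) ^ 2 * (1 / (N : ℝ) ^ 2) = 1 := by
    field_simp
  rw [h3] at hb
  linarith

end Pool.Agent.PCU
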