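import Pool.Agent.PCU.Stmts

/-!
# Squad PCU, module RUS: Russo's formula
-/

set_option autoImplicit false

namespace Pool.Agent.PCU

open MeasureTheory ProbabilityTheory
open scoped Classical

namespace RUS_

theorem Ex_insert {α : Type} (p : ℝ) (E : Finset α) (e : α) (he : e ∉ E) (F : Finset α → ℝ) :
    Ex p (insert e E) F = p * Ex p E (fun ω => F (insert e ω)) + (1 - p) * Ex p E F := by
  unfold Ex
  rw [Finset.sum_powerset_insert he, add_comm, Finset.mul_sum, Finset.mul_sum]
  congr 1
  · refine Finset.sum_congr rfl fun ω hω => ?_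
    rw [Finset.mem_powerset] at hω
    have h1 : e ∉ ω := fun h => he (hω h)
    have h2 : (insert e E) \ (insert e ω) = E \ ω := by
      ext x
      simp only [Finset.mem_sdiff, Finset.mem_insert, not_or]
      constructor
      · rintro ⟨h | h, h', h''⟩
        · exact absurd h h'
        · exact ⟨h, h''⟩
      · rintro ⟨h, h'⟩
        exact ⟨Or.inr h, fun hx => he (hx ▸ h), h'⟩
    rw [Finset.card_insert_of_notMem h1, h2, pow_succ]
    ring
  · refine Finset.sum_congr rfl fun ω hω => ?_
    rw [Finset.mem_powerset] at hω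
    have h1 : e ∉ ω := fun h => he (hω h)
    have h2 : (insert e E) \ ω = insert e (E \ ω) := Finset.insert_sdiff_of_notMem _ h1
    have h3 : e ∉ E \ ω := fun h => he (Finset.mem_sdiff.1 h).1
    rw [h2, Finset.card_insert_of_notMem h3, pow_succ]
    ring

theorem Pr_insert {α : Type} (p : ℝ) (E : Finset α) (e : α) (he : e ∉ E) (A : Finset α → Prop) :
    Pr p (insert e E) A = p * Pr p E (fun ω => A (insert e ω)) + (1 - p) * Pr p E A :=
  Ex_insert p E e he _

theorem main {α : Type} (p : ℝ) (E : Finset α) : ∀ (A : Finset α → Prop),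
    (∀ ω ω' : Finset α, ω ⊆ ω' → ω' ⊆ E → A ω → A ω') →
    HasDerivAt (fun q => Pr q E A)
      (∑ e ∈ E, Pr p E fun ω => A (insert e ω) ∧ ¬ A (ω.erase e)) p := by
  induction E using Finset.induction_on with
  | empty =>
    intro A _
    have h1 : (fun q : ℝ => Pr q (∅ : Finset α) A) = fun _ => if A ∅ then (1 : ℝ) else 0 := by
      funext q
      unfold Pr Ex
      simp
    rw [h1, Finset.sum_empty]
    exact hasDerivAt_const p _
  | insert e₀ E he ih =>
    intro A hA
    have i1 := ih (fun ω => A (insert e₀ ω)) (fun ω ω' h h' h'' =>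
      hA _ _ (Finset.insert_subset_insert _ h) (Finset.insert_subset_insert _ h') h'')
    have i0 := ih A (fun ω ω' h h' h'' => hA _ _ h (h'.trans (Finset.subset_insert _ _)) h'')
    have hf : (fun q : ℝ => Pr q (insert e₀ E) A) =
        fun q => q * Pr q E (fun ω => A (insert e₀ ω)) + (1 - q) * Pr q E A := by
      funext q
      exact Pr_insert q E e₀ he A
    have hd := ((hasDerivAt_id p).mul i1).add (((hasDerivAt_const p (1 : ℝ)).sub
      (hasDerivAt_id p)).mul i0)
    rw [hf]
    refine hd.congr_deriv ?_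
    rw [Finset.sum_insert he]
    have hX : Pr p (insert e₀ E) (fun ω => A (insert e₀ ω) ∧ ¬ A (ω.erase e₀)) =
        Pr p E (fun ω => A (insert e₀ ω)) - Pr p E A := by
      have hX1 : ∀ ω ⊆ E, ((A (insert e₀ (insert e₀ ω)) ∧ ¬ A ((insert e₀ ω).erase e₀)) ↔
          (A (insert e₀ ω) ∧ ¬ A ω)) := by
        intro ω hω
        have h1 : e₀ ∉ ω := fun h => he (hω h)
        rw [Finset.insert_idem, Finset.erase_insert h1]
      have hX2 : ∀ ω ⊆ E, ((A (insert e₀ ω) ∧ ¬ A (ω.erase e₀)) ↔
          (A (insert e₀ ω) ∧ ¬ A ω)) := by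
        intro ω hω
        have h1 : e₀ ∉ ω := fun h => he (hω h)
        rw [Finset.erase_eq_of_notMem h1]
      rw [Pr_insert p E e₀ he, Pr_congr p E hX1, Pr_congr p E hX2]
      have hX3 : Pr p E (fun ω => A (insert e₀ ω) ∧ ¬ A ω) =
          Pr p E (fun ω => A (insert e₀ ω)) - Pr p E A := by
        unfold Pr
        rw [← Ex_sub]
        refine Ex_congr p E fun ω hω => ?_
        have hm : A ω → A (insert e₀ ω) :=
          hA _ _ (Finset.subset_insert _ _) (Finset.insert_subset_insert _ hω)
        by_cases h1 : A ω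
        · simp [h1, hm h1]
        · by_cases h2 : A (insert e₀ ω) <;> simp [h1, h2]
      rw [hX3]
      ring
    have hY : ∀ e ∈ E, Pr p (insert e₀ E) (fun ω => A (insert e ω) ∧ ¬ A (ω.erase e)) =
        p * Pr p E (fun ω => A (insert e₀ (insert e ω)) ∧ ¬ A (insert e₀ (ω.erase e))) +
        (1 - p) * Pr p E (fun ω => A (insert e ω) ∧ ¬ A (ω.erase e)) := by
      intro e hee
      have hne : e₀ ≠ e := fun h => he (h ▸ hee)
      rw [Pr_insert p E e₀ he]
      congr 2
      refine Pr_congr p E fun ω _ => ?_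
      rw [Finset.insert_comm e e₀, Finset.erase_insert_of_ne hne]
    rw [hX, Finset.sum_congr rfl hY, Finset.sum_add_distrib, ← Finset.mul_sum, ← Finset.mul_sum]
    simp only [Pi.sub_apply, id]
    ring

end RUS_

theorem rus_proof : Stmt_RUS := by
  intro α E A p hA
  exact RUS_.main p E A hA

end Pool.Agent.PCU
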