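import Pool.Agent.PCU.Fin

/-!
# Squad PCU (MP_8ee43e_pr): statements of the modules.
-/

set_option autoImplicit false

namespace Pool.Agent.PCU

open MeasureTheory ProbabilityTheory
open scoped Classical

/-! ## Auxiliary definitions -/

/-- `o` is connected to a vertex outside `Λ` -/
def Hit {V : Type} (Λ : Finset V) (o : V) (ω : Finset (Sym2 V)) : Prop := ∃ y, y ∉ Λ ∧ Rc ω o y

/-- the cluster of `x` is infinite -/
def InfAt {V : Type} (x : V) (ω : Set (Sym2 V)) : Prop :=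
  {y | (SimpleGraph.fromEdgeSet ω).Reachable x y}.Infinite

/-! ## A. Finite percolation -/

/-- Russo's formula -/
def Stmt_RUS : Prop :=
  ∀ (α : Type) (E : Finset α) (A : Finset α → Prop) (p : ℝ),
    (∀ ω ω' : Finset α, ω ⊆ ω' → ω' ⊆ E → A ω → A ω') →
    HasDerivAt (fun q => Pr q E A)
      (∑ e ∈ E, Pr p E fun ω => A (insert e ω) ∧ ¬ A (ω.erase e)) p

/-- bridges -/
def Stmt_BRI : Prop :=
  ∀ (V : Type) (G : SimpleGraph V) (S : Finset V) (o : V) (p : ℝ), o ∈ S → 0 < p → p < 1 →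
    p * Ex p (EI G S) (fun ω => ∑ x ∈ cl S o ω,
        ((S.filter fun y => G.Adj x y ∧ ¬ Rc ω o y).card : ℝ)) ≤
      (1 - p) * (∑ x ∈ S, tau G S p o x - 1)

/-- two arms (deterministic) -/
def Stmt_TRD : Prop :=
  ∀ (V : Type) (G : SimpleGraph V) (S : Finset V) (o u y : V) (ω : Finset (Sym2 V)),
    ω ⊆ EI G S → o ∈ S → u ≠ y → Rc ω o u → Rc ω o y →
    ∃ (w : V) (P : G.Walk w u) (Q : G.Walk w y), w ∈ S ∧ (P.edges ++ Q.edges).Nodup ∧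
      (∀ e ∈ P.edges ++ Q.edges, e ∈ ω) ∧ 1 ≤ P.length + Q.length ∧
      P.length + Q.length ≤ S.card ∧ Rc (ω \ (P.edges ++ Q.edges).toFinset) o w

/-- numbers of walks -/
def Stmt_NWK : Prop :=
  ∀ (V : Type) (G : SimpleGraph V) [G.LocallyFinite],
    (∀ (n : ℕ) (x y : V), 0 ≤ nw G n x y) ∧ (∀ (n : ℕ) (x y : V), nw G n x y = nw G n y x) ∧
    (∀ (m n : ℕ) (x y : V) (T : Finset V),
      ∑ z ∈ T, nw G m x z * nw G n z y ≤ nw G (m + n) x y) ∧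
    ∀ (n : ℕ) (x y : V), ∃ W : Finset (G.Walk x y), (W.card : ℝ) = nw G n x y ∧
      ∀ P : G.Walk x y, P ∈ W ↔ P.length = n

/-- adjacent pairs in the cluster. Uses TRD, NWK -/
def Stmt_TRI : Prop :=
  ∀ (V : Type) (G : SimpleGraph V) [G.LocallyFinite] (S : Finset V) (o : V) (p M : ℝ), o ∈ S →
    0 ≤ p → p ≤ 1 →
    (∀ w ∈ S, ∑ n ∈ Finset.Icc 1 S.card, ((n : ℝ) + 1) * p ^ n * nw G (n + 1) w w ≤ M) →
    Ex p (EI G S) (fun ω => ∑ x ∈ cl S o ω,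
        (((cl S o ω).filter fun y => G.Adj x y).card : ℝ)) ≤ M * ∑ x ∈ S, tau G S p o x

/-- closed walks and the spectral radius. Uses NWK -/
def Stmt_WLK : Prop :=
  ∀ (V : Type) (G : SimpleGraph V) [G.LocallyFinite] (d : ℕ) (r : ℝ), 0 ≤ r → RayleighLE G r →
    (∀ x, G.degree x = d) →
    (∀ (n : ℕ) (w : V), 1 ≤ n → nw G (n + 1) w w ≤ (r * d) ^ (n - 1) * d) ∧
    ∀ (n : ℕ) (x y : V), nw G n x y ≤ (r * d) ^ n

/-- a power series -/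
def Stmt_SRS : Prop :=
  ∀ (d p r : ℝ) (N : ℕ), 0 ≤ p → 0 ≤ r → 0 ≤ d → p * (r * d) < 1 →
    ∑ n ∈ Finset.Icc 1 N, ((n : ℝ) + 1) * p ^ n * ((r * d) ^ (n - 1) * d) ≤
      p * d * (2 - p * (r * d)) / (1 - p * (r * d)) ^ 2

/-- the main inequality. Uses BRI, TRI, WLK, SRS -/
def Stmt_PHI : Prop :=
  ∀ (V : Type) (G : SimpleGraph V) [G.LocallyFinite] (d : ℕ) (r p : ℝ) (S : Finset V) (o : V),
    0 ≤ r → RayleighLE G r → (∀ x, G.degree x = d) → o ∈ S → 0 < p → p < 1 → p * (r * d) < 1 →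
    p * (p * d * (2 - p * (r * d)) / (1 - p * (r * d)) ^ 2) ≤ p * d - 1 → 1 ≤ phi G S p o

/-- pivotal edges (Duminil-Copin and Tassion) -/
def Stmt_DCP : Prop :=
  ∀ (V : Type) (G : SimpleGraph V) [G.LocallyFinite] (Λ : Finset V) (o : V) (p : ℝ), o ∈ Λ →
    0 < p → p < 1 → (∀ S ⊆ Λ, o ∈ S → 1 ≤ phi G S p o) →
    1 - Pr p (ET G Λ) (Hit Λ o) ≤
      p * (1 - p) * ∑ e ∈ ET G Λ,
        Pr p (ET G Λ) fun ω => Hit Λ o (insert e ω) ∧ ¬ Hit Λ o (ω.erase e)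

/-- the differential inequality. Uses RUS, DCP -/
def Stmt_DCT : Prop :=
  ∀ (V : Type) (G : SimpleGraph V) [G.LocallyFinite] (Λ : Finset V) (o : V) (p₀ p₁ : ℝ), o ∈ Λ →
    0 < p₀ → p₀ ≤ p₁ → p₁ < 1 →
    (∀ p, p₀ ≤ p → p ≤ p₁ → ∀ S ⊆ Λ, o ∈ S → 1 ≤ phi G S p o) →
    (p₁ - p₀) / (p₁ * (1 - p₀)) ≤ Pr p₁ (ET G Λ) (Hit Λ o)

/-! ## B. The infinite graph -/

/-- events which depend on finitely many edges -/
def Stmt_LNK : Prop :=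
  ∀ (V : Type) [Countable V] (u : Set (Sym2 V)) (E : Finset (Sym2 V))
    (A : Finset (Sym2 V) → Prop) (p : ℝ) (h : p ∈ Set.Icc (0 : ℝ) 1), (E : Set (Sym2 V)) ⊆ u →
    setBernoulli u ⟨p, h⟩ {ω | A (E.filter fun e => e ∈ ω)} = ENNReal.ofReal (Pr p E A)

/-- measurability -/
def Stmt_MSB : Prop :=
  ∀ (V : Type) [Countable V],
    (∀ x y : V, MeasurableSet {ω : Set (Sym2 V) | (SimpleGraph.fromEdgeSet ω).Reachable x y}) ∧
    (∀ x : V, MeasurableSet {ω : Set (Sym2 V) | InfAt x ω}) ∧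
    MeasurableSet {ω : Set (Sym2 V) | SomeInfinite ω} ∧
    MeasurableSet {ω : Set (Sym2 V) | OneInfinite ω}

/-- from finite boxes to the infinite graph. Uses LNK, MSB -/
def Stmt_INF : Prop :=
  ∀ (V : Type) [Countable V] [Infinite V] (G : SimpleGraph V) [G.LocallyFinite] (o : V)
    (p θ : ℝ) (h : p ∈ Set.Icc (0 : ℝ) 1),
    (∀ Λ : Finset V, o ∈ Λ → θ ≤ Pr p (ET G Λ) (Hit Λ o)) →
    ENNReal.ofReal θ ≤ setBernoulli G.edgeSet ⟨p, h⟩ {ω | InfAt o ω}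

/-- one edge does not matter -/
def Stmt_ZIN : Prop :=
  ∀ (V : Type) (ω : Set (Sym2 V)) (e : Sym2 V), SomeInfinite (insert e ω) ↔ SomeInfinite (ω \ {e})

/-- the zero-one law. Uses ZIN, MSB -/
def Stmt_ZOL : Prop :=
  ∀ (V : Type) [Countable V] (u : Set (Sym2 V)) (p : ℝ) (h : p ∈ Set.Icc (0 : ℝ) 1),
    setBernoulli u ⟨p, h⟩ {ω | SomeInfinite ω} ≠ 0 →
    setBernoulli u ⟨p, h⟩ {ω | SomeInfinite ω} = 1

/-- invariance under automorphisms -/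
def Stmt_TRP : Prop :=
  ∀ (V : Type) [Countable V] (G : SimpleGraph V) (φ : G ≃g G) (x : V) (p : ℝ)
    (h : p ∈ Set.Icc (0 : ℝ) 1),
    setBernoulli G.edgeSet ⟨p, h⟩ {ω | InfAt (φ x) ω} =
      setBernoulli G.edgeSet ⟨p, h⟩ {ω | InfAt x ω}

/-- decay of the connection probabilities. Uses NWK, WLK, LNK -/
def Stmt_CON : Prop :=
  ∀ (V : Type) [Countable V] (G : SimpleGraph V) [G.LocallyFinite] (d : ℕ) (r p : ℝ)
    (h : p ∈ Set.Icc (0 : ℝ) 1), 0 ≤ r → RayleighLE G r → (∀ x, G.degree x = d) →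
    p * (r * d) < 1 → ∀ ε : ℝ, 0 < ε → ∃ n : ℕ, ∀ x y : V, G.Reachable x y → n ≤ G.dist x y →
      setBernoulli G.edgeSet ⟨p, h⟩ {ω | (SimpleGraph.fromEdgeSet ω).Reachable x y} ≤
        ENNReal.ofReal ε

/-- far apart vertices -/
def Stmt_FAR : Prop :=
  ∀ (V : Type) [Infinite V] (G : SimpleGraph V) [G.LocallyFinite], G.Connected →
    Countable V ∧ ∀ n N : ℕ, ∃ x : Fin N → V, ∀ i j, i ≠ j → n ≤ G.dist (x i) (x j)

/-- no uniqueness. Uses MSB, TRP, CON, FAR -/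
def Stmt_PUB : Prop :=
  ∀ (V : Type) [Infinite V] (G : SimpleGraph V) [G.LocallyFinite] (d : ℕ) (r p : ℝ)
    (h : p ∈ Set.Icc (0 : ℝ) 1), G.Connected → Transitive G → 0 ≤ r → RayleighLE G r →
    (∀ x, G.degree x = d) → p * (r * d) < 1 →
    setBernoulli G.edgeSet ⟨p, h⟩ {ω | OneInfinite ω} ≠ 1

/-! ## C. The first theorem -/

/-- the spectral radius -/
def Stmt_RHO : Prop :=
  ∀ (V : Type) [Nonempty V] (G : SimpleGraph V) [G.LocallyFinite] (d : ℕ), 1 ≤ d →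
    (∀ x, G.degree x = d) →
    0 ≤ rho G ∧ RayleighLE G (rho G) ∧ ∀ r, RayleighLE G r → rho G ≤ r

/-- numbers -/
def Stmt_NUM : Prop :=
  ∀ (d : ℕ) (r : ℝ), 0 ≤ r → 11 ≤ (d : ℝ) * (1 - r) ^ 3 →
    ∃ p₀ p₁ : ℝ, 0 < p₀ ∧ p₀ < p₁ ∧ p₁ < 1 ∧ p₁ * (r * d) < 1 ∧
      ∀ p, p₀ ≤ p → p ≤ p₁ →
        p * (p * d * (2 - p * (r * d)) / (1 - p * (r * d)) ^ 2) ≤ p * d - 1

/-- FIRST THEOREM. Uses PHI, DCT, INF, ZOL, PUB, FAR, RHO, NUM -/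
def Main1 : Prop :=
  ∀ (V : Type) [Infinite V] (G : SimpleGraph V) [G.LocallyFinite] (d : ℕ), G.Connected →
    Transitive G → (∀ x, G.degree x = d) → 11 ≤ (d : ℝ) * (1 - rho G) ^ 3 → pc G < pu G

/-! ## D. The second theorem -/

/-- Cheeger's inequality -/
def Stmt_CHG : Prop :=
  ∀ (V : Type) (G : SimpleGraph V) [G.LocallyFinite] (d : ℕ) (η : ℝ), 1 ≤ d →
    (∀ x, G.degree x = d) → 0 ≤ η → η ≤ 1 →
    (∀ F : Finset V, F.Nonempty →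
      η * d * F.card ≤ ∑ x ∈ F, ((G.neighborFinset x \ F).card : ℝ)) →
    RayleighLE G (1 - η ^ 2 / 2)

/-- displacements -/
def Stmt_ISO : Prop :=
  ∀ (Γ : Type) [Group Γ] (S : Finset Γ), SymGen S → NonAmenable Γ →
    ∃ κ : ℝ, 0 < κ ∧ κ ≤ 1 ∧ ∀ (T : Finset Γ) (δ : ℝ), 0 < δ → δ ≤ 1 →
      (∀ s ∈ S, δ * T.card ≤ ((T ∩ T.image fun t => t * s).card : ℝ)) →
      ∀ F : Finset Γ, F.Nonempty →
        κ * δ * T.card * F.card ≤ ∑ t ∈ T, ((F.image (fun x => x * t) \ F).card : ℝ)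

/-- Cayley graphs -/
def Stmt_CAY : Prop :=
  ∀ (Γ : Type) [Group Γ] (T : Finset Γ), SymGen T →
    (cay (T : Set Γ)).Connected ∧ Transitive (cay (T : Set Γ)) ∧
    Nonempty (cay (T : Set Γ)).LocallyFinite ∧
    ∀ (_ : (cay (T : Set Γ)).LocallyFinite) (x : Γ),
      (cay (T : Set Γ)).neighborFinset x = (T.erase 1).image fun t => x * t

/-- balls -/
def Stmt_BLL : Prop :=
  ∀ (Γ : Type) [Group Γ] (S : Finset Γ), SymGen S → Infinite Γ →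
    (∀ k : ℕ, 1 ≤ k → SymGen (ball S k)) ∧
    (∀ (k : ℕ) (s : Γ), 1 ≤ k → s ∈ S → (ball S k).card ≤
      (S.card + 1) * (ball S k ∩ (ball S k).image fun t => t * s).card) ∧
    ∀ N : ℕ, ∃ k₀ : ℕ, ∀ k : ℕ, k₀ ≤ k → N ≤ (ball S k).card

/-- non-amenable groups are infinite -/
def Stmt_NIF : Prop := ∀ (Γ : Type) [Group Γ], NonAmenable Γ → Infinite Γ

/-- SECOND THEOREM. Uses Main1, RHO, CHG, ISO, CAY, BLL, NIF -/
def Main2 : Prop :=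
  ∀ (Γ : Type) [Group Γ] (S : Finset Γ), SymGen S → NonAmenable Γ →
    (∀ δ : ℝ, 0 < δ → ∃ N : ℕ, ∀ T : Finset Γ, SymGen T → N ≤ T.card →
      (∀ s ∈ S, δ * T.card ≤ ((T ∩ T.image fun t => t * s).card : ℝ)) →
      pc (cay (T : Set Γ)) < pu (cay (T : Set Γ))) ∧
    ∃ k₀ : ℕ, ∀ k : ℕ, k₀ ≤ k → pc (cay (ball S k : Set Γ)) < pu (cay (ball S k : Set Γ))

end Pool.Agent.PCU
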